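import Pool.Agent.H150Z.Cher.Defs

/-!
An obstruction to cellularity.
-/

set_option autoImplicit false
set_option linter.unusedSectionVars false
set_option linter.unusedSimpArgs false

namespace Pool.Agent.H150Z.Cher

open Module

section
variable {A : Type} [Ring A] [Algebra ℂ A]
  {Λ : Type} [Fintype Λ] [PartialOrder Λ] {M : Λ → Type} [∀ l, Fintype (M l)]
  (C : Basis (Σ l : Λ, M l × M l) ℂ A) (σ : A →ₗ[ℂ] A)

/-- span of the basis elements in the cells satisfying `P` -/
def cellSpan (P : Λ → Prop) : Submodule ℂ A :=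
  Submodule.span ℂ {z : A | ∃ (m : Λ) (U U' : M m), P m ∧ z = C ⟨m, U, U'⟩}

lemma cellSpan_mono {P Q : Λ → Prop} (h : ∀ m, Nonempty (M m) → P m → Q m) :
    cellSpan C P ≤ cellSpan C Q := by
  apply Submodule.span_mono
  rintro z ⟨m, U, U', hm, rfl⟩
  exact ⟨m, U, U', h m ⟨U⟩ hm, rfl⟩

lemma repr_cellSpan {P : Λ → Prop} {z : A} (hz : z ∈ cellSpan C P) {l : Λ} (hl : ¬ P l)
    (S T : M l) : C.repr z ⟨l, S, T⟩ = 0 := by
  classical
  induction hz using Submodule.span_induction with
  | mem x hx =>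
    obtain ⟨m, U, U', hm, rfl⟩ := hx
    rw [Basis.repr_self, Finsupp.single_apply, if_neg]
    intro h
    have : m = l := congrArg Sigma.fst h
    exact hl (this ▸ hm)
  | zero => simp
  | add x y _ _ hx hy => simp [hx, hy]
  | smul a x _ hx => simp [hx]

lemma mem_cellSpan {P : Λ → Prop} {m : Λ} (hm : P m) (U U' : M m) :
    C ⟨m, U, U'⟩ ∈ cellSpan C P :=
  Submodule.subset_span ⟨m, U, U', hm, rfl⟩

variable (hσσ : ∀ a, σ (σ a) = a) (hσm : ∀ a b, σ (a * b) = σ b * σ a)
  (hσC : ∀ (l : Λ) (S T : M l), σ (C ⟨l, S, T⟩) = C ⟨l, T, S⟩)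
  (r : A → ∀ l : Λ, M l → M l → ℂ)
  (hr : ∀ (a : A) (l : Λ) (S T : M l),
      a * C ⟨l, S, T⟩ - ∑ S' : M l, r a l S' S • C ⟨l, S', T⟩ ∈ cellSpan C (· < l))

include hσC in
lemma σ_cellSpan {P : Λ → Prop} {z : A} (hz : z ∈ cellSpan C P) : σ z ∈ cellSpan C P := by
  induction hz using Submodule.span_induction with
  | mem x hx =>
    obtain ⟨m, U, U', hm, rfl⟩ := hx
    rw [hσC]; exact mem_cellSpan C hm _ _
  | zero => simp
  | add x y _ _ hx hy => rw [map_add]; exact Submodule.add_mem _ hx hy
  | smul a x _ hx => rw [map_smul]; exact Submodule.smul_mem _ _ hx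

include hr in
lemma left_cellSpan {P : Λ → Prop}
    (hP : ∀ m m', Nonempty (M m) → Nonempty (M m') → P m → m' < m → P m')
    (a : A) {z : A} (hz : z ∈ cellSpan C P) : a * z ∈ cellSpan C P := by
  induction hz using Submodule.span_induction with
  | mem x hx =>
    obtain ⟨m, U, U', hm, rfl⟩ := hx
    have h1 := cellSpan_mono C (Q := P) (fun m' hm' h => hP m m' ⟨U⟩ hm' hm h) (hr a m U U')
    have h2 : ∑ S' : M m, r a m S' U • C ⟨m, S', U'⟩ ∈ cellSpan C P :=
      Submodule.sum_mem _ fun S' _ => Submodule.smul_mem _ _ (mem_cellSpan C hm _ _)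
    simpa using Submodule.add_mem _ h1 h2
  | zero => simp
  | add x y _ _ hx hy => rw [mul_add]; exact Submodule.add_mem _ hx hy
  | smul b x _ hx => rw [mul_smul_comm]; exact Submodule.smul_mem _ _ hx

include hr hσσ hσm hσC in
lemma right_cellSpan {P : Λ → Prop}
    (hP : ∀ m m', Nonempty (M m) → Nonempty (M m') → P m → m' < m → P m')
    (a : A) {z : A} (hz : z ∈ cellSpan C P) : z * a ∈ cellSpan C P := by
  have h := σ_cellSpan C σ hσC (left_cellSpan C r hr hP (σ a) (σ_cellSpan C σ hσC hz))
  rwa [hσm, hσσ, hσσ] at h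

include hr in
lemma repr_mul (a : A) (l : Λ) (S S' T T' : M l) :
    C.repr (a * C ⟨l, S, T⟩) ⟨l, S', T'⟩ = by classical exact if T = T' then r a l S' S else 0 := by
  classical
  have h := repr_cellSpan C (hr a l S T) (lt_irrefl l) S' T'
  rw [map_sub, Finsupp.sub_apply, sub_eq_zero] at h
  rw [h, map_sum, Finsupp.finsetSum_apply]
  simp only [map_smul, Basis.repr_self, Finsupp.smul_apply, Finsupp.single_apply, smul_eq_mul]
  rw [Finset.sum_eq_single S']
  · by_cases hT : T = T'
    · subst hT; simp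
    · rw [if_neg hT, if_neg, mul_zero]
      intro h
      apply hT
      have := eq_of_heq (Sigma.mk.inj h).2
      exact (Prod.mk.inj this).2
  · intro b _ hb
    rw [if_neg, mul_zero]
    intro h
    apply hb
    have := eq_of_heq (Sigma.mk.inj h).2
    exact (Prod.mk.inj this).1
  · simp

include hr hσσ hσm hσC in
lemma hr_right (b : A) (l : Λ) (S T : M l) :
    C ⟨l, S, T⟩ * b - ∑ T' : M l, r (σ b) l T' T • C ⟨l, S, T'⟩ ∈ cellSpan C (· < l) := by
  have h := σ_cellSpan C σ hσC (hr (σ b) l T S)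
  rw [map_sub, hσm, hσσ, hσC, map_sum] at h
  simpa [hσC] using h

include hr hσσ hσm hσC in
lemma repr_two (a b : A) (l : Λ) (S T : M l) :
    C.repr (a * C ⟨l, S, T⟩ * b) ⟨l, S, T⟩ = r a l S S * r (σ b) l T T := by
  classical
  have hP : ∀ m m', Nonempty (M m) → Nonempty (M m') → m < l → m' < m → m' < l :=
    fun m m' _ _ h1 h2 => h2.trans h1
  have h1 := left_cellSpan C r hr hP a (hr_right C σ hσσ hσm hσC r hr b l S T)
  have h2 := repr_cellSpan C h1 (lt_irrefl l) S T
  rw [mul_sub, map_sub, Finsupp.sub_apply, sub_eq_zero, ← mul_assoc] at h2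
  rw [h2, Finset.mul_sum, map_sum, Finsupp.finsetSum_apply]
  simp only [mul_smul_comm, map_smul, Finsupp.smul_apply, repr_mul C r hr, smul_eq_mul]
  rw [Finset.sum_eq_single T]
  · simp [mul_comm]
  · intro b _ hb; simp [hb]
  · simp

include hr hσσ hσm hσC in
lemma trace_formula (a b : A) :
    LinearMap.trace ℂ A ((LinearMap.mulRight ℂ b).comp (LinearMap.mulLeft ℂ a)) =
      ∑ l : Λ, (∑ S, r a l S S) * (∑ T, r (σ b) l T T) := by
  classical
  rw [LinearMap.trace_eq_matrix_trace ℂ C, Matrix.trace, Fintype.sum_sigma]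
  refine Finset.sum_congr rfl fun l _ => ?_
  rw [Fintype.sum_prod_type, Finset.sum_mul_sum]
  refine Finset.sum_congr rfl fun S _ => Finset.sum_congr rfl fun T _ => ?_
  rw [Matrix.diag_apply, LinearMap.toMatrix_apply]
  simpa using repr_two C σ hσσ hσm hσC r hr a b l S T

/-- the cell representation as a linear map -/
noncomputable def cellRep (l : Λ) (T : M l) : A →ₗ[ℂ] Matrix (M l) (M l) ℂ where
  toFun a := Matrix.of fun S' S => C.repr (a * C ⟨l, S, T⟩) ⟨l, S', T⟩
  map_add' a b := by ext S' S; simp [add_mul]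
  map_smul' t a := by ext S' S; simp

include hr in
lemma cellRep_apply (l : Λ) (T : M l) (a : A) (S' S : M l) :
    cellRep C l T a S' S = r a l S' S := by
  have := repr_mul C r hr a l S S' T T
  simpa [cellRep] using this

include hr in
lemma cellRep_mul (l : Λ) (T : M l) (a b : A) :
    cellRep C l T (a * b) = cellRep C l T a * cellRep C l T b := by
  classical
  ext S' S
  have hP : ∀ m m', Nonempty (M m) → Nonempty (M m') → m < l → m' < m → m' < l :=
    fun m m' _ _ h1 h2 => h2.trans h1
  have h1 := left_cellSpan C r hr hP a (hr b l S T)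
  have h2 := repr_cellSpan C h1 (lt_irrefl l) S' T
  rw [mul_sub, map_sub, Finsupp.sub_apply, sub_eq_zero, ← mul_assoc] at h2
  rw [Matrix.mul_apply]
  simp only [cellRep_apply C r hr l T a, cellRep_apply C r hr l T b]
  change C.repr (a * b * C ⟨l, S, T⟩) ⟨l, S', T⟩ = _
  rw [h2, Finset.mul_sum, map_sum, Finsupp.finsetSum_apply]
  simp only [mul_smul_comm, map_smul, Finsupp.smul_apply, repr_mul C r hr, smul_eq_mul]
  simp [mul_comm]

lemma cellRep_one (l : Λ) (T : M l) [DecidableEq (M l)] : cellRep C l T 1 = 1 := by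
  classical
  ext S' S
  change C.repr (1 * C ⟨l, S, T⟩) ⟨l, S', T⟩ = _
  rw [one_mul, Basis.repr_self, Finsupp.single_apply, Matrix.one_apply]
  by_cases h : S' = S
  · subst h; simp
  · rw [if_neg h, if_neg]
    intro h'
    apply h
    have := eq_of_heq (Sigma.mk.inj h').2
    exact (Prod.mk.inj this).1.symm

include hr hσσ hσm hσC in
lemma cellRep_surj (l : Λ) (T : M l) (hmax : ∀ m, Nonempty (M m) → ¬ l < m) :
    Function.Surjective (cellRep C l T) := by
  classical
  have hP : ∀ m m', Nonempty (M m) → Nonempty (M m') → m ≠ l → m' < m → m' ≠ l := by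
    intro m m' h1 _ _ h4 h5
    exact hmax m h1 (h5 ▸ h4)
  let ι : Matrix (M l) (M l) ℂ →ₗ[ℂ] A :=
    { toFun := fun v => ∑ S, ∑ U, v S U • C ⟨l, S, U⟩
      map_add' := by intro v w; simp [add_smul, Finset.sum_add_distrib]
      map_smul' := by intro t v; simp [Finset.smul_sum, mul_smul] }
  have hinj : Function.Injective ((cellRep C l T).comp ι) := by
    rw [← LinearMap.ker_eq_bot, LinearMap.ker_eq_bot']
    intro v hv
    have hv' : ∀ S' S, r (ι v) l S' S = 0 := by
      intro S' S
      rw [← cellRep_apply C r hr l T]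
      have : cellRep C l T (ι v) = 0 := hv
      rw [this]; rfl
    have hall : ∀ z : A, ι v * z ∈ cellSpan C (· ≠ l) := by
      intro z
      have hz : z ∈ Submodule.span ℂ (Set.range C) := by rw [C.span_eq]; trivial
      induction hz using Submodule.span_induction with
      | mem x hx =>
        obtain ⟨⟨m, U, U'⟩, rfl⟩ := hx
        by_cases hm : m = l
        · subst hm
          have := hr (ι v) m U U'
          simp only [hv', zero_smul, Finset.sum_const_zero, sub_zero] at this
          exact cellSpan_mono C (fun m' _ h => ne_of_lt h) this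
        · exact left_cellSpan C r hr hP _ (mem_cellSpan C hm _ _)
      | zero => simp
      | add x y _ _ hx hy => rw [mul_add]; exact Submodule.add_mem _ hx hy
      | smul b x _ hx => rw [mul_smul_comm]; exact Submodule.smul_mem _ _ hx
    have h1 := hall 1
    rw [mul_one] at h1
    ext S U
    have h2 := repr_cellSpan C h1 (l := l) (by simp) S U
    have h3 : C.repr (ι v) ⟨l, S, U⟩ = v S U := by
      change C.repr (∑ S, ∑ U, v S U • C ⟨l, S, U⟩) ⟨l, S, U⟩ = _
      simp only [map_sum, map_smul, Basis.repr_self, Finsupp.finsetSum_apply,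
        Finsupp.smul_apply, Finsupp.single_apply, smul_eq_mul]
      rw [Finset.sum_eq_single S, Finset.sum_eq_single U]
      · simp
      · intro b _ hb
        rw [if_neg, mul_zero]
        intro h
        apply hb
        have := eq_of_heq (Sigma.mk.inj h).2
        exact (Prod.mk.inj this).2
      · simp
      · intro b _ hb
        refine Finset.sum_eq_zero fun U' _ => ?_
        rw [if_neg, mul_zero]
        intro h
        apply hb
        have := eq_of_heq (Sigma.mk.inj h).2
        exact (Prod.mk.inj this).1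
      · simp
    rw [h3] at h2
    simpa using h2
  have hsurj := (LinearMap.injective_iff_surjective).1 hinj
  exact Function.Surjective.of_comp (g := ι) hsurj

end

lemma trace_im_of_sq {m : Type} [Fintype m] [DecidableEq m] (R : Matrix m m ℂ) (h : R * R = 1) :
    (Matrix.trace R).im = 0 := by
  let E : Matrix m m ℂ := (1 / 2 : ℂ) • (1 + R)
  have hE : E * E = E := by
    simp only [E, Matrix.smul_mul, Matrix.mul_smul, add_mul, mul_add, h, one_mul, mul_one,
      smul_smul]
    ext i j
    simp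
    ring
  have hE' : IsIdempotentElem (Matrix.toLin' E) := by
    rw [IsIdempotentElem, Module.End.mul_eq_comp, ← Matrix.toLin'_mul, hE]
  have h1 := (LinearMap.IsIdempotentElem.isProj_range _ hE').trace
  rw [Matrix.trace_toLin'_eq] at h1
  have h2 : R = (2 : ℂ) • E - 1 := by
    simp [E, smul_smul]
  rw [h2, Matrix.trace_sub, Matrix.trace_smul, h1, Matrix.trace_one]
  simp

/-- The obstruction. -/
theorem not_cellular {A : Type} [Ring A] [Algebra ℂ A] [Nontrivial A] (s : A) (hs : s * s = 1)
    (hT : ∀ b : A,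
      LinearMap.trace ℂ A ((LinearMap.mulRight ℂ b).comp (LinearMap.mulLeft ℂ s)) = 0)
    (hc : ∀ (m : Type) [Fintype m] [DecidableEq m] [Nonempty m] (ρ : A →ₗ[ℂ] Matrix m m ℂ),
      ρ 1 = 1 → (∀ a b, ρ (a * b) = ρ a * ρ b) → Function.Surjective ρ →
      Matrix.trace (ρ s) ≠ 0) : ¬ IsCellular A := by
  classical
  rintro ⟨Λ, _, _, M, _, C, σ, hσσ, hσm, hσC, hr⟩
  choose r hr using hr
  have hr' : ∀ (a : A) (l : Λ) (S T : M l),
      a * C ⟨l, S, T⟩ - ∑ S' : M l, r a l S' S • C ⟨l, S', T⟩ ∈ cellSpan C (· < l) := hr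
  have h1 := trace_formula C σ hσσ hσm hσC r hr' s (σ s)
  rw [hT, hσσ] at h1
  have him : ∀ l, (∑ S, r s l S S).im = 0 := by
    intro l
    by_cases hl : Nonempty (M l)
    · obtain ⟨T⟩ := hl
      have h2 := trace_im_of_sq (cellRep C l T s)
        (by rw [← cellRep_mul C r hr', hs, cellRep_one])
      simpa [Matrix.trace, cellRep_apply C r hr'] using h2
    · rw [not_nonempty_iff] at hl
      simp
  have hre : ∑ l, (∑ S, r s l S S).re ^ 2 = 0 := by
    have h2 := congrArg Complex.re h1
    rw [Complex.re_sum] at h2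
    simp only [Complex.mul_re, him, mul_zero, sub_zero, Complex.zero_re] at h2
    simp only [pow_two]
    exact h2.symm
  rw [Finset.sum_eq_zero_iff_of_nonneg (fun _ _ => sq_nonneg _)] at hre
  have hzero : ∀ l, (∑ S, r s l S S) = 0 := fun l =>
    Complex.ext (pow_eq_zero_iff (two_ne_zero) |>.1 (hre l (Finset.mem_univ l))) (him l)
  obtain ⟨⟨l0, S0, T0⟩⟩ := C.index_nonempty
  obtain ⟨l, hl⟩ := (Finset.univ.filter fun l : Λ => Nonempty (M l)).exists_maximal
    ⟨l0, by simpa using ⟨S0⟩⟩
  have hl1 : Nonempty (M l) := by simpa using hl.prop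
  obtain ⟨T⟩ := hl1
  have : Nonempty (M l) := ⟨T⟩
  have hmax : ∀ m, Nonempty (M m) → ¬ l < m := by
    intro m hm hlt
    exact hlt.not_ge (hl.le_of_ge (by simpa using hm) hlt.le)
  apply hc (M l) (cellRep C l T) (cellRep_one C l T) (cellRep_mul C r hr' l T)
    (cellRep_surj C σ hσσ hσm hσC r hr' l T hmax)
  simpa [Matrix.trace, cellRep_apply C r hr'] using hzero l

end Pool.Agent.H150Z.Cher
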