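import Pool.Agent.H150Z.Cher.Basic
import Pool.Agent.H150Z.Cher.Cell

/-!
The restricted rational Cherednik algebra of type `A_1` at `c = 0` is not cellular.
-/

set_option autoImplicit false
set_option linter.unusedSimpArgs false

namespace Pool.Agent.H150Z.Cher.A1

open Module Pool.Agent.H150Z.Cher

noncomputable def neg : ℂ ≃ₗ[ℂ] ℂ := LinearEquiv.neg ℂ

@[simp] lemma neg_apply (v : ℂ) : neg v = -v := rfl
@[simp] lemma neg_symm_apply (v : ℂ) : neg.symm v = -v := rfl

lemma one_symm (v : ℂ) : (1 : ℂ ≃ₗ[ℂ] ℂ).symm v = v := rfl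

lemma neg_mul_neg' : neg * neg = 1 := by ext; simp

lemma neg_ne_one : neg ≠ 1 := by
  intro h
  have := DFunLike.congr_fun h 1
  simp at this
  norm_num at this

noncomputable def W : Subgroup (ℂ ≃ₗ[ℂ] ℂ) where
  carrier := {g | g = 1 ∨ g = neg}
  mul_mem' := by
    rintro a b (rfl | rfl) (rfl | rfl) <;> simp [neg_mul_neg']
  one_mem' := Or.inl rfl
  inv_mem' := by
    rintro a (rfl | rfl)
    · simp
    · right
      exact inv_eq_of_mul_eq_one_left neg_mul_neg'

noncomputable def s : W := ⟨neg, Or.inr rfl⟩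

lemma W_cases (w : W) : w = 1 ∨ w = s := by
  obtain ⟨g, rfl | rfl⟩ := w
  · exact Or.inl rfl
  · exact Or.inr rfl

lemma s_ne_one : s ≠ 1 := fun h => neg_ne_one (congrArg Subtype.val h)

lemma s_mul_s : s * s = 1 := Subtype.ext neg_mul_neg'

instance : Finite W := by
  have : (Set.univ : Set W).Finite :=
    (Set.toFinite ({1, s} : Set W)).subset fun w _ => by simpa using W_cases w
  exact Set.finite_univ_iff.1 this

lemma isRefl_neg : IsRefl neg := by
  unfold IsRefl
  have : LinearMap.range ((neg : ℂ →ₗ[ℂ] ℂ) - LinearMap.id) = ⊤ := by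
    rw [LinearMap.range_eq_top]
    intro z
    exact ⟨-z / 2, by simp; ring⟩
  rw [this]; simp

lemma isReal : IsRealReflGroup W := by
  refine ⟨⟨inferInstance, ?_⟩, 1, Basis.singleton (Fin 1) ℂ, ?_⟩
  · apply le_antisymm
    · rw [Subgroup.closure_le]; exact fun x hx => hx.1
    · rintro g (rfl | rfl)
      · exact Subgroup.one_mem _
      · exact Subgroup.subset_closure ⟨Or.inr rfl, isRefl_neg⟩
  · rintro g (rfl | rfl) i j <;> simp [LinearMap.toMatrix_apply]

abbrev M : Type := Bool × Bool × Bool → ℂ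

def Xop : Module.End ℂ M where
  toFun f := fun p => if p.1 then f (false, p.2.1, p.2.2) else 0
  map_add' f g := by ext ⟨i, j, k⟩; cases i <;> simp
  map_smul' t f := by ext ⟨i, j, k⟩; cases i <;> simp

def Yop : Module.End ℂ M where
  toFun f := fun p => if p.2.1 then f (p.1, false, p.2.2) else 0
  map_add' f g := by ext ⟨i, j, k⟩; cases j <;> simp
  map_smul' t f := by ext ⟨i, j, k⟩; cases j <;> simp

def Sop : Module.End ℂ M where
  toFun f := fun p => (if p.1 = p.2.1 then 1 else -1) * f (p.1, p.2.1, !p.2.2)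
  map_add' f g := by ext ⟨i, j, k⟩; simp [mul_add]
  map_smul' t f := by ext ⟨i, j, k⟩; simp

lemma XX : Xop * Xop = 0 := by
  refine LinearMap.ext fun f => funext fun ⟨i, j, k⟩ => ?_
  cases i <;> simp [Xop]
lemma YY : Yop * Yop = 0 := by
  refine LinearMap.ext fun f => funext fun ⟨i, j, k⟩ => ?_
  cases j <;> simp [Yop]
lemma SS : Sop * Sop = 1 := by
  refine LinearMap.ext fun f => funext fun ⟨i, j, k⟩ => ?_
  cases i <;> cases j <;> simp [Sop]
lemma SX : Sop * Xop = -(Xop * Sop) := by
  refine LinearMap.ext fun f => funext fun ⟨i, j, k⟩ => ?_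
  cases i <;> cases j <;> simp [Sop, Xop]
lemma SY : Sop * Yop = -(Yop * Sop) := by
  refine LinearMap.ext fun f => funext fun ⟨i, j, k⟩ => ?_
  cases i <;> cases j <;> simp [Sop, Yop]
lemma YX : Yop * Xop = Xop * Yop := by
  refine LinearMap.ext fun f => funext fun ⟨i, j, k⟩ => ?_
  cases i <;> cases j <;> simp [Xop, Yop]

noncomputable def YL : ℂ →ₗ[ℂ] Module.End ℂ M := LinearMap.toSpanSingleton ℂ _ Yop
noncomputable def XL : Dual ℂ ℂ →ₗ[ℂ] Module.End ℂ M :=
  (LinearMap.toSpanSingleton ℂ _ Xop).comp (Dual.eval ℂ ℂ 1)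
open Classical in
noncomputable def gL (w : W) : Module.End ℂ M := if w = 1 then 1 else Sop

@[simp] lemma YL_apply (y : ℂ) : YL y = y • Yop := rfl
@[simp] lemma XL_apply (x : Dual ℂ ℂ) : XL x = x 1 • Xop := rfl
@[simp] lemma gL_one : gL 1 = 1 := by simp [gL]
@[simp] lemma gL_s : gL s = Sop := by simp [gL, s_ne_one]

lemma even_poly {B : Type} [Ring B] [Algebra ℂ B] (Z : B) (hZ : Z * Z = 0) (p : Polynomial ℂ)
    (h1 : ∀ v, p.eval (-v) = p.eval v) (h0 : p.eval 0 = 0) : Polynomial.aeval Z p = 0 := by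
  have h2 : p.comp (-Polynomial.X) = p := by
    apply Polynomial.funext
    intro v
    simp [Polynomial.eval_comp, h1]
  have h3 : p.coeff 1 = 0 := by
    have h4 := congrArg (fun q => (Polynomial.derivative q).eval 0) h2
    simp only [Polynomial.derivative_comp, Polynomial.eval_mul, Polynomial.eval_comp] at h4
    simp at h4
    have h5 : (Polynomial.derivative p).eval 0 = 0 := by linear_combination (-1 / 2 : ℂ) * h4
    rw [← Polynomial.coeff_zero_eq_eval_zero, Polynomial.coeff_derivative] at h5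
    simpa using h5
  have h6 : Polynomial.X ^ 2 ∣ p := by
    rw [Polynomial.X_pow_dvd_iff]
    intro d hd
    interval_cases d
    · rw [Polynomial.coeff_zero_eq_eval_zero, h0]
    · exact h3
  obtain ⟨q, rfl⟩ := h6
  simp [pow_two, hZ]

noncomputable def ψX : FreeAlgebra ℂ (Dual ℂ ℂ) →ₐ[ℂ] Polynomial ℂ :=
  FreeAlgebra.lift ℂ (fun ξ => ξ 1 • Polynomial.X)

noncomputable def ψY : FreeAlgebra ℂ ℂ →ₐ[ℂ] Polynomial ℂ :=
  FreeAlgebra.lift ℂ (fun v => v • Polynomial.X)

lemma evX_eq (v : ℂ) (t : FreeAlgebra ℂ (Dual ℂ ℂ)) : evX v t = (ψX t).eval v := by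
  have : FreeAlgebra.lift ℂ (fun ξ : Dual ℂ ℂ => ξ v) = (Polynomial.aeval v).comp ψX := by
    apply FreeAlgebra.hom_ext
    refine funext fun x => ?_
    have := x.map_smul v 1
    simp at this
    simp [ψX, this, mul_comm]
  rw [evX, this]; simp

lemma evY_eq (ξ : Dual ℂ ℂ) (t : FreeAlgebra ℂ ℂ) : evY ξ t = (ψY t).eval (ξ 1) := by
  have : FreeAlgebra.lift ℂ (fun v : ℂ => ξ v) = (Polynomial.aeval (ξ 1)).comp ψY := by
    apply FreeAlgebra.hom_ext
    refine funext fun x => ?_
    have := ξ.map_smul x 1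
    simp at this
    simp [ψY, this, mul_comm]
  rw [evY, this]; simp

lemma isRep : IsRep (W := W) (fun _ => 0) YL XL gL where
  one := gL_one
  mul w w' := by
    rcases W_cases w with rfl | rfl <;> rcases W_cases w' with rfl | rfl <;>
      simp [s_mul_s, SS]
  wy w y := by
    rcases W_cases w with rfl | rfl
    · simp
    · simp [s, ← gL_s.symm, SY]
      simp [gL, SY, show (⟨neg, Or.inr rfl⟩ : W) ≠ 1 from s_ne_one]
  wx w x := by
    rcases W_cases w with rfl | rfl
    · simp [actDual, one_symm]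
    · rw [gL_s]
      simp [s, SX, actDual]
  xx x x' := by simp [XX]
  yy x x' := by simp [YY]
  yx y x := by simp [YX, smul_smul, mul_comm]
  invX t h1 h0 := by
    have h : FreeAlgebra.lift ℂ (fun x => XL x) = (Polynomial.aeval Xop).comp ψX := by
      apply FreeAlgebra.hom_ext
      refine funext fun x => ?_
      simp [ψX]
    rw [h]
    refine even_poly Xop XX _ (fun v => ?_) ?_
    · have := h1 s v
      rwa [evX_eq, evX_eq] at this
    · rwa [evX_eq] at h0
  invY t h1 h0 := by
    have h : FreeAlgebra.lift ℂ (fun x => YL x) = (Polynomial.aeval Yop).comp ψY := by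
      apply FreeAlgebra.hom_ext
      refine funext fun x => ?_
      simp [ψY]
    rw [h]
    refine even_poly Yop YY _ (fun v => ?_) ?_
    · have := h1 s (v • LinearMap.id)
      rw [evY_eq, evY_eq] at this
      simpa [actDual, s] using this
    · rw [evY_eq] at h0
      simpa using h0

abbrev A : Type := RRCA W (fun _ => 0)

noncomputable def x : A := rx W _ LinearMap.id
noncomputable def y : A := ry W _ 1
noncomputable def g : A := rw' W _ s

lemma rx_eq (ξ : Dual ℂ ℂ) : rx W (fun _ => 0) ξ = ξ 1 • x := by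
  rw [x, ← map_smul]; congr 1; ext; simp
lemma ry_eq (v : ℂ) : ry W (fun _ => 0) v = v • y := by
  rw [y, ← map_smul]; simp

lemma gg : g * g = 1 := by
  rw [g, (isRep_self W _).mul, s_mul_s, (isRep_self W _).one]
lemma gx' : g * x = (-1 : ℂ) • (x * g) := by
  rw [g, x, (isRep_self W _).wx, rx_eq]
  simp [actDual, s, x]
lemma gy' : g * y = (-1 : ℂ) • (y * g) := by
  rw [g, y, (isRep_self W _).wy, ry_eq]
  simp [s, y]
lemma yx' : y * x = x * y := by
  have := (isRep_self W (fun _ => 0)).yx 1 LinearMap.id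
  simpa [sub_eq_zero, x, y] using this
lemma xx' : x * x = 0 := by
  have := (isRep_self W (fun _ => 0)).invX
    (FreeAlgebra.ι ℂ LinearMap.id * FreeAlgebra.ι ℂ LinearMap.id) (by
      intro w v
      rcases W_cases w with rfl | rfl <;> simp [evX, s]) (by simp [evX])
  simpa [x] using this
lemma yy' : y * y = 0 := by
  have := (isRep_self W (fun _ => 0)).invY
    (FreeAlgebra.ι ℂ 1 * FreeAlgebra.ι ℂ 1) (by
      intro w v
      rcases W_cases w with rfl | rfl <;> simp [evY, s, actDual, one_symm]) (by simp [evY])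
  simpa [y] using this

noncomputable def mon (p : Bool × Bool × Bool) : A :=
  (if p.1 then x else 1) * (if p.2.1 then y else 1) * (if p.2.2 then g else 1)

lemma x_mon (p : Bool × Bool × Bool) :
    x * mon p = if p.1 then 0 else mon (true, p.2.1, p.2.2) := by
  obtain ⟨i, j, k⟩ := p
  cases i <;> simp [mon, ← mul_assoc, xx']

lemma y_mon (p : Bool × Bool × Bool) :
    y * mon p = if p.2.1 then 0 else mon (p.1, true, p.2.2) := by
  obtain ⟨i, j, k⟩ := p
  cases i <;> cases j <;> simp [mon, ← mul_assoc, yx', yy']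
  simp [mul_assoc, ← mul_assoc y y, yy']

lemma g_mon (p : Bool × Bool × Bool) :
    g * mon p = (if p.1 = p.2.1 then (1 : ℂ) else -1) • mon (p.1, p.2.1, !p.2.2) := by
  obtain ⟨i, j, k⟩ := p
  have h1 : ∀ z : A, g * (x * z) = (-1 : ℂ) • (x * (g * z)) := by
    intro z; rw [← mul_assoc, gx', smul_mul_assoc, mul_assoc]
  have h2 : ∀ z : A, g * (y * z) = (-1 : ℂ) • (y * (g * z)) := by
    intro z; rw [← mul_assoc, gy', smul_mul_assoc, mul_assoc]
  cases i <;> cases j <;> cases k <;>
    simp [-neg_smul, mon, mul_assoc, gx', gy', gg, h1, h2, smul_smul]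

lemma span_mon : ⊤ ≤ Submodule.span ℂ (Set.range mon) := by
  intro a _
  have key : ∀ z : A, (∀ p, z * mon p ∈ Submodule.span ℂ (Set.range mon)) →
      ∀ u ∈ Submodule.span ℂ (Set.range mon), z • u ∈ Submodule.span ℂ (Set.range mon) := by
    intro z hz u hu
    induction hu using Submodule.span_induction with
    | mem v hv => obtain ⟨p, rfl⟩ := hv; exact hz p
    | zero => simp
    | add u v _ _ hu hv => rw [smul_add]; exact Submodule.add_mem _ hu hv
    | smul t v _ hv => rw [smul_comm]; exact Submodule.smul_mem _ _ hv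
  have hm : ∀ p, mon p ∈ Submodule.span ℂ (Set.range mon) :=
    fun p => Submodule.subset_span ⟨p, rfl⟩
  have h := stable_of_gens (W := W) (c := fun _ => 0) (M := A)
    (Submodule.span ℂ (Set.range mon))
    (fun v => key _ fun p => by
      rw [ry_eq, smul_mul_assoc, y_mon]
      refine Submodule.smul_mem _ _ ?_
      split_ifs
      · simp
      · exact hm _)
    (fun v => key _ fun p => by
      rw [rx_eq, smul_mul_assoc, x_mon]
      refine Submodule.smul_mem _ _ ?_
      split_ifs
      · simp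
      · exact hm _)
    (fun w => key _ fun p => by
      rcases W_cases w with rfl | rfl
      · rw [(isRep_self W _).one, one_mul]; exact hm _
      · change g * mon p ∈ _
        rw [g_mon]; exact Submodule.smul_mem _ _ (hm _)) a 1
    (by simpa [mon] using hm (false, false, false))
  simpa using h

noncomputable def ev : A →ₗ[ℂ] M :=
  (LinearMap.applyₗ (Pi.single (false, false, false) 1 : M)).comp isRep.lift.toLinearMap

lemma ev_mon (p : Bool × Bool × Bool) : ev (mon p) = Pi.single p 1 := by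
  have hx : isRep.lift x = Xop := by simp [x]
  have hy : isRep.lift y = Yop := by simp [y]
  have hg : isRep.lift g = Sop := by simp [g]
  obtain ⟨i, j, k⟩ := p
  funext ⟨i', j', k'⟩
  cases i <;> cases j <;> cases k <;> cases i' <;> cases j' <;> cases k' <;>
    simp [ev, mon, hx, hy, hg, Xop, Yop, Sop]

lemma li_mon : LinearIndependent ℂ mon := by
  apply LinearIndependent.of_comp ev
  have : ev ∘ mon = Pi.basisFun ℂ (Bool × Bool × Bool) := by
    funext p; simp [ev_mon]
  rw [this]; exact (Pi.basisFun ℂ _).linearIndependent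

noncomputable def bas : Basis (Bool × Bool × Bool) ℂ A := Basis.mk li_mon span_mon

lemma bas_apply (p : Bool × Bool × Bool) : bas p = mon p := by simp [bas]

noncomputable def hom : A →ₗ[ℂ] A :=
  bas.constr ℂ fun p => if p.1 then mon (false, p.2.1, p.2.2) else 0

lemma homotopy : (LinearMap.mulLeft ℂ x).comp hom + hom.comp (LinearMap.mulLeft ℂ x) =
    LinearMap.id := by
  have h : ∀ p, hom (mon p) = if p.1 then mon (false, p.2.1, p.2.2) else 0 := by
    intro p; rw [← bas_apply, hom, Basis.constr_basis]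
  refine bas.ext fun ⟨i, j, k⟩ => ?_
  cases i <;> simp [bas_apply, h, x_mon]

lemma trace_zero (b : A) :
    LinearMap.trace ℂ A ((LinearMap.mulRight ℂ b).comp (LinearMap.mulLeft ℂ g)) = 0 := by
  have : Module.Finite ℂ A := Module.Finite.of_basis bas
  set φ := (LinearMap.mulRight ℂ b).comp (LinearMap.mulLeft ℂ g) with hφ
  have h1 : φ.comp (LinearMap.mulLeft ℂ x) = (-1 : ℂ) • (LinearMap.mulLeft ℂ x).comp φ := by
    refine LinearMap.ext fun a => ?_
    simp [-neg_smul, hφ, ← mul_assoc, gx']
  have h2 : φ = φ.comp ((LinearMap.mulLeft ℂ x).comp hom + hom.comp (LinearMap.mulLeft ℂ x)) := by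
    rw [homotopy]; rfl
  clear_value φ
  have h3 := LinearMap.trace_comp_comm' (LinearMap.mulLeft ℂ x) (φ.comp hom)
  rw [h2, LinearMap.comp_add, map_add, ← LinearMap.comp_assoc, h1, ← LinearMap.comp_assoc,
    h3, LinearMap.smul_comp, map_smul, LinearMap.comp_assoc]
  simp

lemma mat_zero {m : Type} [Fintype m] [DecidableEq m] (Z : Matrix m m ℂ)
    (h : ∀ B, Z * B * Z = 0) : Z = 0 := by
  ext i j
  have := congrFun (congrFun (h (Matrix.single j i 1)) i) j
  simpa [Matrix.mul_apply, Matrix.single_apply, ite_and] using this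

theorem not_cell : ¬ IsCellular A := by
  have : Nontrivial A := ⟨⟨bas (false, false, false), 0, bas.ne_zero _⟩⟩
  refine not_cellular g gg trace_zero ?_
  intro m _ _ _ ρ h1 hm hs
  have lin : ∀ (P : A → Prop), (∀ p, P (mon p)) → P 0 → (∀ a b, P a → P b → P (a + b)) →
      (∀ (t : ℂ) a, P a → P (t • a)) → ∀ a, P a := by
    intro P hp h0 ha hsm a
    have hu := span_mon (Submodule.mem_top (x := a))
    induction hu using Submodule.span_induction with
    | mem v hv => obtain ⟨p, rfl⟩ := hv; exact hp p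
    | zero => exact h0
    | add u v _ _ hu hv => exact ha _ _ hu hv
    | smul t v _ hv => exact hsm _ _ hv
  have hx : ρ x = 0 := by
    apply mat_zero
    intro B
    obtain ⟨b, rfl⟩ := hs B
    rw [← hm, ← hm]
    have : x * b * x = 0 := by
      refine lin (fun b => x * b * x = 0) ?_ (by simp) ?_ ?_ b
      · rintro ⟨i, j, k⟩
        cases i <;> cases j <;> cases k <;>
          simp [-neg_smul, mon, mul_assoc, gx', yx', ← mul_assoc x x, ← mul_assoc y x, xx']
      · intro a b ha hb; simp [mul_add, add_mul, ha, hb]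
      · intro t a ha; simp [ha]
    rw [this, map_zero]
  have hy : ρ y = 0 := by
    apply mat_zero
    intro B
    obtain ⟨b, rfl⟩ := hs B
    rw [← hm, ← hm]
    have : y * b * y = 0 := by
      refine lin (fun b => y * b * y = 0) ?_ (by simp) ?_ ?_ b
      · rintro ⟨i, j, k⟩
        cases i <;> cases j <;> cases k <;>
          simp [-neg_smul, mon, mul_assoc, gy', yx', ← mul_assoc y y, ← mul_assoc y x, yy']
      · intro a b ha hb; simp [mul_add, add_mul, ha, hb]
      · intro t a ha; simp [ha]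
    rw [this, map_zero]
  have hcomm : ∀ B, ρ g * B = B * ρ g := by
    intro B
    obtain ⟨b, rfl⟩ := hs B
    refine lin (fun b => ρ g * ρ b = ρ b * ρ g) ?_ (by simp) ?_ ?_ b
    · rintro ⟨i, j, k⟩
      cases i <;> cases j <;> cases k <;> simp [mon, hm, hx, hy, h1]
    · intro a b ha hb; simp [mul_add, add_mul, ha, hb]
    · intro t a ha; simp [ha]
  obtain ⟨t, ht⟩ := Matrix.mem_range_scalar_of_commute_single (M := ρ g)
    (fun i j _ => (hcomm _).symm)
  have h2 : ρ g * ρ g = 1 := by rw [← hm, gg, h1]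
  rw [← ht] at h2 ⊢
  have ht0 : t ≠ 0 := by
    rintro rfl
    simp at h2
  simp [Matrix.trace, ht0]

end Pool.Agent.H150Z.Cher.A1
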