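import Pool.Agent.H150Z.Cher.Defs

set_option autoImplicit false

namespace Pool.Agent.H150Z.Cher

open Module

variable {V : Type} [AddCommGroup V] [Module ℂ V]
variable {W : Subgroup (V ≃ₗ[ℂ] V)} {c : W → ℂ}

section lift
variable {B : Type} [Ring B] [Algebra ℂ B]

noncomputable def freeLift (Y : V →ₗ[ℂ] B) (X : Dual ℂ V →ₗ[ℂ] B) (g : W → B) :
    Free W →ₐ[ℂ] B :=
  FreeAlgebra.lift ℂ (fun z => match z with
    | Gen.y v => Y v
    | Gen.x ξ => X ξ
    | Gen.w w => g w)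

@[simp] lemma freeLift_gy (Y : V →ₗ[ℂ] B) (X : Dual ℂ V →ₗ[ℂ] B) (g : W → B) (y : V) :
    freeLift Y X g (gy W y) = Y y := by
  simp [freeLift, gy]

@[simp] lemma freeLift_gx (Y : V →ₗ[ℂ] B) (X : Dual ℂ V →ₗ[ℂ] B) (g : W → B) (x : Dual ℂ V) :
    freeLift Y X g (gx W x) = X x := by
  simp [freeLift, gx]

@[simp] lemma freeLift_gw (Y : V →ₗ[ℂ] B) (X : Dual ℂ V →ₗ[ℂ] B) (g : W → B) (w : W) :
    freeLift Y X g (gw W w) = g w := by
  simp [freeLift, gw]

lemma freeLift_liftX (Y : V →ₗ[ℂ] B) (X : Dual ℂ V →ₗ[ℂ] B) (g : W → B)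
    (t : FreeAlgebra ℂ (Dual ℂ V)) :
    freeLift Y X g (FreeAlgebra.lift ℂ (gx W) t) = FreeAlgebra.lift ℂ (fun x => X x) t := by
  have : (freeLift Y X g).comp (FreeAlgebra.lift ℂ (gx W)) = FreeAlgebra.lift ℂ (fun x => X x) := by
    ext x
    simp
  exact DFunLike.congr_fun this t

lemma freeLift_liftY (Y : V →ₗ[ℂ] B) (X : Dual ℂ V →ₗ[ℂ] B) (g : W → B)
    (t : FreeAlgebra ℂ V) :
    freeLift Y X g (FreeAlgebra.lift ℂ (gy W) t) = FreeAlgebra.lift ℂ (fun y => Y y) t := by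
  have : (freeLift Y X g).comp (FreeAlgebra.lift ℂ (gy W)) = FreeAlgebra.lift ℂ (fun y => Y y) := by
    ext x
    simp
  exact DFunLike.congr_fun this t

/-- the data of a representation of the restricted algebra -/
structure IsRep (c : W → ℂ) (Y : V →ₗ[ℂ] B) (X : Dual ℂ V →ₗ[ℂ] B) (g : W → B) : Prop where
  one : g 1 = 1
  mul : ∀ w w', g w * g w' = g (w * w')
  wy : ∀ (w : W) y, g w * Y y = Y ((w : V ≃ₗ[ℂ] V) y) * g w
  wx : ∀ (w : W) x, g w * X x = X (actDual (w : V ≃ₗ[ℂ] V) x) * g w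
  xx : ∀ x x', X x * X x' = X x' * X x
  yy : ∀ y y', Y y * Y y' = Y y' * Y y
  yx : ∀ y x, Y y * X x - X x * Y y = -∑ᶠ s ∈ {s : W | IsRefl (s : V ≃ₗ[ℂ] V)},
        (c s * (x y - actDual (s : V ≃ₗ[ℂ] V) x y)) • g s
  invX : ∀ t : FreeAlgebra ℂ (Dual ℂ V),
      (∀ (w : W) (v : V), evX ((w : V ≃ₗ[ℂ] V) v) t = evX v t) → evX (0 : V) t = 0 →
      FreeAlgebra.lift ℂ (fun x => X x) t = 0
  invY : ∀ t : FreeAlgebra ℂ V,
      (∀ (w : W) (ξ : Dual ℂ V), evY (actDual (w : V ≃ₗ[ℂ] V) ξ) t = evY ξ t) →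
      evY (0 : Dual ℂ V) t = 0 → FreeAlgebra.lift ℂ (fun y => Y y) t = 0

lemma map_finsum_refl [Finite W] {B' : Type} [Ring B'] [Algebra ℂ B'] (φ : B →ₐ[ℂ] B')
    (f : W → ℂ) (g : W → B) (P : Set W) :
    φ (∑ᶠ s ∈ P, f s • g s) = ∑ᶠ s ∈ P, f s • φ (g s) := by
  have h := (Set.toFinite P)
  rw [finsum_mem_eq_finite_toFinset_sum _ h, finsum_mem_eq_finite_toFinset_sum _ h, map_sum]
  simp

noncomputable def IsRep.lift [Finite W] {Y : V →ₗ[ℂ] B} {X : Dual ℂ V →ₗ[ℂ] B} {g : W → B}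
    (h : IsRep c Y X g) : RRCA W c →ₐ[ℂ] B :=
  RingQuot.liftAlgHom ℂ ⟨freeLift Y X g, by
    intro a b hab
    cases hab with
    | yadd y y' => simp
    | ysmul a y => simp
    | xadd y y' => simp
    | xsmul a y => simp
    | one => simp [h.one]
    | mul w w' => simp [h.mul]
    | wy w y => simp [h.wy]
    | wx w x => simp [h.wx]
    | xx x x' => simpa using h.xx x x'
    | yy y y' => simpa using h.yy y y'
    | yx y x =>
        rw [commRHS, map_neg, map_finsum_refl]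
        simpa using h.yx y x
    | invX t h1 h0 => rw [freeLift_liftX, h.invX t h1 h0, map_zero]
    | invY t h1 h0 => rw [freeLift_liftY, h.invY t h1 h0, map_zero]⟩

end lift

variable (W c)

/-- the image of `y ∈ V` in the restricted algebra -/
noncomputable def ry : V →ₗ[ℂ] RRCA W c where
  toFun y := RingQuot.mkAlgHom ℂ (Rel W c) (gy W y)
  map_add' y y' := by
    simpa using RingQuot.mkAlgHom_rel ℂ (Rel.yadd (W := W) (c := c) y y')
  map_smul' a y := by
    simpa using RingQuot.mkAlgHom_rel ℂ (Rel.ysmul (W := W) (c := c) a y)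

noncomputable def rx : Dual ℂ V →ₗ[ℂ] RRCA W c where
  toFun y := RingQuot.mkAlgHom ℂ (Rel W c) (gx W y)
  map_add' y y' := by
    simpa using RingQuot.mkAlgHom_rel ℂ (Rel.xadd (W := W) (c := c) y y')
  map_smul' a y := by
    simpa using RingQuot.mkAlgHom_rel ℂ (Rel.xsmul (W := W) (c := c) a y)

noncomputable def rw' (w : W) : RRCA W c := RingQuot.mkAlgHom ℂ (Rel W c) (gw W w)

lemma ry_def (y : V) : ry W c y = RingQuot.mkAlgHom ℂ (Rel W c) (gy W y) := rfl
lemma rx_def (x : Dual ℂ V) : rx W c x = RingQuot.mkAlgHom ℂ (Rel W c) (gx W x) := rfl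
lemma rw_def (w : W) : rw' W c w = RingQuot.mkAlgHom ℂ (Rel W c) (gw W w) := rfl

lemma isRep_self [Finite W] : IsRep c (ry W c) (rx W c) (rw' W c) where
  one := by
    have := RingQuot.mkAlgHom_rel ℂ (Rel.one (W := W) (c := c))
    simpa [rw_def] using this
  mul w w' := by
    have := RingQuot.mkAlgHom_rel ℂ (Rel.mul (W := W) (c := c) w w')
    simpa [rw_def] using this
  wy w y := by
    have := RingQuot.mkAlgHom_rel ℂ (Rel.wy (W := W) (c := c) w y)
    simpa [rw_def, ry_def] using this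
  wx w x := by
    have := RingQuot.mkAlgHom_rel ℂ (Rel.wx (W := W) (c := c) w x)
    simpa [rw_def, rx_def] using this
  xx x x' := by
    have := RingQuot.mkAlgHom_rel ℂ (Rel.xx (W := W) (c := c) x x')
    simpa [rx_def] using this
  yy x x' := by
    have := RingQuot.mkAlgHom_rel ℂ (Rel.yy (W := W) (c := c) x x')
    simpa [ry_def] using this
  yx y x := by
    have := RingQuot.mkAlgHom_rel ℂ (Rel.yx (W := W) (c := c) y x)
    rw [commRHS, map_neg, map_finsum_refl] at this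
    simpa [rx_def, ry_def, rw_def] using this
  invX t h1 h0 := by
    have := RingQuot.mkAlgHom_rel ℂ (Rel.invX (W := W) (c := c) t h1 h0)
    rw [map_zero] at this
    rw [← this]
    have h : FreeAlgebra.lift ℂ (fun x => rx W c x) =
        (RingQuot.mkAlgHom ℂ (Rel W c)).comp (FreeAlgebra.lift ℂ (gx W)) := by
      ext x
      simp [rx_def]
    rw [h]; rfl
  invY t h1 h0 := by
    have := RingQuot.mkAlgHom_rel ℂ (Rel.invY (W := W) (c := c) t h1 h0)
    rw [map_zero] at this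
    rw [← this]
    have h : FreeAlgebra.lift ℂ (fun y => ry W c y) =
        (RingQuot.mkAlgHom ℂ (Rel W c)).comp (FreeAlgebra.lift ℂ (gy W)) := by
      ext x
      simp [ry_def]
    rw [h]; rfl

variable {W c}

section lift
variable {B : Type} [Ring B] [Algebra ℂ B] [Finite W]
  {Y : V →ₗ[ℂ] B} {X : Dual ℂ V →ₗ[ℂ] B} {g : W → B}

@[simp] lemma IsRep.lift_ry (h : IsRep c Y X g) (y : V) : h.lift (ry W c y) = Y y := by
  rw [ry_def, IsRep.lift, RingQuot.liftAlgHom_mkAlgHom_apply]; simp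

@[simp] lemma IsRep.lift_rx (h : IsRep c Y X g) (x : Dual ℂ V) : h.lift (rx W c x) = X x := by
  rw [rx_def, IsRep.lift, RingQuot.liftAlgHom_mkAlgHom_apply]; simp

@[simp] lemma IsRep.lift_rw (h : IsRep c Y X g) (w : W) : h.lift (rw' W c w) = g w := by
  rw [rw_def, IsRep.lift, RingQuot.liftAlgHom_mkAlgHom_apply]; simp

end lift

/-- induction principle -/
lemma RRCA_induction (p : RRCA W c → Prop) (halg : ∀ r : ℂ, p (algebraMap ℂ _ r))
    (hy : ∀ y, p (ry W c y)) (hx : ∀ x, p (rx W c x)) (hw : ∀ w, p (rw' W c w))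
    (hadd : ∀ a b, p a → p b → p (a + b)) (hmul : ∀ a b, p a → p b → p (a * b)) :
    ∀ a, p a := by
  intro a
  obtain ⟨t, rfl⟩ := RingQuot.mkAlgHom_surjective ℂ (Rel W c) a
  induction t using FreeAlgebra.induction with
  | grade0 r => simpa using halg r
  | grade1 z =>
    cases z with
    | y v => exact hy v
    | x ξ => exact hx ξ
    | w w => exact hw w
  | mul a b ha hb => rw [map_mul]; exact hmul _ _ ha hb
  | add a b ha hb => rw [map_add]; exact hadd _ _ ha hb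

/-- a subspace stable under the generators is stable under the algebra -/
lemma stable_of_gens {M : Type} [AddCommGroup M] [Module ℂ M] [Module (RRCA W c) M]
    [IsScalarTower ℂ (RRCA W c) M] (U : Submodule ℂ M)
    (hy : ∀ y, ∀ u ∈ U, ry W c y • u ∈ U) (hx : ∀ x, ∀ u ∈ U, rx W c x • u ∈ U)
    (hw : ∀ w, ∀ u ∈ U, rw' W c w • u ∈ U) (a : RRCA W c) : ∀ u ∈ U, a • u ∈ U := by
  induction a using RRCA_induction with
  | halg r => intro u hu; rw [algebraMap_smul]; exact U.smul_mem r hu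
  | hy y => exact hy y
  | hx x => exact hx x
  | hw w => exact hw w
  | hadd a b ha hb => intro u hu; rw [add_smul]; exact U.add_mem (ha u hu) (hb u hu)
  | hmul a b ha hb => intro u hu; rw [mul_smul]; exact ha _ (hb u hu)

end Pool.Agent.H150Z.Cher
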