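import Mathlib

/-!
Restricted rational Cherednik algebras at `t = 0` (by generators and relations) and cellular
algebras in the sense of Graham and Lehrer.
-/

set_option autoImplicit false

namespace Pool.Agent.H150Z.Cher

open Module

section Cherednik

variable {V : Type} [AddCommGroup V] [Module ℂ V]

/-- `s` is a (complex) reflection: `s - 1` has rank one. -/
def IsRefl (s : V ≃ₗ[ℂ] V) : Prop :=
  finrank ℂ (LinearMap.range ((s : V →ₗ[ℂ] V) - LinearMap.id)) = 1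

/-- `W` is a finite complex reflection group: a finite subgroup of `GL(V)` generated by the
reflections it contains. -/
def IsComplexReflGroup (W : Subgroup (V ≃ₗ[ℂ] V)) : Prop :=
  Finite W ∧ Subgroup.closure {s : V ≃ₗ[ℂ] V | s ∈ W ∧ IsRefl s} = W

/-- `W` is a finite real reflection group (finite Coxeter group in its complexified reflection
representation): a finite complex reflection group all of whose matrices are real in some basis. -/
def IsRealReflGroup (W : Subgroup (V ≃ₗ[ℂ] V)) : Prop :=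
  IsComplexReflGroup W ∧ ∃ (n : ℕ) (b : Basis (Fin n) ℂ V),
    ∀ w ∈ W, ∀ i j, (LinearMap.toMatrix b b (w : V →ₗ[ℂ] V) i j).im = 0

/-- A parameter is a function on `W` constant on conjugacy classes (only its values on reflections
are used). -/
def IsParam (W : Subgroup (V ≃ₗ[ℂ] V)) (c : W → ℂ) : Prop :=
  ∀ g s : W, c (g * s * g⁻¹) = c s

/-- The generators: vectors `y ∈ V`, linear forms `x ∈ V^*` and group elements `w ∈ W`. -/
inductive Gen (W : Subgroup (V ≃ₗ[ℂ] V)) : Type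
  | y (v : V) : Gen W
  | x (ξ : Dual ℂ V) : Gen W
  | w (g : W) : Gen W

/-- The free algebra on these generators. -/
abbrev Free (W : Subgroup (V ≃ₗ[ℂ] V)) : Type := FreeAlgebra ℂ (Gen W)

/-- the generator `y ∈ V` -/
def gy (W : Subgroup (V ≃ₗ[ℂ] V)) (v : V) : Free W := FreeAlgebra.ι ℂ (Gen.y v)

/-- the generator `x ∈ V^*` -/
def gx (W : Subgroup (V ≃ₗ[ℂ] V)) (ξ : Dual ℂ V) : Free W := FreeAlgebra.ι ℂ (Gen.x ξ)

/-- the generator `w ∈ W` -/
def gw (W : Subgroup (V ≃ₗ[ℂ] V)) (g : W) : Free W := FreeAlgebra.ι ℂ (Gen.w g)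

/-- the contragredient action `w(x) = x ∘ w⁻¹` on `V^*` -/
def actDual (w : V ≃ₗ[ℂ] V) (x : Dual ℂ V) : Dual ℂ V := x.comp (w.symm : V →ₗ[ℂ] V)

/-- The value at the point `v ∈ V` of the polynomial function on `V` given by a noncommutative
polynomial `t` in elements of `V^*`. -/
noncomputable def evX (v : V) (t : FreeAlgebra ℂ (Dual ℂ V)) : ℂ :=
  FreeAlgebra.lift ℂ (fun ξ : Dual ℂ V => ξ v) t

/-- The value at the point `ξ ∈ V^*` of the polynomial function on `V^*` given by a noncommutative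
polynomial `t` in elements of `V`. -/
noncomputable def evY (ξ : Dual ℂ V) (t : FreeAlgebra ℂ V) : ℂ :=
  FreeAlgebra.lift ℂ (fun v : V => ξ v) t

/-- The right hand side `-∑_s c(s) ⟨α_s, y⟩⟨x, α_s^∨⟩ s` of the commutation relation, the sum being
over the reflections `s` in `W`; here `⟨α_s, y⟩⟨x, α_s^∨⟩ = (x - s(x))(y)` by the normalisation
`s(x) = x - ⟨x, α_s^∨⟩ α_s`. -/
noncomputable def commRHS (W : Subgroup (V ≃ₗ[ℂ] V)) (c : W → ℂ) (y : V) (x : Dual ℂ V) :
    Free W :=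
  -∑ᶠ s ∈ {s : W | IsRefl (s : V ≃ₗ[ℂ] V)}, (c s * (x y - actDual (s : V ≃ₗ[ℂ] V) x y)) • gw W s

/-- The defining relations of the restricted rational Cherednik algebra.  The first eight present
`T(V ⊕ V^*) ⋊ ℂ W`; the next three are the relations of `H_c` at `t = 0`; the last two kill the
`W`-invariant polynomials without constant term in `ℂ[V]` and in `ℂ[V^*]`. -/
inductive Rel (W : Subgroup (V ≃ₗ[ℂ] V)) (c : W → ℂ) : Free W → Free W → Prop
  | yadd (y y' : V) : Rel W c (gy W (y + y')) (gy W y + gy W y')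
  | ysmul (a : ℂ) (y : V) : Rel W c (gy W (a • y)) (a • gy W y)
  | xadd (x x' : Dual ℂ V) : Rel W c (gx W (x + x')) (gx W x + gx W x')
  | xsmul (a : ℂ) (x : Dual ℂ V) : Rel W c (gx W (a • x)) (a • gx W x)
  | one : Rel W c (gw W 1) 1
  | mul (w w' : W) : Rel W c (gw W w * gw W w') (gw W (w * w'))
  | wy (w : W) (y : V) : Rel W c (gw W w * gy W y) (gy W ((w : V ≃ₗ[ℂ] V) y) * gw W w)
  | wx (w : W) (x : Dual ℂ V) :
      Rel W c (gw W w * gx W x) (gx W (actDual (w : V ≃ₗ[ℂ] V) x) * gw W w)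
  | xx (x x' : Dual ℂ V) : Rel W c (gx W x * gx W x') (gx W x' * gx W x)
  | yy (y y' : V) : Rel W c (gy W y * gy W y') (gy W y' * gy W y)
  | yx (y : V) (x : Dual ℂ V) :
      Rel W c (gy W y * gx W x - gx W x * gy W y) (commRHS W c y x)
  | invX (t : FreeAlgebra ℂ (Dual ℂ V))
      (hinv : ∀ (w : W) (v : V), evX ((w : V ≃ₗ[ℂ] V) v) t = evX v t) (h0 : evX (0 : V) t = 0) :
      Rel W c (FreeAlgebra.lift ℂ (gx W) t) 0
  | invY (t : FreeAlgebra ℂ V)
      (hinv : ∀ (w : W) (ξ : Dual ℂ V), evY (actDual (w : V ≃ₗ[ℂ] V) ξ) t = evY ξ t)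
      (h0 : evY (0 : Dual ℂ V) t = 0) :
      Rel W c (FreeAlgebra.lift ℂ (gy W) t) 0

/-- The restricted rational Cherednik algebra of `W ⊂ GL(V)` at `t = 0` and parameter `c`. -/
abbrev RRCA (W : Subgroup (V ≃ₗ[ℂ] V)) (c : W → ℂ) : Type := RingQuot (Rel W c)

end Cherednik

/-- `A` is a cellular `ℂ`-algebra in the sense of Graham and Lehrer. -/
def IsCellular (A : Type) [Ring A] [Algebra ℂ A] : Prop :=
  ∃ (Λ : Type) (_ : Fintype Λ) (_ : PartialOrder Λ) (M : Λ → Type) (_ : ∀ l, Fintype (M l))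
    (C : Basis (Σ l : Λ, M l × M l) ℂ A) (σ : A →ₗ[ℂ] A),
    (∀ a, σ (σ a) = a) ∧ (∀ a b, σ (a * b) = σ b * σ a) ∧
    (∀ (l : Λ) (S T : M l), σ (C ⟨l, S, T⟩) = C ⟨l, T, S⟩) ∧
    ∀ (a : A) (l : Λ), ∃ r : M l → M l → ℂ, ∀ S T : M l,
      a * C ⟨l, S, T⟩ - ∑ S' : M l, r S' S • C ⟨l, S', T⟩ ∈
        Submodule.span ℂ {z : A | ∃ (m : Λ) (U U' : M m), m < l ∧ z = C ⟨m, U, U'⟩}

end Pool.Agent.H150Z.Cher
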