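import Pool.Agent.H150Z.Cher.PDefs

/-!
Identification of the head of a baby Verma module with an explicit simple graded module.
-/

set_option autoImplicit false
set_option linter.unusedSectionVars false

namespace Pool.Agent.H150Z.Cher

open Module TensorProduct

lemma top_of_nilpotent {D : Type} [AddCommGroup D] [Module ℂ D] (T : Module.End ℂ D)
    (hT : IsNilpotent T) (Q : Submodule ℂ D) (hQ : ∀ d ∈ Q, T d ∈ Q)
    (h : Q ⊔ LinearMap.range T = ⊤) : Q = ⊤ := by
  obtain ⟨n, hn⟩ := hT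
  have key : ∀ k : ℕ, ∀ d : D, ∃ q ∈ Q, ∃ e, d = q + (T ^ k) e := by
    intro k
    induction k with
    | zero => intro d; exact ⟨0, Q.zero_mem, d, by simp⟩
    | succ k ih =>
      intro d
      have hd : d ∈ Q ⊔ LinearMap.range T := by rw [h]; trivial
      obtain ⟨q, hq, z, ⟨e, rfl⟩, rfl⟩ := Submodule.mem_sup.1 hd
      obtain ⟨q', hq', e', rfl⟩ := ih e
      refine ⟨q + T q', Q.add_mem hq (hQ _ hq'), e', ?_⟩
      rw [map_add, pow_succ', Module.End.mul_apply, add_assoc]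
  rw [eq_top_iff]
  intro d _
  obtain ⟨q, hq, e, rfl⟩ := key n d
  simpa [hn] using hq

lemma top_of_nilpotent_family {D : Type} [AddCommGroup D] [Module ℂ D] {ι : Type}
    [DecidableEq ι] (T : ι → Module.End ℂ D) (hT : ∀ i, IsNilpotent (T i))
    (hc : ∀ i j, T i * T j = T j * T i) (s : Finset ι) (Q : Submodule ℂ D)
    (hQ : ∀ i, ∀ d ∈ Q, T i d ∈ Q)
    (h : Q ⊔ ⨆ i ∈ s, LinearMap.range (T i) = ⊤) : Q = ⊤ := by
  induction s using Finset.induction_on with
  | empty => simpa using h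
  | insert a s ha ih =>
    apply ih
    apply top_of_nilpotent (T a) (hT a)
    · intro d hd
      obtain ⟨q, hq, z, hz, rfl⟩ := Submodule.mem_sup.1 hd
      rw [map_add]
      refine Submodule.add_mem _ (Submodule.mem_sup_left (hQ a q hq)) (Submodule.mem_sup_right ?_)
      have : (⨆ i ∈ s, LinearMap.range (T i)) ≤ (⨆ i ∈ s, LinearMap.range (T i)).comap (T a) := by
        refine iSup₂_le fun i hi => ?_
        rintro _ ⟨e, rfl⟩
        refine Submodule.mem_comap.2 ?_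
        have h1 : T a (T i e) = T i (T a e) := by
          rw [← Module.End.mul_apply, hc, Module.End.mul_apply]
        rw [h1]
        exact (le_iSup₂ (f := fun i (_ : i ∈ s) => LinearMap.range (T i)) i hi) ⟨_, rfl⟩
      exact this hz
    · rw [Finset.iSup_insert] at h
      rw [← h]; ac_rfl

variable {V : Type} [AddCommGroup V] [Module ℂ V]
variable {W : Subgroup (V ≃ₗ[ℂ] V)} {H : Type} [Ring H] [Algebra ℂ H] (γ : Gen W → H)
  {E : Type} [AddCommGroup E] [Module ℂ E] (ρ : Representation ℂ W E)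
  {M : Type} [AddCommGroup M] [Module ℂ M] [Module H M] [IsScalarTower ℂ H M]

/-- the class of `a ⊗ v` in the Verma module -/
noncomputable def vmk (a : H) (v : E) : Verma γ ρ := Submodule.Quotient.mk (a ⊗ₜ[ℂ] v)

lemma smul_vmk (b a : H) (v : E) : b • vmk γ ρ a v = vmk γ ρ (b * a) v := by
  rw [vmk, vmk, ← Submodule.Quotient.mk_smul, TensorProduct.smul_tmul', smul_eq_mul]

lemma y_vmk (y : V) (v : E) : γ (Gen.y y) • vmk γ ρ 1 v = 0 := by
  rw [smul_vmk, mul_one, vmk, Submodule.Quotient.mk_eq_zero]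
  exact Submodule.subset_span (Or.inl ⟨y, v, rfl⟩)

lemma w_vmk (g : W) (v : E) : γ (Gen.w g) • vmk γ ρ 1 v = vmk γ ρ 1 (ρ g v) := by
  rw [smul_vmk, mul_one, vmk, vmk, Submodule.Quotient.eq]
  exact Submodule.subset_span (Or.inr ⟨g, v, rfl⟩)

/-- `v ↦ 1 ⊗ v` -/
noncomputable def vin : E →ₗ[ℂ] Verma γ ρ :=
  ((vermaRel γ ρ).mkQ.restrictScalars ℂ).comp (TensorProduct.mk ℂ H E 1)

lemma vin_apply (v : E) : vin γ ρ v = vmk γ ρ 1 v := rfl

noncomputable def tlift (ι : E →ₗ[ℂ] M) : H ⊗[ℂ] E →ₗ[H] M :=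
  TensorProduct.AlgebraTensorModule.lift (LinearMap.toSpanSingleton H (E →ₗ[ℂ] M) ι)

lemma tlift_tmul (ι : E →ₗ[ℂ] M) (a : H) (v : E) : tlift ι (a ⊗ₜ[ℂ] v) = a • ι v := by
  simp [tlift]

noncomputable def vlift (ι : E →ₗ[ℂ] M) (hy : ∀ y v, γ (Gen.y y) • ι v = 0)
    (hw : ∀ g v, γ (Gen.w g) • ι v = ι (ρ g v)) : Verma γ ρ →ₗ[H] M :=
  (vermaRel γ ρ).liftQ (tlift ι) (by
    rw [vermaRel, Submodule.span_le]
    rintro z (⟨y, v, rfl⟩ | ⟨g, v, rfl⟩)
    · simp [tlift_tmul, hy]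
    · simp [tlift_tmul, hw])

lemma vlift_vmk (ι : E →ₗ[ℂ] M) (hy : ∀ y v, γ (Gen.y y) • ι v = 0)
    (hw : ∀ g v, γ (Gen.w g) • ι v = ι (ρ g v)) (a : H) (v : E) :
    vlift γ ρ ι hy hw (vmk γ ρ a v) = a • ι v := by
  rw [vmk, vlift, Submodule.liftQ_apply, tlift_tmul]

lemma verma_sup {n : ℕ} (ξ : Fin n → Dual ℂ V)
    (hind : ∀ p : H → Prop, (∀ r : ℂ, p (algebraMap ℂ H r)) → (∀ z, p (γ z)) →
      (∀ a b, p a → p b → p (a + b)) → (∀ a b, p a → p b → p (a * b)) → ∀ a, p a)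
    (hwx : ∀ (g : W) x, ∃ x', γ (Gen.w g) * γ (Gen.x x) = γ (Gen.x x') * γ (Gen.w g))
    (hyx : ∀ y x, γ (Gen.y y) * γ (Gen.x x) - γ (Gen.x x) * γ (Gen.y y) ∈
      Submodule.span ℂ (Set.range fun g : W => γ (Gen.w g)))
    (hx : ∀ x, γ (Gen.x x) ∈ Submodule.span ℂ (Set.range fun j => γ (Gen.x (ξ j)))) :
    LinearMap.range (vin γ ρ) ⊔ ⨆ j ∈ (Finset.univ : Finset (Fin n)),
      LinearMap.range (DistribSMul.toLinearMap ℂ (Verma γ ρ) (γ (Gen.x (ξ j)))) = ⊤ := by
  let S : Set (Submodule ℂ (Verma γ ρ)) :=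
    {Q | LinearMap.range (vin γ ρ) ≤ Q ∧ ∀ x, ∀ d ∈ Q, γ (Gen.x x) • d ∈ Q}
  let P : Submodule ℂ (Verma γ ρ) := sInf S
  have hP0 : LinearMap.range (vin γ ρ) ≤ P := le_sInf fun Q hQ => hQ.1
  have hPx : ∀ x, ∀ d ∈ P, γ (Gen.x x) • d ∈ P := by
    intro x d hd
    rw [Submodule.mem_sInf] at hd ⊢
    exact fun Q hQ => hQ.2 x d (hd Q hQ)
  have hPw : ∀ g : W, ∀ d ∈ P, γ (Gen.w g) • d ∈ P := by
    intro g
    have : P.comap (DistribSMul.toLinearMap ℂ (Verma γ ρ) (γ (Gen.w g))) ∈ S := by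
      refine ⟨?_, ?_⟩
      · rintro _ ⟨v, rfl⟩
        change γ (Gen.w g) • vin γ ρ v ∈ P
        rw [vin_apply, w_vmk]
        exact hP0 ⟨_, rfl⟩
      · intro x d hd
        change γ (Gen.w g) • γ (Gen.x x) • d ∈ P
        obtain ⟨x', hx'⟩ := hwx g x
        rw [← mul_smul, hx', mul_smul]
        exact hPx _ _ hd
    exact fun d hd => (sInf_le this : P ≤ _) hd
  have hPy : ∀ y, ∀ d ∈ P, γ (Gen.y y) • d ∈ P := by
    intro y
    have : P ⊓ P.comap (DistribSMul.toLinearMap ℂ (Verma γ ρ) (γ (Gen.y y))) ∈ S := by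
      refine ⟨?_, ?_⟩
      · rintro _ ⟨v, rfl⟩
        refine ⟨hP0 ⟨_, rfl⟩, ?_⟩
        change γ (Gen.y y) • vin γ ρ v ∈ P
        rw [vin_apply, y_vmk]
        exact P.zero_mem
      · intro x d hd
        refine ⟨hPx _ _ hd.1, ?_⟩
        change γ (Gen.y y) • γ (Gen.x x) • d ∈ P
        have h1 : γ (Gen.y y) • γ (Gen.x x) • d = γ (Gen.x x) • γ (Gen.y y) • d +
            (γ (Gen.y y) * γ (Gen.x x) - γ (Gen.x x) * γ (Gen.y y)) • d := by
          rw [sub_smul, mul_smul, mul_smul]; abel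
        rw [h1]
        refine P.add_mem (hPx _ _ hd.2) ?_
        have h2 := hyx y x
        generalize γ (Gen.y y) * γ (Gen.x x) - γ (Gen.x x) * γ (Gen.y y) = u at h2
        induction h2 using Submodule.span_induction with
        | mem u hu => obtain ⟨g, rfl⟩ := hu; exact hPw g d hd.1
        | zero => simp
        | add u v _ _ hu hv => rw [add_smul]; exact P.add_mem hu hv
        | smul t u _ hu => rw [smul_assoc]; exact P.smul_mem _ hu
    exact fun d hd => ((sInf_le this : P ≤ _) hd).2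
  have hPall : ∀ a : H, ∀ d ∈ P, a • d ∈ P := by
    apply hind
    · intro r d hd; rw [algebraMap_smul]; exact P.smul_mem _ hd
    · rintro (y | x | g)
      · exact hPy y
      · exact hPx x
      · exact hPw g
    · intro a b ha hb d hd; rw [add_smul]; exact P.add_mem (ha d hd) (hb d hd)
    · intro a b ha hb d hd; rw [mul_smul]; exact ha _ (hb d hd)
  have hPtop : P = ⊤ := by
    rw [eq_top_iff]
    intro d _
    obtain ⟨z, rfl⟩ := Submodule.Quotient.mk_surjective _ d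
    induction z using TensorProduct.induction_on with
    | zero => simp
    | tmul a v =>
      have := hPall a _ (hP0 ⟨v, rfl⟩)
      rwa [vin_apply, smul_vmk, mul_one] at this
    | add u v hu hv =>
      rw [Submodule.Quotient.mk_add]
      exact P.add_mem (hu trivial) (hv trivial)
  rw [eq_top_iff, ← hPtop]
  apply sInf_le
  refine ⟨le_sup_left, fun x d _ => Submodule.mem_sup_right ?_⟩
  have h2 := hx x
  generalize γ (Gen.x x) = u at h2
  induction h2 using Submodule.span_induction with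
  | mem u hu =>
    obtain ⟨j, rfl⟩ := hu
    exact (le_iSup₂ (f := fun j (_ : j ∈ (Finset.univ : Finset (Fin n))) =>
      LinearMap.range (DistribSMul.toLinearMap ℂ (Verma γ ρ) (γ (Gen.x (ξ j))))) j
      (Finset.mem_univ j)) ⟨d, rfl⟩
  | zero => simp
  | add u v _ _ hu hv => rw [add_smul]; exact Submodule.add_mem _ hu hv
  | smul t u _ hu => rw [smul_assoc]; exact Submodule.smul_mem _ _ hu

theorem headDim_eq {n : ℕ} (ξ : Fin n → Dual ℂ V)
    (hind : ∀ p : H → Prop, (∀ r : ℂ, p (algebraMap ℂ H r)) → (∀ z, p (γ z)) →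
      (∀ a b, p a → p b → p (a + b)) → (∀ a b, p a → p b → p (a * b)) → ∀ a, p a)
    (hwx : ∀ (g : W) x, ∃ x', γ (Gen.w g) * γ (Gen.x x) = γ (Gen.x x') * γ (Gen.w g))
    (hyx : ∀ y x, γ (Gen.y y) * γ (Gen.x x) - γ (Gen.x x) * γ (Gen.y y) ∈
      Submodule.span ℂ (Set.range fun g : W => γ (Gen.w g)))
    (hx : ∀ x, γ (Gen.x x) ∈ Submodule.span ℂ (Set.range fun j => γ (Gen.x (ξ j))))
    (hxx : ∀ x x', γ (Gen.x x) * γ (Gen.x x') = γ (Gen.x x') * γ (Gen.x x))
    (hnil : ∀ j, IsNilpotent (γ (Gen.x (ξ j))))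
    [IsSimpleModule H M] (ι : E →ₗ[ℂ] M) (hy : ∀ y v, γ (Gen.y y) • ι v = 0)
    (hw : ∀ g v, γ (Gen.w g) • ι v = ι (ρ g v))
    (p0 : M →ₗ[ℂ] E) (hp1 : ∀ v, p0 (ι v) = v) (hp2 : ∀ j m, p0 (γ (Gen.x (ξ j)) • m) = 0)
    [Nontrivial E] (i : ℤ) :
    headDim γ ρ i = finrank ℂ (Submodule.span ℂ {m : M | ∃ (l : List (Gen W)) (v : E),
      (l.map genDeg).sum = i ∧ m = (l.map γ).prod • ι v}) := by
  set π := vlift γ ρ ι hy hw with hπ
  have hπ0 : π ≠ 0 := by
    intro h
    obtain ⟨v, hv⟩ := exists_ne (0 : E)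
    have h1 := vlift_vmk γ ρ ι hy hw 1 v
    rw [← hπ, h, one_smul] at h1
    apply hv
    rw [← hp1 v, ← h1]; simp
  have hsurj : Function.Surjective π := LinearMap.surjective_of_ne_zero hπ0
  have hK : IsCoatom (LinearMap.ker π) := LinearMap.isCoatom_ker_of_surjective hsurj
  set mm := ⨆ j ∈ (Finset.univ : Finset (Fin n)),
      LinearMap.range (DistribSMul.toLinearMap ℂ (Verma γ ρ) (γ (Gen.x (ξ j)))) with hmm
  have hsup := verma_sup γ ρ ξ hind hwx hyx hx
  have hmm0 : mm ≤ LinearMap.ker (p0.comp (π.restrictScalars ℂ)) := by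
    refine iSup₂_le fun j _ => ?_
    rintro _ ⟨d, rfl⟩
    change p0 (π (γ (Gen.x (ξ j)) • d)) = 0
    rw [map_smul, hp2]
  have hKm : ∀ d ∈ LinearMap.ker π, d ∈ mm := by
    intro d hd
    have h1 : d ∈ LinearMap.range (vin γ ρ) ⊔ mm := by rw [hsup]; trivial
    obtain ⟨_, ⟨v, rfl⟩, z, hz, rfl⟩ := Submodule.mem_sup.1 h1
    have h2 : p0 (π z) = 0 := hmm0 hz
    have h3 : π (vin γ ρ v + z) = 0 := hd
    have h4 := congrArg p0 h3
    rw [map_add, map_add, h2, vin_apply, vlift_vmk, one_smul, hp1, map_zero, add_zero] at h4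
    simpa [h4] using hz
  have huniq : ∀ N : Submodule H (Verma γ ρ), IsCoatom N → N = LinearMap.ker π := by
    intro N hN
    by_contra hne
    have h1 : N ⊔ LinearMap.ker π = ⊤ := (hN.codisjoint_of_ne hK hne).eq_top
    apply hN.1
    have h2 : N.restrictScalars ℂ = ⊤ := by
      apply top_of_nilpotent_family
        (fun j => DistribSMul.toLinearMap ℂ (Verma γ ρ) (γ (Gen.x (ξ j)))) _ _ Finset.univ
      · intro j d hd
        exact N.smul_mem _ hd
      · rw [eq_top_iff]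
        intro d _
        have h3 : d ∈ N ⊔ LinearMap.ker π := by rw [h1]; trivial
        obtain ⟨a, ha, b, hb, rfl⟩ := Submodule.mem_sup.1 h3
        exact Submodule.add_mem_sup ha (hKm b hb)
      · intro j
        obtain ⟨k, hk⟩ := hnil j
        refine ⟨k, LinearMap.ext fun d => ?_⟩
        have : ∀ k : ℕ, ∀ d, (DistribSMul.toLinearMap ℂ (Verma γ ρ) (γ (Gen.x (ξ j))) ^ k) d =
            (γ (Gen.x (ξ j)) ^ k) • d := by
          intro k
          induction k with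
          | zero => simp
          | succ k ih => intro d; rw [pow_succ, Module.End.mul_apply, ih, pow_succ, mul_smul]; rfl
        rw [this, hk]; simp
      · intro j j'
        refine LinearMap.ext fun d => ?_
        change γ (Gen.x (ξ j)) • γ (Gen.x (ξ j')) • d = γ (Gen.x (ξ j')) • γ (Gen.x (ξ j)) • d
        rw [← mul_smul, hxx, mul_smul]
    rw [eq_top_iff]
    intro d _
    have : d ∈ N.restrictScalars ℂ := by rw [h2]; trivial
    exact this
  have hjac : Module.jacobson H (Verma γ ρ) = LinearMap.ker π := by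
    apply le_antisymm
    · exact sInf_le hK
    · exact le_sInf fun N hN => (huniq N hN).ge
  let φ : Head γ ρ →ₗ[H] M := (Module.jacobson H (Verma γ ρ)).liftQ π hjac.le
  have hφ : Function.Injective φ := by
    rw [← LinearMap.ker_eq_bot]
    exact Submodule.ker_liftQ_eq_bot _ _ _ hjac.ge
  have hφmk : ∀ a v, φ (headMk γ ρ a v) = a • ι v := by
    intro a v
    exact vlift_vmk γ ρ ι hy hw a v
  have hset : (φ.restrictScalars ℂ) '' {z | ∃ (l : List (Gen W)) (v : E),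
      (l.map genDeg).sum = i ∧ z = headMk γ ρ (l.map γ).prod v} =
      {m : M | ∃ (l : List (Gen W)) (v : E),
        (l.map genDeg).sum = i ∧ m = (l.map γ).prod • ι v} := by
    ext m
    constructor
    · rintro ⟨_, ⟨l, v, hl, rfl⟩, rfl⟩
      exact ⟨l, v, hl, hφmk _ _⟩
    · rintro ⟨l, v, hl, rfl⟩
      exact ⟨_, ⟨l, v, hl, rfl⟩, hφmk _ _⟩
  rw [headDim, (Submodule.equivMapOfInjective (φ.restrictScalars ℂ) hφ
    (headPiece γ ρ i)).finrank_eq, headPiece, Submodule.map_span, hset]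

end Pool.Agent.H150Z.Cher
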