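import Mathlib

/-!
Combinatorial data of a 120-dimensional graded module for the restricted rational Cherednik
algebra of `G(5,5,4)`, and the finite checks on it.
-/

set_option autoImplicit false
set_option maxRecDepth 100000

namespace Pool.Agent.H150Z.Cher.G

def labT : List (ℕ × ℕ × ℕ × ℕ) := [(0, 0, 1, 1), (0, 0, 2, 2), (0, 0, 3, 3), (0, 1, 0, 0), (0, 1,
  2, 2), (0, 1, 3, 3), (0, 2, 0, 0), (0, 2, 1, 1), (0, 2, 3, 3), (0, 3, 0, 0), (0, 3, 1, 1), (0,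
  3, 2, 2), (1, 0, 1, 1), (1, 0, 2, 2), (1, 0, 3, 3), (1, 1, 0, 0), (1, 1, 2, 2), (1, 1, 3, 3),
  (1, 2, 0, 0), (1, 2, 1, 1), (1, 2, 3, 3), (1, 3, 0, 0), (1, 3, 1, 1), (1, 3, 2, 2), (2, 0, 1,
  1), (2, 0, 2, 2), (2, 0, 3, 3), (2, 1, 0, 0), (2, 1, 2, 2), (2, 1, 3, 3), (2, 2, 0, 0), (2, 2,
  1, 1), (2, 2, 3, 3), (2, 3, 0, 0), (2, 3, 1, 1), (2, 3, 2, 2), (3, 0, 1, 1), (3, 0, 2, 2), (3,
  0, 3, 3), (3, 1, 0, 0), (3, 1, 2, 2), (3, 1, 3, 3), (3, 2, 0, 0), (3, 2, 1, 1), (3, 2, 3, 3),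
  (3, 3, 0, 0), (3, 3, 1, 1), (3, 3, 2, 2), (4, 0, 1, 2), (4, 0, 1, 3), (4, 0, 2, 1), (4, 0, 2,
  3), (4, 0, 3, 1), (4, 0, 3, 2), (4, 1, 0, 2), (4, 1, 0, 3), (4, 1, 2, 0), (4, 1, 2, 3), (4, 1,
  3, 0), (4, 1, 3, 2), (4, 2, 0, 1), (4, 2, 0, 3), (4, 2, 1, 0), (4, 2, 1, 3), (4, 2, 3, 0), (4,
  2, 3, 1), (4, 3, 0, 1), (4, 3, 0, 2), (4, 3, 1, 0), (4, 3, 1, 2), (4, 3, 2, 0), (4, 3, 2, 1),
  (5, 0, 1, 2), (5, 0, 1, 3), (5, 0, 2, 1), (5, 0, 2, 3), (5, 0, 3, 1), (5, 0, 3, 2), (5, 1, 0,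
  2), (5, 1, 0, 3), (5, 1, 2, 0), (5, 1, 2, 3), (5, 1, 3, 0), (5, 1, 3, 2), (5, 2, 0, 1), (5, 2,
  0, 3), (5, 2, 1, 0), (5, 2, 1, 3), (5, 2, 3, 0), (5, 2, 3, 1), (5, 3, 0, 1), (5, 3, 0, 2), (5,
  3, 1, 0), (5, 3, 1, 2), (5, 3, 2, 0), (5, 3, 2, 1), (6, 0, 1, 1), (6, 0, 2, 2), (6, 0, 3, 3),
  (6, 1, 0, 0), (6, 1, 2, 2), (6, 1, 3, 3), (6, 2, 0, 0), (6, 2, 1, 1), (6, 2, 3, 3), (6, 3, 0,
  0), (6, 3, 1, 1), (6, 3, 2, 2), (7, 0, 1, 1), (7, 0, 2, 2), (7, 0, 3, 3), (7, 1, 0, 0), (7, 1,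
  2, 2), (7, 1, 3, 3), (7, 2, 0, 0), (7, 2, 1, 1), (7, 2, 3, 3), (7, 3, 0, 0), (7, 3, 1, 1), (7,
  3, 2, 2)]

def idxT : List (List ℕ) := [[0, 0, 0, 0, 0, 0, 0, 0, 0, 0, 1, 0, 0, 0, 0, 2, 3, 0, 0, 0, 0, 0, 0,
  0, 0, 0, 4, 0, 0, 0, 0, 5, 6, 0, 0, 0, 0, 7, 0, 0, 0, 0, 0, 0, 0, 0, 0, 8, 9, 0, 0, 0, 0, 10, 0,
  0, 0, 0, 11, 0, 0, 0, 0, 0], [0, 0, 0, 0, 0, 12, 0, 0, 0, 0, 13, 0, 0, 0, 0, 14, 15, 0, 0, 0, 0,
  0, 0, 0, 0, 0, 16, 0, 0, 0, 0, 17, 18, 0, 0, 0, 0, 19, 0, 0, 0, 0, 0, 0, 0, 0, 0, 20, 21, 0, 0,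
  0, 0, 22, 0, 0, 0, 0, 23, 0, 0, 0, 0, 0], [0, 0, 0, 0, 0, 24, 0, 0, 0, 0, 25, 0, 0, 0, 0, 26,
  27, 0, 0, 0, 0, 0, 0, 0, 0, 0, 28, 0, 0, 0, 0, 29, 30, 0, 0, 0, 0, 31, 0, 0, 0, 0, 0, 0, 0, 0,
  0, 32, 33, 0, 0, 0, 0, 34, 0, 0, 0, 0, 35, 0, 0, 0, 0, 0], [0, 0, 0, 0, 0, 36, 0, 0, 0, 0, 37,
  0, 0, 0, 0, 38, 39, 0, 0, 0, 0, 0, 0, 0, 0, 0, 40, 0, 0, 0, 0, 41, 42, 0, 0, 0, 0, 43, 0, 0, 0,
  0, 0, 0, 0, 0, 0, 44, 45, 0, 0, 0, 0, 46, 0, 0, 0, 0, 47, 0, 0, 0, 0, 0], [0, 0, 0, 0, 0, 0, 48,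
  49, 0, 50, 0, 51, 0, 52, 53, 0, 0, 0, 54, 55, 0, 0, 0, 0, 56, 0, 0, 57, 58, 0, 59, 0, 0, 60, 0,
  61, 62, 0, 0, 63, 0, 0, 0, 0, 64, 65, 0, 0, 0, 66, 67, 0, 68, 0, 69, 0, 70, 71, 0, 0, 0, 0, 0,
  0], [0, 0, 0, 0, 0, 0, 72, 73, 0, 74, 0, 75, 0, 76, 77, 0, 0, 0, 78, 79, 0, 0, 0, 0, 80, 0, 0,
  81, 82, 0, 83, 0, 0, 84, 0, 85, 86, 0, 0, 87, 0, 0, 0, 0, 88, 89, 0, 0, 0, 90, 91, 0, 92, 0, 93,
  0, 94, 95, 0, 0, 0, 0, 0, 0], [0, 0, 0, 0, 0, 96, 0, 0, 0, 0, 97, 0, 0, 0, 0, 98, 99, 0, 0, 0,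
  0, 0, 0, 0, 0, 0, 100, 0, 0, 0, 0, 101, 102, 0, 0, 0, 0, 103, 0, 0, 0, 0, 0, 0, 0, 0, 0, 104,
  105, 0, 0, 0, 0, 106, 0, 0, 0, 0, 107, 0, 0, 0, 0, 0], [0, 0, 0, 0, 0, 108, 0, 0, 0, 0, 109, 0,
  0, 0, 0, 110, 111, 0, 0, 0, 0, 0, 0, 0, 0, 0, 112, 0, 0, 0, 0, 113, 114, 0, 0, 0, 0, 115, 0, 0,
  0, 0, 0, 0, 0, 0, 0, 116, 117, 0, 0, 0, 0, 118, 0, 0, 0, 0, 119, 0, 0, 0, 0, 0]]

def chiT : List Bool := [false, false, true, false, false, false, true, true]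

def wtT : List (List ℕ) := [[3, 4, 0, 0], [3, 0, 4, 0], [3, 0, 0, 4], [4, 3, 0, 0], [0, 3, 4, 0],
  [0, 3, 0, 4], [4, 0, 3, 0], [0, 4, 3, 0], [0, 0, 3, 4], [4, 0, 0, 3], [0, 4, 0, 3], [0, 0, 4,
  3], [3, 3, 0, 0], [3, 0, 3, 0], [3, 0, 0, 3], [3, 3, 0, 0], [0, 3, 3, 0], [0, 3, 0, 3], [3, 0,
  3, 0], [0, 3, 3, 0], [0, 0, 3, 3], [3, 0, 0, 3], [0, 3, 0, 3], [0, 0, 3, 3], [3, 0, 4, 4], [3,
  4, 0, 4], [3, 4, 4, 0], [0, 3, 4, 4], [4, 3, 0, 4], [4, 3, 4, 0], [0, 4, 3, 4], [4, 0, 3, 4],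
  [4, 4, 3, 0], [0, 4, 4, 3], [4, 0, 4, 3], [4, 4, 0, 3], [3, 2, 0, 0], [3, 0, 2, 0], [3, 0, 0,
  2], [2, 3, 0, 0], [0, 3, 2, 0], [0, 3, 0, 2], [2, 0, 3, 0], [0, 2, 3, 0], [0, 0, 3, 2], [2, 0,
  0, 3], [0, 2, 0, 3], [0, 0, 2, 3], [3, 3, 4, 0], [3, 3, 0, 4], [3, 4, 3, 0], [3, 0, 3, 4], [3,
  4, 0, 3], [3, 0, 4, 3], [3, 3, 4, 0], [3, 3, 0, 4], [4, 3, 3, 0], [0, 3, 3, 4], [4, 3, 0, 3],
  [0, 3, 4, 3], [3, 4, 3, 0], [3, 0, 3, 4], [4, 3, 3, 0], [0, 3, 3, 4], [4, 0, 3, 3], [0, 4, 3,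
  3], [3, 4, 0, 3], [3, 0, 4, 3], [4, 3, 0, 3], [0, 3, 4, 3], [4, 0, 3, 3], [0, 4, 3, 3], [3, 2,
  4, 0], [3, 2, 0, 4], [3, 4, 2, 0], [3, 0, 2, 4], [3, 4, 0, 2], [3, 0, 4, 2], [2, 3, 4, 0], [2,
  3, 0, 4], [4, 3, 2, 0], [0, 3, 2, 4], [4, 3, 0, 2], [0, 3, 4, 2], [2, 4, 3, 0], [2, 0, 3, 4],
  [4, 2, 3, 0], [0, 2, 3, 4], [4, 0, 3, 2], [0, 4, 3, 2], [2, 4, 0, 3], [2, 0, 4, 3], [4, 2, 0,
  3], [0, 2, 4, 3], [4, 0, 2, 3], [0, 4, 2, 3], [3, 0, 3, 3], [3, 3, 0, 3], [3, 3, 3, 0], [0, 3,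
  3, 3], [3, 3, 0, 3], [3, 3, 3, 0], [0, 3, 3, 3], [3, 0, 3, 3], [3, 3, 3, 0], [0, 3, 3, 3], [3,
  0, 3, 3], [3, 3, 0, 3], [2, 0, 3, 3], [2, 3, 0, 3], [2, 3, 3, 0], [0, 2, 3, 3], [3, 2, 0, 3],
  [3, 2, 3, 0], [0, 3, 2, 3], [3, 0, 2, 3], [3, 3, 2, 0], [0, 3, 3, 2], [3, 0, 3, 2], [3, 3, 0,
  2]]

def XT0 : List (List (ℕ × ℤ)) := [[], [], [], [(15, 1)], [(29, 1)], [(28, -1)], [(18, 1)], [(32,
  -1)], [(31, 1)], [(21, 1)], [(35, 1)], [(34, -1)], [], [], [], [(39, 1)], [(56, 1)], [(58, 1)],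
  [(42, 1)], [(62, 1)], [(64, 1)], [(45, 1)], [(68, 1)], [(70, 1)], [], [], [], [], [(55, 1)],
  [(54, -1)], [], [(61, -1)], [(60, 1)], [], [(67, 1)], [(66, -1)], [], [], [], [], [(80, 1)],
  [(82, 1)], [], [(86, 1)], [(88, 1)], [], [(92, 1)], [(94, 1)], [], [], [], [], [], [], [(78,
  1)], [(79, 1)], [(101, 1)], [], [(100, -1)], [], [(84, 1)], [(85, 1)], [(104, -1)], [], [(103,
  1)], [], [(90, 1)], [(91, 1)], [(107, 1)], [], [(106, -1)], [], [], [], [], [], [], [], [], [],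
  [(116, 1)], [], [(119, -1)], [], [], [], [(113, -1)], [], [(118, 1)], [], [], [], [(112, 1)],
  [], [(115, -1)], [], [], [], [], [], [(109, 1)], [(110, 1)], [], [(108, 1)], [(110, 1)], [],
  [(108, 1)], [(109, 1)], [], [], [], [], [], [], [], [], [], [], [], []]

def XT1 : List (List (ℕ × ℤ)) := [[(12, 1)], [(26, -1)], [(25, 1)], [], [], [], [(32, 1)], [(19,
  1)], [(30, -1)], [(35, -1)], [(22, 1)], [(33, 1)], [(36, 1)], [(50, 1)], [(52, 1)], [], [], [],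
  [(60, 1)], [(43, 1)], [(65, 1)], [(66, 1)], [(46, 1)], [(71, 1)], [], [(49, -1)], [(48, 1)], [],
  [], [], [(63, 1)], [], [(62, -1)], [(69, -1)], [], [(68, 1)], [], [(74, 1)], [(76, 1)], [], [],
  [], [(84, 1)], [], [(89, 1)], [(90, 1)], [], [(95, 1)], [(72, 1)], [(73, 1)], [(98, -1)], [],
  [(97, 1)], [], [], [], [], [], [], [], [(104, 1)], [], [(86, 1)], [(87, 1)], [], [(102, -1)],
  [(107, -1)], [], [(92, 1)], [(93, 1)], [], [(105, 1)], [], [], [(116, -1)], [], [(119, 1)], [],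
  [], [], [], [], [], [], [(110, 1)], [], [], [], [], [(117, -1)], [(109, -1)], [], [], [], [],
  [(114, 1)], [], [(112, 1)], [(113, 1)], [], [], [], [(111, 1)], [], [(113, 1)], [(111, 1)], [],
  [(112, 1)], [], [], [], [], [], [], [], [], [], [], [], []]

def XT2 : List (List (ℕ × ℤ)) := [[(26, 1)], [(13, 1)], [(24, -1)], [(29, -1)], [(16, 1)], [(27,
  1)], [], [], [], [(34, 1)], [(33, -1)], [(23, 1)], [(48, 1)], [(37, 1)], [(53, 1)], [(54, 1)],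
  [(40, 1)], [(59, 1)], [], [], [], [(67, 1)], [(69, 1)], [(47, 1)], [(51, 1)], [], [(50, -1)],
  [(57, -1)], [], [(56, 1)], [], [], [], [(71, 1)], [(70, -1)], [], [(72, 1)], [], [(77, 1)],
  [(78, 1)], [], [(83, 1)], [], [], [], [(91, 1)], [(93, 1)], [], [(98, 1)], [], [(74, 1)], [(75,
  1)], [], [(96, -1)], [(101, -1)], [], [(80, 1)], [(81, 1)], [], [(99, 1)], [], [], [], [], [],
  [], [], [(106, 1)], [], [(105, -1)], [(94, 1)], [(95, 1)], [(113, 1)], [], [], [], [], [(118,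
  -1)], [(110, -1)], [], [], [], [], [(117, 1)], [], [], [], [], [], [], [], [(108, 1)], [],
  [(111, -1)], [], [], [(115, 1)], [], [(116, 1)], [(114, 1)], [], [(116, 1)], [], [], [], [(114,
  1)], [(115, 1)], [], [], [], [], [], [], [], [], [], [], [], [], []]

def XT3 : List (List (ℕ × ℤ)) := [[(25, -1)], [(24, 1)], [(14, 1)], [(28, 1)], [(27, -1)], [(17,
  1)], [(31, -1)], [(30, 1)], [(20, 1)], [], [], [], [(49, 1)], [(51, 1)], [(38, 1)], [(55, 1)],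
  [(57, 1)], [(41, 1)], [(61, 1)], [(63, 1)], [(44, 1)], [], [], [], [(53, -1)], [(52, 1)], [],
  [(59, 1)], [(58, -1)], [], [(65, -1)], [(64, 1)], [], [], [], [], [(73, 1)], [(75, 1)], [],
  [(79, 1)], [(81, 1)], [], [(85, 1)], [(87, 1)], [], [], [], [], [], [(97, -1)], [], [(96, 1)],
  [(76, 1)], [(77, 1)], [], [(100, 1)], [], [(99, -1)], [(82, 1)], [(83, 1)], [], [(103, -1)], [],
  [(102, 1)], [(88, 1)], [(89, 1)], [], [], [], [], [], [], [], [(112, -1)], [], [(115, 1)], [],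
  [], [], [(109, 1)], [], [(114, -1)], [], [], [], [(108, -1)], [], [(111, 1)], [], [], [], [],
  [], [], [], [], [(118, 1)], [(119, 1)], [], [(117, 1)], [(119, 1)], [], [(117, 1)], [(118, 1)],
  [], [], [], [], [], [], [], [], [], [], [], [], [], [], [], []]

def YT0 : List (List (ℕ × ℤ)) := [[], [], [], [], [], [], [], [], [], [], [], [], [(3, 1)], [(6,
  1)], [(9, 1)], [], [], [], [], [], [], [], [], [], [], [], [], [], [(5, 1)], [(4, -1)], [], [(8,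
  -1)], [(7, 1)], [], [(11, 1)], [(10, -1)], [], [], [], [(12, -1)], [], [], [(13, -1)], [], [],
  [(14, -1)], [], [], [(29, -1)], [(28, 1)], [(32, 1)], [(31, -1)], [(35, -1)], [(34, 1)], [], [],
  [(16, -1)], [], [(17, -1)], [], [], [], [(19, -1)], [], [(20, -1)], [], [], [], [(22, -1)], [],
  [(23, -1)], [], [], [], [], [], [], [], [(48, -1)], [(49, -1)], [(40, -1)], [], [(41, -1)], [],
  [(50, -1)], [(51, -1)], [(43, -1)], [], [(44, -1)], [], [(52, -1)], [(53, -1)], [(46, -1)], [],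
  [(47, -1)], [], [(64, -1), (70, 1)], [(58, 1), (68, -1)], [(56, -1), (62, 1)], [], [(58, 1)],
  [(56, -1)], [], [(64, -1)], [(62, 1)], [], [(70, 1)], [(68, -1)], [(96, 1)], [(97, 1)], [(98,
  1)], [], [(92, -1)], [(86, 1)], [], [(94, 1)], [(80, -1)], [], [(88, -1)], [(82, 1)]]

def YT1 : List (List (ℕ × ℤ)) := [[], [], [], [], [], [], [], [], [], [], [], [], [], [], [], [(0,
  1)], [(7, 1)], [(10, 1)], [], [], [], [], [], [], [], [(2, -1)], [(1, 1)], [], [], [], [(8, 1)],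
  [], [(6, -1)], [(11, -1)], [], [(9, 1)], [(15, -1)], [], [], [], [], [], [], [(16, -1)], [], [],
  [(17, -1)], [], [], [], [(13, -1)], [], [(14, -1)], [], [(26, 1)], [(25, -1)], [(32, -1)], [(30,
  1)], [(35, 1)], [(33, -1)], [(18, -1)], [], [], [], [], [(20, -1)], [(21, -1)], [], [], [], [],
  [(23, -1)], [(54, -1)], [(55, -1)], [(37, -1)], [], [(38, -1)], [], [], [], [], [], [], [],
  [(42, -1)], [], [(56, -1)], [(57, -1)], [], [(44, -1)], [(45, -1)], [], [(58, -1)], [(59, -1)],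
  [], [(47, -1)], [], [(52, -1)], [(50, 1)], [(65, 1), (71, -1)], [(52, -1), (66, 1)], [(50, 1),
  (60, -1)], [(65, 1)], [], [(60, -1)], [(71, -1)], [], [(66, 1)], [], [(90, 1)], [(84, -1)],
  [(99, 1)], [(100, 1)], [(101, 1)], [(95, -1)], [], [(74, 1)], [(89, 1)], [], [(76, -1)]]

def YT2 : List (List (ℕ × ℤ)) := [[], [], [], [], [], [], [], [], [], [], [], [], [], [], [], [],
  [], [], [(1, 1)], [(4, 1)], [(11, 1)], [], [], [], [(2, 1)], [], [(0, -1)], [(5, -1)], [], [(3,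
  1)], [], [], [], [(10, 1)], [(9, -1)], [], [], [(18, -1)], [], [], [(19, -1)], [], [], [], [],
  [], [], [(20, -1)], [(12, -1)], [], [], [], [], [(14, -1)], [(15, -1)], [], [], [], [], [(17,
  -1)], [(26, -1)], [(24, 1)], [(29, 1)], [(27, -1)], [(34, -1)], [(33, 1)], [], [(21, -1)], [],
  [(22, -1)], [], [], [(36, -1)], [], [(60, -1)], [(61, -1)], [], [(38, -1)], [(39, -1)], [],
  [(62, -1)], [(63, -1)], [], [(41, -1)], [], [], [], [], [], [], [], [(45, -1)], [], [(46, -1)],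
  [(64, -1)], [(65, -1)], [(53, 1)], [], [(48, -1)], [(59, -1)], [], [(54, 1)], [(59, -1), (69,
  1)], [(53, 1), (67, -1)], [(48, -1), (54, 1)], [(69, 1)], [(67, -1)], [], [(91, -1)], [], [(78,
  1)], [(93, 1)], [], [(72, -1)], [(102, 1)], [(103, 1)], [(104, 1)], [(83, -1)], [(77, 1)], []]

def YT3 : List (List (ℕ × ℤ)) := [[], [], [], [], [], [], [], [], [], [], [], [], [], [], [], [],
  [], [], [], [], [], [(2, 1)], [(5, 1)], [(8, 1)], [(1, -1)], [(0, 1)], [], [(4, 1)], [(3, -1)],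
  [], [(7, -1)], [(6, 1)], [], [], [], [], [], [], [(21, -1)], [], [], [(22, -1)], [], [], [(23,
  -1)], [], [], [], [], [(12, -1)], [], [(13, -1)], [], [], [], [(15, -1)], [], [(16, -1)], [],
  [], [], [(18, -1)], [], [(19, -1)], [], [], [(25, 1)], [(24, -1)], [(28, -1)], [(27, 1)], [(31,
  1)], [(30, -1)], [], [(36, -1)], [], [(37, -1)], [(66, -1)], [(67, -1)], [], [(39, -1)], [],
  [(40, -1)], [(68, -1)], [(69, -1)], [], [(42, -1)], [], [(43, -1)], [(70, -1)], [(71, -1)], [],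
  [], [], [], [], [], [(51, -1)], [(49, 1)], [], [(57, 1)], [(55, -1)], [], [(63, -1)], [(61, 1)],
  [], [(57, 1), (63, -1)], [(51, -1), (61, 1)], [(49, 1), (55, -1)], [(85, 1)], [(79, -1)], [],
  [(87, -1)], [(73, 1)], [], [(81, 1)], [(75, -1)], [], [(105, 1)], [(106, 1)], [(107, 1)]]

def ZT0 : List (List (ℕ × ℤ)) := [[], [], [], [(12, 2)], [(29, -2)], [(28, 2)], [(13, 2)], [(32,
  2)], [(31, -2)], [(14, 2)], [(35, -2)], [(34, 2)], [(39, -2)], [(42, -2)], [(45, -2)], [], [(56,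
  -2)], [(58, -2)], [], [(62, -2)], [(64, -2)], [], [(68, -2)], [(70, -2)], [], [], [], [], [(49,
  2)], [(48, -2)], [], [(51, -2)], [(50, 2)], [], [(53, 2)], [(52, -2)], [], [], [], [], [(80,
  -2)], [(82, -2)], [], [(86, -2)], [(88, -2)], [], [(92, -2)], [(94, -2)], [(78, -2)], [(79,
  -2)], [(84, -2)], [(85, -2)], [(90, -2)], [(91, -2)], [], [], [(98, -1), (101, -1), (104, 1)],
  [], [(97, 1), (100, 1), (107, -1)], [], [], [], [(98, 1), (101, -1), (104, 1)], [], [(96, -1),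
  (103, -1), (106, 1)], [], [], [], [(97, -1), (100, 1), (107, -1)], [], [(96, 1), (103, -1),
  (106, 1)], [], [], [], [], [], [], [], [], [], [(116, -2)], [], [(119, 2)], [], [], [], [(113,
  2)], [], [(118, -2)], [], [], [], [(112, -2)], [], [(115, 2)], [], [(108, 2)], [(109, 2)],
  [(110, 2)], [], [], [], [], [], [], [], [], [], [], [], [], [], [], [], [], [], [], [], [], []]

def ZT1 : List (List (ℕ × ℤ)) := [[(15, 2)], [(26, 2)], [(25, -2)], [], [], [], [], [(16, 2)],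
  [(30, 2)], [], [(17, 2)], [(33, -2)], [], [], [], [(36, -2)], [(43, -2)], [(46, -2)], [(60,
  -2)], [], [(65, -2)], [(66, -2)], [], [(71, -2)], [], [(55, -2)], [(54, 2)], [], [], [], [(57,
  2)], [], [], [(59, -2)], [], [], [], [(74, -2)], [(76, -2)], [], [], [], [], [], [(89, -2)], [],
  [], [(95, -2)], [], [], [], [], [], [], [(72, -2)], [(73, -2)], [], [(87, -2)], [], [(93, -2)],
  [(98, 1), (101, -1), (104, -1)], [], [], [], [], [(99, 1), (102, 1), (105, -1)], [(97, -1),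
  (100, 1), (107, 1)], [], [], [], [], [(99, -1), (102, 1), (105, -1)], [], [], [], [], [], [],
  [], [], [], [], [], [], [], [], [], [], [], [(117, 2)], [], [], [], [], [], [(114, -2)], [], [],
  [], [(111, 2)], [], [], [], [], [], [], [], [], [], [], [], [], [], [], [], [], [], [], [], []]

def ZT2 : List (List (ℕ × ℤ)) := [[], [(18, 2)], [(24, 2)], [], [(19, 2)], [(27, -2)], [], [], [],
  [], [], [(20, 2)], [], [], [], [], [], [], [(37, -2)], [(40, -2)], [(47, -2)], [(67, -2)], [(69,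
  -2)], [], [(61, 2)], [], [], [(63, -2)], [], [], [], [], [], [], [], [], [], [], [(77, -2)], [],
  [], [(83, -2)], [], [], [], [], [], [], [], [], [], [], [], [], [], [], [], [], [], [], [],
  [(75, -2)], [], [(81, -2)], [], [], [], [(96, 1), (103, -1), (106, -1)], [], [(99, -1), (102,
  1), (105, 1)], [], [], [], [], [], [], [], [], [], [], [], [], [], [], [], [], [], [], [], [],
  [], [], [], [], [], [], [], [], [], [], [], [], [], [], [], [], [], [], [], [], [], [], [], [],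
  [], [], [], [], [], []]

def ZT3 : List (List (ℕ × ℤ)) := [[], [], [(21, 2)], [], [], [(22, 2)], [], [], [(23, 2)], [], [],
  [], [], [], [], [], [], [], [], [], [], [(38, -2)], [(41, -2)], [(44, -2)], [], [], [], [], [],
  [], [], [], [], [], [], [], [], [], [], [], [], [], [], [], [], [], [], [], [], [], [], [], [],
  [], [], [], [], [], [], [], [], [], [], [], [], [], [], [], [], [], [], [], [], [], [], [], [],
  [], [], [], [], [], [], [], [], [], [], [], [], [], [], [], [], [], [], [], [], [], [], [], [],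
  [], [], [], [], [], [], [], [], [], [], [], [], [], [], [], [], [], [], []]

def preT : List (ℕ × ℕ × ℤ) := [(0, 0, 0), (0, 0, 0), (0, 0, 0), (0, 0, 0), (0, 0, 0), (0, 0, 0),
  (0, 0, 0), (0, 0, 0), (0, 0, 0), (0, 0, 0), (0, 0, 0), (0, 0, 0), (1, 0, 1), (2, 1, 1), (3, 2,
  1), (0, 3, 1), (2, 4, 1), (3, 5, 1), (0, 6, 1), (1, 7, 1), (3, 8, 1), (0, 9, 1), (1, 10, 1), (2,
  11, 1), (2, 2, -1), (1, 2, 1), (1, 1, -1), (2, 5, 1), (0, 5, -1), (0, 4, 1), (1, 8, -1), (0, 8,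
  1), (0, 7, -1), (1, 11, 1), (0, 11, -1), (0, 10, 1), (1, 12, 1), (2, 13, 1), (3, 14, 1), (0, 15,
  1), (2, 16, 1), (3, 17, 1), (0, 18, 1), (1, 19, 1), (3, 20, 1), (0, 21, 1), (1, 22, 1), (2, 23,
  1), (1, 26, 1), (1, 25, -1), (1, 13, 1), (2, 24, 1), (1, 14, 1), (2, 14, 1), (0, 29, -1), (0,
  28, 1), (0, 16, 1), (2, 27, -1), (0, 17, 1), (2, 17, 1), (0, 32, 1), (0, 31, -1), (0, 19, 1),
  (1, 30, 1), (0, 20, 1), (1, 20, 1), (0, 35, -1), (0, 34, 1), (0, 22, 1), (1, 33, -1), (0, 23,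
  1), (1, 23, 1), (1, 48, 1), (1, 49, 1), (1, 37, 1), (2, 51, 1), (1, 38, 1), (2, 38, 1), (0, 54,
  1), (0, 55, 1), (0, 40, 1), (2, 57, 1), (0, 41, 1), (2, 41, 1), (0, 60, 1), (0, 61, 1), (0, 43,
  1), (1, 63, 1), (0, 44, 1), (1, 44, 1), (0, 66, 1), (0, 67, 1), (0, 46, 1), (1, 69, 1), (0, 47,
  1), (1, 47, 1), (2, 53, -1), (1, 52, 1), (1, 50, -1), (2, 59, 1), (0, 58, -1), (0, 56, 1), (1,
  65, -1), (0, 64, 1), (0, 62, -1), (1, 71, 1), (0, 70, -1), (0, 68, 1), (0, 103, 1), (0, 100, 1),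
  (0, 101, 1), (1, 102, 1), (0, 92, 1), (0, 86, -1), (1, 95, 1), (0, 94, -1), (0, 80, 1), (1, 89,
  -1), (0, 88, 1), (0, 82, -1)]

abbrev I : Type := Fin 120
abbrev L : Type := List (I × ℤ)

def orb (u : I) : ℕ := (labT.getD u (0, 0, 0, 0)).1
def lp (u : I) : Fin 4 := Fin.ofNat 4 (labT.getD u (0, 0, 0, 0)).2.1
def lq (u : I) : Fin 4 := Fin.ofNat 4 (labT.getD u (0, 0, 0, 0)).2.2.1
def lr (u : I) : Fin 4 := Fin.ofNat 4 (labT.getD u (0, 0, 0, 0)).2.2.2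
def deg (u : I) : ℕ := [0, 1, 1, 2, 2, 3, 3, 4].getD (orb u) 0
def chi (u : I) : Bool := chiT.getD (orb u) false
def idx (o : ℕ) (p q r : Fin 4) : I :=
  Fin.ofNat 120 ((idxT.getD o []).getD (p.val * 16 + q.val * 4 + r.val) 0)
def actF (f : Fin 4 → Fin 4) (u : I) : I := idx (orb u) (f (lp u)) (f (lq u)) (f (lr u))
def wt (u : I) (i : Fin 4) : ZMod 5 := ((wtT.getD u []).getD i 0 : ℕ)
def conv (l : List (ℕ × ℤ)) : L := l.map fun p => (Fin.ofNat 120 p.1, p.2)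
def XT (j : Fin 4) (u : I) : L := conv (([XT0, XT1, XT2, XT3].getD j []).getD u [])
def YT (j : Fin 4) (u : I) : L := conv (([YT0, YT1, YT2, YT3].getD j []).getD u [])
def ZT (j : Fin 4) (u : I) : L := conv (([ZT0, ZT1, ZT2, ZT3].getD j []).getD u [])
def pj (u : I) : Fin 4 := Fin.ofNat 4 (preT.getD u (0, 0, 0)).1
def pu (u : I) : I := Fin.ofNat 120 (preT.getD u (0, 0, 0)).2.1
def pc (u : I) : ℤ := (preT.getD u (0, 0, 0)).2.2
def sw (a b : Fin 4) (k : Fin 4) : Fin 4 := if k = a then b else if k = b then a else k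
def ST (a b : Fin 4) (u : I) : L := [(actF (sw a b) u, if chi u then -1 else 1)]

def scal (t : ℤ) (l : L) : L := l.map fun p => (p.1, t * p.2)
def bind (T : I → L) (l : L) : L := l.flatMap fun p => scal p.2 (T p.1)
def coef (l : L) (i : I) : ℤ := (l.map fun p => if p.1 = i then p.2 else 0).sum
def isZero (l : L) : Bool := l.all fun p => coef l p.1 == 0

/-- the integer weight of the pair `a < b` in the commutator `[y_p, x_q]` on the vector `u` -/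
def gco (a b p q : Fin 4) (u : I) : ℤ :=
  if p = q then (if (p = a ∨ p = b) ∧ wt u a - wt u b = 0 then 1 else 0)
  else if p = a ∧ q = b then (if 1 + (wt u a - wt u b) = 0 then -1 else 0)
  else if p = b ∧ q = a then (if -1 + (wt u a - wt u b) = 0 then -1 else 0)
  else 0

def pairs : List (Fin 4 × Fin 4) := [(0, 1), (0, 2), (0, 3), (1, 2), (1, 3), (2, 3)]

lemma ck_idx : ∀ u : I, idx (orb u) (lp u) (lq u) (lr u) = u := by decide +kernel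

lemma ck_lab : ∀ u : I, ∀ a b c : Fin 4, (a = b ↔ lp u = lq u) → (a = c ↔ lp u = lr u) →
    (b = c ↔ lq u = lr u) → orb (idx (orb u) a b c) = orb u ∧ lp (idx (orb u) a b c) = a ∧
      lq (idx (orb u) a b c) = b ∧ lr (idx (orb u) a b c) = c := by decide +kernel

lemma ck_swwt : ∀ a b : Fin 4, ∀ u : I, ∀ k : Fin 4,
    wt (actF (sw a b) u) (sw a b k) = wt u k := by decide +kernel

lemma ck_X : ∀ j : Fin 4, ∀ u : I, ∀ p ∈ XT j u, deg p.1 = deg u + 1 ∧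
    ∀ k : Fin 4, wt p.1 k = wt u k - (if k = j then 1 else 0) := by decide +kernel

lemma ck_Y : ∀ j : Fin 4, ∀ u : I, ∀ p ∈ YT j u, deg p.1 + 1 = deg u ∧
    ∀ k : Fin 4, wt p.1 k = wt u k + (if k = j then 1 else 0) := by decide +kernel

lemma ck_SX : ∀ a b : Fin 4, a ≠ b → ∀ j : Fin 4, ∀ u : I,
    isZero (bind (ST a b) (XT j u) ++ scal (-1) (bind (XT (sw a b j)) (ST a b u))) = true := by
  decide +kernel

lemma ck_SY : ∀ a b : Fin 4, a ≠ b → ∀ j : Fin 4, ∀ u : I,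
    isZero (bind (ST a b) (YT j u) ++ scal (-1) (bind (YT (sw a b j)) (ST a b u))) = true := by
  decide +kernel

lemma ck_XX : ∀ i j : Fin 4, ∀ u : I,
    isZero (bind (XT i) (XT j u) ++ scal (-1) (bind (XT j) (XT i u))) = true := by
  decide +kernel

lemma ck_YY : ∀ i j : Fin 4, ∀ u : I,
    isZero (bind (YT i) (YT j u) ++ scal (-1) (bind (YT j) (YT i u))) = true := by
  decide +kernel

lemma ck_YX : ∀ p q : Fin 4, ∀ u : I,
    isZero (bind (YT p) (XT q u) ++ (scal (-1) (bind (XT q) (YT p u)) ++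
      pairs.flatMap fun ab => scal (gco ab.1 ab.2 p q u) (ST ab.1 ab.2 u))) = true := by
  decide +kernel

lemma ck_X4 : ∀ u : I, isZero (bind (XT 0) (bind (XT 1) (bind (XT 2) (XT 3 u)))) = true := by
  decide +kernel

lemma ck_Y4 : ∀ u : I, isZero (bind (YT 0) (bind (YT 1) (bind (YT 2) (YT 3 u)))) = true := by
  decide +kernel

lemma ck_Z : ∀ u : I, isZero (bind (ZT 0) (YT 0 u) ++ (bind (ZT 1) (YT 1 u) ++
    (bind (ZT 2) (YT 2 u) ++ (bind (ZT 3) (YT 3 u) ++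
      [(u, if deg u = 0 then 0 else -2)])))) = true := by
  decide +kernel

lemma ck_pre : ∀ u : I, deg u ≠ 0 → XT (pj u) (pu u) = [(u, pc u)] ∧ pc u * pc u = 1 := by
  decide +kernel

lemma ck_sep : ∀ u v : I, deg u = 0 → deg v = 0 → u ≠ v →
    ∃ i j : Fin 4, wt u i - wt u j ≠ wt v i - wt v j := by decide +kernel

lemma ck_trans : ∀ u v : I, deg u = 0 → deg v = 0 →
    ∃ a b c d : Fin 4, v = actF (sw a b) (actF (sw c d) u) := by decide +kernel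

lemma ck_deg : ∀ u : I, deg u ≤ 4 := by decide +kernel

lemma ck_c0 : (Finset.univ.filter fun u : I => deg u = 0).card = 12 := by decide +kernel
lemma ck_c1 : (Finset.univ.filter fun u : I => deg u = 1).card = 24 := by decide +kernel
lemma ck_c3 : (Finset.univ.filter fun u : I => deg u = 3).card = 36 := by decide +kernel
lemma ck_c4 : (Finset.univ.filter fun u : I => deg u = 4).card = 12 := by decide +kernel

end Pool.Agent.H150Z.Cher.G
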