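import Pool.Agent.H150Z.Cher.Defs

/-!
Baby Verma modules of the restricted rational Cherednik algebra, their simple heads and the
Poincare series of the heads.
-/

set_option autoImplicit false

namespace Pool.Agent.H150Z.Cher

open Module TensorProduct

variable {V : Type} [AddCommGroup V] [Module ℂ V]

/-- The grading: `deg x = 1`, `deg y = -1`, `deg w = 0`. -/
def genDeg {W : Subgroup (V ≃ₗ[ℂ] V)} : Gen W → ℤ
  | Gen.y _ => -1
  | Gen.x _ => 1
  | Gen.w _ => 0

/-- The image of a generator in the restricted rational Cherednik algebra. -/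
noncomputable def gen (W : Subgroup (V ≃ₗ[ℂ] V)) (c : W → ℂ) (z : Gen W) : RRCA W c :=
  RingQuot.mkAlgHom ℂ (Rel W c) (FreeAlgebra.ι ℂ z)

section
variable {W : Subgroup (V ≃ₗ[ℂ] V)} {H : Type} [Ring H] [Algebra ℂ H] (γ : Gen W → H)
  {E : Type} [AddCommGroup E] [Module ℂ E] (ρ : Representation ℂ W E)

/-! In this section `H` is an algebra with the images `γ` of the generators; it is applied below
to the restricted rational Cherednik algebra only. -/

/-- The left submodule of `H ⊗_ℂ E` generated by `y ⊗ v` and `w ⊗ v - 1 ⊗ w v`; the quotient by it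
is `H ⊗_{ℂ[V^*]^{co W} ⋊ W} E` with `V` acting by zero on `E`. -/
noncomputable def vermaRel : Submodule H (H ⊗[ℂ] E) :=
  Submodule.span H
    ({z | ∃ (y : V) (v : E), z = γ (Gen.y y) ⊗ₜ[ℂ] v} ∪
     {z | ∃ (g : W) (v : E), z = γ (Gen.w g) ⊗ₜ[ℂ] v - (1 : H) ⊗ₜ[ℂ] ρ g v})

/-- The baby Verma module `Δ(E)`. -/
abbrev Verma : Type := (H ⊗[ℂ] E) ⧸ vermaRel γ ρ

/-- The head `L(E)` of the baby Verma module: the quotient by the intersection of all maximal
submodules (for irreducible `E` there is exactly one, and this is the unique simple quotient). -/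
abbrev Head : Type := Verma γ ρ ⧸ Module.jacobson H (Verma γ ρ)

/-- The class of `a ⊗ v` in the head. -/
noncomputable def headMk (a : H) (v : E) : Head γ ρ :=
  Submodule.Quotient.mk (Submodule.Quotient.mk (a ⊗ₜ[ℂ] v))

/-- The degree `i` part of the head: the span of the classes of `a ⊗ v` with `a` a product of
generators of total degree `i` (`E` is placed in degree `0`). -/
noncomputable def headPiece (i : ℤ) : Submodule ℂ (Head γ ρ) :=
  Submodule.span ℂ {z | ∃ (l : List (Gen W)) (v : E), (l.map genDeg).sum = i ∧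
    z = headMk γ ρ (l.map γ).prod v}

/-- The dimension of the degree `i` part of the head. -/
noncomputable def headDim (i : ℤ) : ℕ := finrank ℂ (headPiece γ ρ i)

end

/-- The coefficient of `q^i` in the Poincare series of the simple module `L_c(E)` of the restricted
rational Cherednik algebra. -/
noncomputable def poincare (W : Subgroup (V ≃ₗ[ℂ] V)) (c : W → ℂ) {E : Type} [AddCommGroup E]
    [Module ℂ E] (ρ : Representation ℂ W E) (i : ℤ) : ℕ :=
  headDim (H := RRCA W c) (gen W c) ρ i

/-- `P(q) = ∑ p_i q^i` is palindromic: `P(q) = q^d P(1/q)` for some integer `d`. -/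
def Palindromic (p : ℤ → ℕ) : Prop := ∃ d : ℤ, ∀ i : ℤ, p i = p (d - i)

/-- The set of reflections in `W`. -/
def Refl (W : Subgroup (V ≃ₗ[ℂ] V)) : Type := {s : W // IsRefl (s : V ≃ₗ[ℂ] V)}

/-- The parameter `c` lies in the basic Zariski-open subset `F ≠ 0` of the parameter space, `F`
being a polynomial in the values of `c` at the reflections. -/
def InBasicOpen (W : Subgroup (V ≃ₗ[ℂ] V)) (F : MvPolynomial (Refl W) ℂ) (c : W → ℂ) : Prop :=
  IsParam W c ∧ MvPolynomial.eval (fun s : Refl W => c s.1) F ≠ 0

/-- `P` holds for generic parameters: for all parameters in some nonempty (basic) Zariski-open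
subset of the parameter space. -/
def Generically (W : Subgroup (V ≃ₗ[ℂ] V)) (P : (W → ℂ) → Prop) : Prop :=
  ∃ F : MvPolynomial (Refl W) ℂ, (∃ c, InBasicOpen W F c) ∧ ∀ c, InBasicOpen W F c → P c

end Pool.Agent.H150Z.Cher
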