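import Pool.Agent.H150Z.Cher.Basic

/-!
The group `G(5,5,4)` and its reflections.
-/

set_option autoImplicit false
set_option linter.unusedSimpArgs false

namespace Pool.Agent.H150Z.Cher.G

open Module Pool.Agent.H150Z.Cher Equiv

abbrev V : Type := Fin 4 → ℂ

noncomputable def e (a : ZMod 5) : ℂ := ZMod.stdAddChar (N := 5) a

lemma e_add (a b : ZMod 5) : e (a + b) = e a * e b := AddChar.map_add_eq_mul _ _ _
@[simp] lemma e_zero : e 0 = 1 := AddChar.map_zero_eq_one _
lemma e_inj {a b : ZMod 5} (h : e a = e b) : a = b := ZMod.injective_stdAddChar h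
lemma e_eq_one {a : ZMod 5} (h : e a = 1) : a = 0 := e_inj (by simpa using h)
lemma e_neg_mul (a : ZMod 5) : e (-a) * e a = 1 := by rw [← e_add]; simp
lemma e_mul_neg (a : ZMod 5) : e a * e (-a) = 1 := by rw [← e_add]; simp
lemma e_ne (a : ZMod 5) : e a ≠ 0 := left_ne_zero_of_mul_eq_one (e_mul_neg a)
lemma e_sum (b : ZMod 5) : ∑ k : ZMod 5, e (k * b) = if b = 0 then 5 else 0 := by
  have := AddChar.sum_mulShift b (ZMod.isPrimitive_stdAddChar 5)
  simp only [e]
  rw [this]
  split_ifs <;> simp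
lemma e_nsmul (n : ℕ) (a : ZMod 5) : e ((n : ZMod 5) * a) = e a ^ n := by
  induction n with
  | zero => simp
  | succ n ih => rw [Nat.cast_succ, add_mul, one_mul, e_add, ih, pow_succ]
lemma e_pow5 (a : ZMod 5) : e a ^ 5 = 1 := by
  rw [← e_nsmul]
  have : ((5 : ℕ) : ZMod 5) = 0 := by decide
  rw [this]; simp

noncomputable def mono (σ : Perm (Fin 4)) (a : Fin 4 → ZMod 5) : V ≃ₗ[ℂ] V where
  toFun v := fun i => e (a (σ⁻¹ i)) * v (σ⁻¹ i)
  invFun v := fun i => e (-a i) * v (σ i)
  map_add' v w := by ext i; simp [mul_add]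
  map_smul' t v := by ext i; simp; ring
  left_inv v := by ext i; simp [← mul_assoc, e_neg_mul]
  right_inv v := by ext i; simp [← mul_assoc, e_mul_neg]

lemma mono_apply (σ : Perm (Fin 4)) (a : Fin 4 → ZMod 5) (v : V) (i : Fin 4) :
    mono σ a v i = e (a (σ⁻¹ i)) * v (σ⁻¹ i) := rfl
lemma mono_symm_apply (σ : Perm (Fin 4)) (a : Fin 4 → ZMod 5) (v : V) (i : Fin 4) :
    (mono σ a).symm v i = e (-a i) * v (σ i) := rfl

lemma mono_single (σ : Perm (Fin 4)) (a : Fin 4 → ZMod 5) (j : Fin 4) :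
    mono σ a (Pi.single j 1) = e (a j) • Pi.single (σ j) 1 := by
  ext i
  rw [mono_apply]
  by_cases h : i = σ j
  · subst h; simp
  · have : σ⁻¹ i ≠ j := by rintro rfl; simp at h
    rw [Pi.single_eq_of_ne this]
    simp [Pi.single_apply, h]

lemma mono_symm_single (σ : Perm (Fin 4)) (a : Fin 4 → ZMod 5) (j : Fin 4) :
    (mono σ a).symm (Pi.single (σ j) 1) = e (-a j) • Pi.single j 1 := by
  ext i
  rw [mono_symm_apply]
  by_cases h : i = j
  · subst h; simp
  · simp [Pi.single_apply, h]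

lemma mono_mul (σ τ : Perm (Fin 4)) (a b : Fin 4 → ZMod 5) :
    mono σ a * mono τ b = mono (σ * τ) (fun i => b i + a (τ i)) := by
  ext v i
  simp [mono_apply, e_add]
  ring

lemma mono_one : mono 1 0 = 1 := by
  ext v i; simp [mono_apply]

lemma mono_inj {σ τ : Perm (Fin 4)} {a b : Fin 4 → ZMod 5} (h : mono σ a = mono τ b) :
    σ = τ ∧ a = b := by
  have h1 : ∀ j, σ j = τ j ∧ a j = b j := by
    intro j
    have h2 := congrFun (DFunLike.congr_fun h (Pi.single j 1)) (σ j)
    rw [mono_single, mono_single] at h2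
    by_cases h3 : σ j = τ j
    · refine ⟨h3, e_inj ?_⟩
      simpa [h3] using h2
    · exfalso
      simp [Pi.single_apply, h3] at h2
      exact e_ne _ h2
  exact ⟨Equiv.ext fun j => (h1 j).1, funext fun j => (h1 j).2⟩

noncomputable def W : Subgroup (V ≃ₗ[ℂ] V) where
  carrier := {g | ∃ σ a, ∑ i, a i = 0 ∧ g = mono σ a}
  mul_mem' := by
    rintro _ _ ⟨σ, a, ha, rfl⟩ ⟨τ, b, hb, rfl⟩
    refine ⟨σ * τ, _, ?_, mono_mul _ _ _ _⟩
    rw [Finset.sum_add_distrib, hb, Equiv.sum_comp τ a, ha, add_zero]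
  one_mem' := ⟨1, 0, by simp, mono_one.symm⟩
  inv_mem' := by
    rintro _ ⟨σ, a, ha, rfl⟩
    refine ⟨σ⁻¹, fun i => -a (σ⁻¹ i), ?_, ?_⟩
    · rw [Finset.sum_neg_distrib, Equiv.sum_comp σ⁻¹ a, ha, neg_zero]
    · apply inv_eq_of_mul_eq_one_right
      rw [mono_mul]
      rw [← mono_one]
      congr 1
      · simp
      · funext i; simp

noncomputable def mw (σ : Perm (Fin 4)) (a : Fin 4 → ZMod 5) (h : ∑ i, a i = 0) : W :=
  ⟨mono σ a, σ, a, h, rfl⟩

noncomputable def pr (w : W) : Perm (Fin 4) := w.2.choose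
noncomputable def vc (w : W) : Fin 4 → ZMod 5 := w.2.choose_spec.choose
lemma vc_sum (w : W) : ∑ i, vc w i = 0 := w.2.choose_spec.choose_spec.1
lemma w_eq (w : W) : (w : V ≃ₗ[ℂ] V) = mono (pr w) (vc w) := w.2.choose_spec.choose_spec.2

lemma pr_mw (σ : Perm (Fin 4)) (a : Fin 4 → ZMod 5) (h : ∑ i, a i = 0) : pr (mw σ a h) = σ :=
  (mono_inj (w_eq (mw σ a h))).1.symm
lemma vc_mw (σ : Perm (Fin 4)) (a : Fin 4 → ZMod 5) (h : ∑ i, a i = 0) : vc (mw σ a h) = a :=
  (mono_inj (w_eq (mw σ a h))).2.symm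

lemma pr_one : pr 1 = 1 := (mono_inj ((w_eq 1).symm.trans mono_one.symm)).1
lemma vc_one : vc 1 = 0 := (mono_inj ((w_eq 1).symm.trans mono_one.symm)).2
lemma prvc_mul (w w' : W) : pr (w * w') = pr w * pr w' ∧
    vc (w * w') = fun i => vc w' i + vc w (pr w' i) := by
  apply mono_inj
  rw [← mono_mul, ← w_eq, ← w_eq, ← w_eq]; rfl

instance : Finite W := by
  refine Finite.of_injective (fun w : W => (pr w, vc w)) ?_
  intro w w' h
  apply Subtype.ext
  rw [w_eq, w_eq, (Prod.mk.inj h).1, (Prod.mk.inj h).2]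

/-- the vector `k e_a - k e_b` -/
def rv (a b : Fin 4) (k : ZMod 5) : Fin 4 → ZMod 5 :=
  fun i => (if i = a then k else 0) - (if i = b then k else 0)

lemma rv_sum (a b : Fin 4) (k : ZMod 5) : ∑ i, rv a b k i = 0 := by
  simp [rv, Finset.sum_sub_distrib]

noncomputable def rf (a b : Fin 4) (k : ZMod 5) : W := mw (swap a b) (rv a b k) (rv_sum a b k)

lemma rf_isRefl {a b : Fin 4} (h : a ≠ b) (k : ZMod 5) : IsRefl (rf a b k : V ≃ₗ[ℂ] V) := by
  unfold IsRefl
  let u : V := Pi.single a 1 - e k • Pi.single b 1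
  have hu : u ≠ 0 := by
    intro h0
    have := congrFun h0 a
    simp [u, h] at this
  have : LinearMap.range (((rf a b k : V ≃ₗ[ℂ] V) : V →ₗ[ℂ] V) - LinearMap.id) =
      Submodule.span ℂ {u} := by
    have h1 : ∀ v : V, (((rf a b k : V ≃ₗ[ℂ] V) : V →ₗ[ℂ] V) - LinearMap.id : V →ₗ[ℂ] V) v =
        (e (-k) * v b - v a) • u := by
      intro v
      ext i
      change mono (swap a b) (rv a b k) v i - v i = _
      rw [mono_apply]
      by_cases ha : i = a
      · subst ha; simp [u, rv, h, h.symm]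
      · by_cases hb : i = b
        · subst hb
          simp [u, rv, h, h.symm]
          linear_combination (v i) * e_neg_mul k
        · simp [u, rv, ha, hb, swap_apply_of_ne_of_ne ha hb]
    apply le_antisymm
    · rintro _ ⟨v, rfl⟩
      rw [h1]
      exact Submodule.smul_mem _ _ (Submodule.mem_span_singleton_self u)
    · rw [Submodule.span_singleton_le_iff_mem]
      refine ⟨-Pi.single a 1, ?_⟩
      rw [h1]; simp [h.symm]
  rw [this, finrank_span_singleton hu]

lemma refl_class (w : W) (h : IsRefl (w : V ≃ₗ[ℂ] V)) :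
    ∃ a b : Fin 4, ∃ k, a < b ∧ w = rf a b k := by
  set f : V →ₗ[ℂ] V := ((w : V ≃ₗ[ℂ] V) : V →ₗ[ℂ] V) - LinearMap.id with hf
  obtain ⟨⟨u, hu⟩, hu0, hall⟩ := finrank_eq_one_iff'.1 h
  set σ := pr w
  set a := vc w
  have hfe : ∀ i j, f (Pi.single j 1) i =
      (if i = σ j then e (a j) else 0) - (if i = j then 1 else 0) := by
    intro i j
    change (w : V ≃ₗ[ℂ] V) (Pi.single j 1) i - (Pi.single j 1 : V) i = _
    rw [w_eq, mono_single]
    simp [Pi.single_apply, σ, a]
  have hminor : ∀ i j, f (Pi.single i 1) i * f (Pi.single j 1) j =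
      f (Pi.single i 1) j * f (Pi.single j 1) i := by
    intro i j
    obtain ⟨s, hs⟩ := hall ⟨f (Pi.single i 1), _, rfl⟩
    obtain ⟨t, ht⟩ := hall ⟨f (Pi.single j 1), _, rfl⟩
    have hs' : s • u = f (Pi.single i 1) := congrArg Subtype.val hs
    have ht' : t • u = f (Pi.single j 1) := congrArg Subtype.val ht
    rw [← hs', ← ht']
    simp; ring
  simp only [hfe] at hminor
  have hA : ∀ i j, i ≠ j → σ i ≠ i → σ j ≠ j → σ j = i ∧ σ i = j ∧ a i + a j = 0 := by
    intro i j hij hi hj
    have := hminor i j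
    simp only [hi.symm, hj.symm, hij, hij.symm, if_false, if_true, sub_zero, zero_sub] at this
    by_cases h1 : j = σ i
    · by_cases h2 : i = σ j
      · refine ⟨h2.symm, h1.symm, e_eq_one ?_⟩
        rw [if_pos h1, if_pos h2] at this
        rw [e_add, ← this]; norm_num
      · simp [h2] at this
    · simp [h1] at this
  have hB : ∀ i k, σ i ≠ i → σ k = k → a k = 0 := by
    intro i k hi hk
    have hik : i ≠ k := by rintro rfl; exact hi hk
    have := hminor i k
    simp only [hi.symm, hk, hik, hik.symm, if_false, if_true, sub_zero, zero_sub, mul_zero] at this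
    apply e_eq_one
    linear_combination -this
  by_cases hσ : ∀ i, σ i = i
  · exfalso
    have hC : ∀ i j, i ≠ j → a i = 0 ∨ a j = 0 := by
      intro i j hij
      have := hminor i j
      simp only [hσ, hij, hij.symm, if_false, if_true, sub_zero, mul_zero] at this
      rcases mul_eq_zero.1 this with h1 | h1
      · exact Or.inl (e_eq_one (by linear_combination h1))
      · exact Or.inr (e_eq_one (by linear_combination h1))
    have ha0 : ∀ i, a i = 0 := by
      intro i
      by_contra hi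
      have h2 := vc_sum w
      rw [Finset.sum_eq_single i] at h2
      · exact hi h2
      · intro j _ hj
        exact (hC i j hj.symm).resolve_left hi
      · simp
    apply hu0
    obtain ⟨v, hv⟩ := hu
    apply Subtype.ext
    change u = 0
    rw [← hv]
    ext i
    change (w : V ≃ₗ[ℂ] V) v i - v i = 0
    have h1 : σ⁻¹ i = i := by rw [Perm.inv_eq_iff_eq, hσ]
    rw [w_eq, mono_apply]
    change e (a (σ⁻¹ i)) * v (σ⁻¹ i) - v i = 0
    rw [h1, ha0]; simp
  · push Not at hσ
    obtain ⟨i, hi⟩ := hσ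
    have hj : σ (σ i) ≠ σ i := fun h => hi (σ.injective h)
    have key : ∀ p q : Fin 4, p ≠ q → σ p = q → σ q = p → a p + a q = 0 → w = rf p q (a p) := by
      intro p q hpq h1 h2 h3
      have hfix : ∀ k, k ≠ p → k ≠ q → σ k = k := by
        intro k hp hq
        by_contra hk
        have := (hA p k hp.symm (h1 ▸ hpq.symm) hk).2.1
        exact hq (this.symm.trans h1)
      apply Subtype.ext
      rw [w_eq]
      change mono σ a = mono (swap p q) (rv p q (a p))
      congr 1
      · ext k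
        by_cases hp : k = p
        · subst hp; simp [h1]
        · by_cases hq : k = q
          · subst hq; simp [h2]
          · rw [swap_apply_of_ne_of_ne hp hq, hfix k hp hq]
      · funext k
        by_cases hp : k = p
        · subst hp; simp [rv, hpq]
        · by_cases hq : k = q
          · subst hq
            simp only [rv, hp, if_false, if_true, zero_sub]
            linear_combination h3
          · simp only [rv, hp, hq, if_false, sub_zero]
            exact hB p k (h1 ▸ hpq.symm) (hfix k hp hq)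
    obtain ⟨h1, -, h3⟩ := hA i (σ i) hi.symm hi hj
    rcases lt_or_gt_of_ne hi with h4 | h4
    · exact ⟨σ i, i, _, h4, key _ _ hi h1 rfl (by rw [add_comm]; exact h3)⟩
    · exact ⟨i, σ i, _, h4, key _ _ hi.symm rfl h1 h3⟩

lemma rf_conj {a b : Fin 4} (h : a ≠ b) (k : ZMod 5) :
    ∃ g : W, rf a b k = g * rf 0 1 0 * g⁻¹ := by
  obtain ⟨σ, h0, h1⟩ : ∃ σ : Perm (Fin 4), σ 0 = a ∧ σ 1 = b := by
    revert a b; decide
  subst h0 h1
  refine ⟨mw σ (rv 1 2 k) (rv_sum _ _ _), ?_⟩
  rw [eq_mul_inv_iff_mul_eq]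
  apply Subtype.ext
  change mono _ _ * mono _ _ = mono _ _ * mono _ _
  rw [mono_mul, mono_mul, Equiv.mul_swap_eq_swap_mul]
  congr 1
  funext i
  fin_cases i <;> simp [rv, swap_apply_def]

lemma param_const {c : W → ℂ} (hc : IsParam W c) {a b : Fin 4} (h : a ≠ b) (k : ZMod 5) :
    c (rf a b k) = c (rf 0 1 0) := by
  obtain ⟨g, hg⟩ := rf_conj h k
  rw [hg, hc]

lemma rf_inj {a b a' b' : Fin 4} {k k' : ZMod 5} (h : a < b) (h' : a' < b')
    (he : rf a b k = rf a' b' k') : a = a' ∧ b = b' ∧ k = k' := by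
  obtain ⟨h1, h2⟩ := mono_inj (congrArg Subtype.val he)
  have h3 : a = a' ∧ b = b' := by
    have := congrArg (fun σ : Perm (Fin 4) => σ a) h1
    simp only [swap_apply_left, swap_apply_def] at this
    split_ifs at this <;> omega
  obtain ⟨rfl, rfl⟩ := h3
  have := congrFun h2 a
  simp [rv, h.ne] at this
  exact ⟨rfl, rfl, this⟩

lemma finsum_refl {B : Type} [AddCommMonoid B] (f : W → B) :
    ∑ᶠ s ∈ {s : W | IsRefl (s : V ≃ₗ[ℂ] V)}, f s =
      ∑ ab ∈ (Finset.univ.filter fun ab : Fin 4 × Fin 4 => ab.1 < ab.2),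
        ∑ k : ZMod 5, f (rf ab.1 ab.2 k) := by
  classical
  have : {s : W | IsRefl (s : V ≃ₗ[ℂ] V)} =
      ↑(((Finset.univ.filter fun ab : Fin 4 × Fin 4 => ab.1 < ab.2) ×ˢ
        (Finset.univ : Finset (ZMod 5))).image fun z => rf z.1.1 z.1.2 z.2) := by
    ext s
    simp only [Set.mem_ofPred_eq, Finset.coe_image, Set.mem_image, Finset.mem_coe,
      Finset.mem_product, Finset.mem_filter, Finset.mem_univ, true_and, and_true]
    constructor
    · intro hs
      obtain ⟨a, b, k, hab, rfl⟩ := refl_class s hs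
      exact ⟨((a, b), k), hab, rfl⟩
    · rintro ⟨⟨⟨a, b⟩, k⟩, hab, rfl⟩
      exact rf_isRefl hab.ne k
  rw [this, finsum_mem_coe_finset, Finset.sum_image, Finset.sum_product]
  rintro ⟨⟨a, b⟩, k⟩ h1 ⟨⟨a', b'⟩, k'⟩ h2 he
  simp only [Finset.coe_product, Set.mem_prod, Finset.mem_coe, Finset.mem_filter] at h1 h2
  obtain ⟨rfl, rfl, rfl⟩ := rf_inj h1.1.2 h2.1.2 he
  rfl

lemma isCRG : IsComplexReflGroup W := by
  refine ⟨inferInstance, le_antisymm ?_ ?_⟩
  · rw [Subgroup.closure_le]; exact fun x hx => hx.1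
  · set C := Subgroup.closure {s : V ≃ₗ[ℂ] V | s ∈ W ∧ IsRefl s} with hC
    have hr : ∀ a b : Fin 4, a ≠ b → ∀ k, mono (swap a b) (rv a b k) ∈ C :=
      fun a b h k => Subgroup.subset_closure ⟨(rf a b k).2, rf_isRefl h k⟩
    have hp : ∀ σ : Perm (Fin 4), mono σ 0 ∈ C := by
      intro σ
      induction σ using Perm.swap_induction_on with
      | one => rw [mono_one]; exact C.one_mem
      | swap_mul f x y hxy ih =>
        have := C.mul_mem (hr x y hxy 0) ih
        rw [mono_mul] at this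
        convert this using 2
        funext i; simp [rv]
    have ht : ∀ a b : Fin 4, a ≠ b → ∀ k, mono 1 (rv a b k) ∈ C := by
      intro a b h k
      have := C.mul_mem (hp (swap a b)) (hr a b h k)
      rw [mono_mul] at this
      convert this using 2
      · simp
      · funext i; simp
    rintro _ ⟨σ, a, ha, rfl⟩
    have := C.mul_mem (hp σ) (C.mul_mem (ht 1 0 (by decide) (a 1))
      (C.mul_mem (ht 2 0 (by decide) (a 2)) (ht 3 0 (by decide) (a 3))))
    rw [mono_mul, mono_mul, mono_mul] at this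
    convert this using 2
    · simp
    · rw [Fin.sum_univ_four] at ha
      funext i
      fin_cases i <;> simp [rv]
      linear_combination ha

end Pool.Agent.H150Z.Cher.G
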