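import Pool.Agent.H150Z.Cher.PRep
import Pool.Agent.H150Z.Cher.PAbs

/-!
Simplicity of the 120-dimensional module and the main theorem.
-/

set_option autoImplicit false
set_option linter.unusedSimpArgs false

namespace Pool.Agent.H150Z.Cher.G

open Module Pool.Agent.H150Z.Cher Equiv

lemma Lg_coord {d : ℤ} {m : M} (hm : m ∈ Lg d) {u : I} (hu : (deg u : ℤ) ≠ d) : m u = 0 := by
  induction hm using Submodule.span_induction with
  | mem x hx =>
    obtain ⟨⟨v, hv⟩, rfl⟩ := hx
    have : u ≠ v := by rintro rfl; exact hu hv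
    simp [bs, this]
  | zero => rfl
  | add x y _ _ hx hy => simp [hx, hy]
  | smul t x _ hx => simp [hx]

lemma torOp_apply (a : Fin 4 → ZMod 5) (m : M) (x : I) :
    torOp a m x = e (∑ i, a i * wt x i) * m x := by
  let D : End ℂ M :=
    { toFun := fun m x => e (∑ i, a i * wt x i) * m x
      map_add' := by intro m m'; funext x; simp [mul_add]
      map_smul' := by intro t m; funext x; simp; ring }
  have : torOp a = D := by
    refine end_ext fun u => ?_
    rw [torOp_bs]
    funext x
    change _ = e (∑ i, a i * wt x i) * bs u x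
    by_cases h : x = u
    · subst h; simp
    · simp [bs, h]
  rw [this]; rfl

lemma irr0 (N : Submodule ℂ M) (hN : ∀ w : W, ∀ m ∈ N, gOp w m ∈ N) (m : M) (hm : m ∈ N)
    (h0 : m ∈ Lg 0) (hne : m ≠ 0) : Lg 0 ≤ N := by
  classical
  have step1 : ∀ n : ℕ, ∀ m ∈ N, m ∈ Lg 0 → m ≠ 0 →
      (Finset.univ.filter fun u => m u ≠ 0).card ≤ n → ∃ u, deg u = 0 ∧ bs u ∈ N := by
    intro n
    induction n with
    | zero =>
      intro m _ _ hne hc
      exfalso; apply hne
      funext u
      by_contra hu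
      have := Finset.card_pos.2 ⟨u, (Finset.mem_filter (p := fun u => m u ≠ 0)).2
        ⟨Finset.mem_univ u, hu⟩⟩
      omega
    | succ n ih =>
      intro m hm h0 hne hc
      obtain ⟨u, hu⟩ := Function.ne_iff.1 hne
      have hu : m u ≠ 0 := hu
      have hdeg : ∀ v, m v ≠ 0 → deg v = 0 := by
        intro v hv
        by_contra h
        exact hv (Lg_coord h0 (by exact_mod_cast h))
      by_cases hs : ∀ v, v ≠ u → m v = 0
      · refine ⟨u, hdeg u hu, ?_⟩
        have : bs u = (m u)⁻¹ • m := by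
          funext v
          by_cases hv : v = u
          · subst hv; simp [bs, hu]
          · simp [bs, hv, hs v hv]
        rw [this]; exact N.smul_mem _ hm
      · push Not at hs
        obtain ⟨v, hvu, hv⟩ := hs
        obtain ⟨i, j, hij⟩ := ck_sep u v (hdeg u hu) (hdeg v hv) hvu.symm
        have h1 : ∀ x, ∑ k, rv i j 1 k * wt x k = wt x i - wt x j := by
          intro x
          simp [rv, sub_mul, Finset.sum_sub_distrib]
        have hg : gOp (mw 1 (rv i j 1) (rv_sum _ _ _)) = torOp (rv i j 1) := by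
          rw [gOp, pr_mw, vc_mw, permOp_one, one_mul]
        let m' := gOp (mw 1 (rv i j 1) (rv_sum _ _ _)) m - e (wt v i - wt v j) • m
        have hm' : ∀ x, m' x = (e (wt x i - wt x j) - e (wt v i - wt v j)) * m x := by
          intro x
          simp only [m', hg, Pi.sub_apply, torOp_apply, h1, Pi.smul_apply, smul_eq_mul]
          ring
        refine ih m' (N.sub_mem (hN _ _ hm) (N.smul_mem _ hm))
          ((Lg 0).sub_mem (g_Lg _ _ _ h0) ((Lg 0).smul_mem _ h0)) ?_ ?_
        · intro h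
          have := hm' u
          rw [h] at this
          rcases mul_eq_zero.1 this.symm with h2 | h2
          · exact hij (e_inj (sub_eq_zero.1 h2))
          · exact hu h2
        · have : (Finset.univ.filter fun u => m' u ≠ 0) ⊂
              (Finset.univ.filter fun u => m u ≠ 0) := by
            rw [Finset.ssubset_iff_of_subset]
            · exact ⟨v, by simpa using hv, by simp [hm']⟩
            · intro x hx
              simp only [Finset.mem_filter, Finset.mem_univ, true_and, hm'] at hx ⊢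
              exact right_ne_zero_of_mul hx
          have := Finset.card_lt_card this
          omega
  obtain ⟨u, hu, huN⟩ := step1 _ m hm h0 hne le_rfl
  rw [Lg, Submodule.span_le]
  rintro _ ⟨⟨v, hv⟩, rfl⟩
  obtain ⟨a, b, c, d, h⟩ := ck_trans u v hu (by exact_mod_cast hv)
  rw [← act_swap, ← act_swap, ← act_mul] at h
  have h1 := hN (mw (swap a b * swap c d) 0 (by simp)) _ huN
  rw [gOp, pr_mw, vc_mw, torOp_zero, mul_one, permOp_bs, ← h] at h1
  exact (N.smul_mem_iff (sgn_ne _ _)).1 h1

noncomputable def ρM : Representation ℂ W M where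
  toFun := gOp
  map_one' := gOp_one
  map_mul' w w' := (gOp_mul w w').symm

noncomputable def ρ0 : Representation ℂ W (Lg 0) :=
  ρM.subrepresentation (Lg 0) fun g m hm => g_Lg g 0 m hm

lemma bs_ne (u : I) : bs u ≠ 0 := by
  intro h
  have := congrFun h u
  simp [bs] at this

instance : Nontrivial (Lg 0) :=
  ⟨⟨⟨bs 0, bs_mem (by decide)⟩, 0, fun h => bs_ne 0 (congrArg Subtype.val h)⟩⟩

lemma ρ0_irr : ρ0.IsIrreducible := by
  have : Nontrivial (Subrepresentation ρ0) := ⟨⟨⊥, ⊤, fun h => by
    have h1 : (⊥ : Submodule ℂ (Lg 0)) = ⊤ := congrArg Subrepresentation.toSubmodule h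
    exact bot_ne_top h1⟩⟩
  refine ⟨fun U => ?_⟩
  by_cases h : U.toSubmodule = ⊥
  · exact Or.inl (Subrepresentation.toSubmodule_injective h)
  · right
    obtain ⟨m, hm, hne⟩ := (Submodule.ne_bot_iff _).1 h
    have := irr0 (U.toSubmodule.map (Lg 0).subtype) (by
      rintro w _ ⟨x, hx, rfl⟩
      exact ⟨ρ0 w x, U.apply_mem_toSubmodule w hx, rfl⟩) m.1 ⟨m, hm, rfl⟩ m.2
      (fun h => hne (Subtype.ext h))
    apply Subrepresentation.toSubmodule_injective
    change U.toSubmodule = ⊤
    rw [eq_top_iff]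
    intro x _
    obtain ⟨y, hy, hxy⟩ := this x.2
    rwa [← Subtype.ext hxy]

noncomputable def P0 : End ℂ M := mk fun u => if deg u = 0 then bs u else 0

lemma P0_bs (u : I) : P0 (bs u) = if deg u = 0 then bs u else 0 := mk_bs _ u

lemma top_Lg {f : End ℂ M} {N : Submodule ℂ M} (h : ∀ u : I, f (bs u) ∈ N) (m : M) : f m ∈ N := by
  have : (⊤ : Submodule ℂ M) ≤ N.comap f := by
    rw [← (Pi.basisFun ℂ I).span_eq, Submodule.span_le]
    rintro _ ⟨u, rfl⟩
    rw [Pi.basisFun_apply]; exact h u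
  exact this trivial

lemma P0_mem (m : M) : P0 m ∈ Lg 0 := top_Lg (fun u => by
  rw [P0_bs]
  split_ifs with h
  · exact bs_mem (by exact_mod_cast h)
  · exact Submodule.zero_mem _) m

lemma P0_eq {d : ℤ} (t : ℂ) (ht : t = if d = 0 then 1 else 0) : ∀ m ∈ Lg d, P0 m = t • m := by
  intro m hm
  have := map_Lg (f := P0 - t • 1) (d := d) (N := ⊥) (fun u hu => by
    subst hu
    simp only [LinearMap.sub_apply, P0_bs, ht]
    by_cases h : deg u = 0 <;> simp [h]) m hm
  simpa [sub_eq_zero] using this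

lemma P0_X (j : Fin 4) : P0 * Xo j = 0 := by
  refine end_ext fun u => ?_
  rw [End.mul_apply, P0_eq 0 (by rw [if_neg]; omega) _ (X_Lg j _ _ (bs_mem (u := u) rfl))]
  simp

lemma ZY : op (ZT 0) * Yo 0 + op (ZT 1) * Yo 1 + op (ZT 2) * Yo 2 + op (ZT 3) * Yo 3 =
    (2 : ℂ) • (1 - P0) := by
  refine end_ext fun u => ?_
  have h := vec_of_isZero (ck_Z u)
  simp only [vec_append, vec_cons, vec_nil, add_zero] at h
  simp only [LinearMap.add_apply, End.mul_apply, Yo, op_bs, op_vec, LinearMap.smul_apply,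
    LinearMap.sub_apply, End.one_apply, P0_bs]
  by_cases hd : deg u = 0
  · simp only [hd, if_true, Int.cast_zero, zero_smul, add_zero, sub_self, smul_zero] at h ⊢
    rw [← h]; abel
  · simp only [hd, if_false, sub_zero] at h ⊢
    push_cast at h
    rw [← sub_eq_zero, sub_eq_add_neg, ← neg_smul, add_assoc, add_assoc, add_assoc]
    exact h

noncomputable def Fl (d : ℕ) : Submodule ℂ M := ⨆ k ∈ Finset.range d, Lg k

lemma Y_Fl (j : Fin 4) (d : ℕ) : ∀ m ∈ Fl (d + 1), Yo j m ∈ Fl d := by
  have : Fl (d + 1) ≤ (Fl d).comap (Yo j) := by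
    refine iSup₂_le fun k hk m hm => ?_
    have h := Y_Lg j _ _ hm
    rcases k with _ | k
    · rw [Lg_bot (by simp)] at h
      rw [Submodule.mem_comap, (Submodule.mem_bot ℂ).1 h]; exact Submodule.zero_mem _
    · have h2 : ((k + 1 : ℕ) : ℤ) - 1 = k := by simp
      rw [h2] at h
      exact (le_iSup₂ (f := fun (k : ℕ) (_ : k ∈ Finset.range d) => Lg k) k
        (by simpa using hk)) h
  exact fun m hm => this hm

lemma mem_Fl (m : M) : m ∈ Fl 5 :=
  top_Lg (f := 1) (fun u => (le_iSup₂ (f := fun (k : ℕ) (_ : k ∈ Finset.range 5) => Lg k) (deg u)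
    (by have := ck_deg u; simp; omega)) (bs_mem rfl)) m

lemma pre_eq {u : I} (h : deg u ≠ 0) :
    bs u = (pc u : ℂ) • Xo (pj u) (bs (pu u)) ∧ deg (pu u) + 1 = deg u := by
  obtain ⟨h1, h2⟩ := ck_pre u h
  constructor
  · rw [Xo, op_bs, h1, vec_cons, vec_nil, add_zero, smul_smul, ← Int.cast_mul, h2]; simp
  · have := (ck_X (pj u) (pu u) (u, pc u) (by rw [h1]; simp)).1
    exact this.symm

lemma simple_aux (N : Submodule ℂ M) (hg : ∀ w : W, ∀ m ∈ N, gOp w m ∈ N)
    (hX : ∀ j, ∀ m ∈ N, Xo j m ∈ N) (hY : ∀ j, ∀ m ∈ N, Yo j m ∈ N) (m : M) (hm : m ∈ N)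
    (hne : m ≠ 0) : N = ⊤ := by
  have step : ∀ d : ℕ, ∀ m ∈ N, m ≠ 0 → m ∈ Fl d → Lg 0 ≤ N := by
    intro d
    induction d with
    | zero => intro m _ hne h; exact absurd (by simpa [Fl] using h) hne
    | succ d ih =>
      intro m hm hne h
      by_cases hy : ∀ j, Yo j m = 0
      · have h1 := DFunLike.congr_fun ZY m
        simp only [LinearMap.add_apply, End.mul_apply, hy, map_zero, add_zero,
          LinearMap.smul_apply, LinearMap.sub_apply, End.one_apply] at h1
        have h2 : m = P0 m := sub_eq_zero.1 ((smul_eq_zero.1 h1.symm).resolve_left two_ne_zero)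
        exact irr0 N hg m hm (h2 ▸ P0_mem m) hne
      · push Not at hy
        obtain ⟨j, hj⟩ := hy
        exact ih _ (hY j m hm) hj (Y_Fl j d m h)
  have h0 := step 5 m hm hne (mem_Fl m)
  have hall : ∀ n : ℕ, ∀ u, deg u = n → bs u ∈ N := by
    intro n
    induction n with
    | zero => intro u hu; exact h0 (bs_mem (by exact_mod_cast hu))
    | succ n ih =>
      intro u hu
      obtain ⟨h1, h2⟩ := pre_eq (u := u) (by omega)
      rw [h1]
      exact N.smul_mem _ (hX _ _ (ih _ (by omega)))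
  rw [eq_top_iff]
  intro x _
  exact top_Lg (f := 1) (fun u => hall _ u rfl) x

theorem main_generic {H : Type} [Ring H] [Algebra ℂ H] (γ : Gen W → H) (κ : ℂ) (hκ : κ ≠ 0)
    (φ : H →ₐ[ℂ] End ℂ M) (hφy : ∀ v, φ (γ (Gen.y v)) = YL κ v)
    (hφx : ∀ x, φ (γ (Gen.x x)) = XL x) (hφw : ∀ w, φ (γ (Gen.w w)) = gOp w)
    (hind : ∀ p : H → Prop, (∀ r : ℂ, p (algebraMap ℂ H r)) → (∀ z, p (γ z)) →
      (∀ a b, p a → p b → p (a + b)) → (∀ a b, p a → p b → p (a * b)) → ∀ a, p a)
    (hwx : ∀ (g : W) x, ∃ x', γ (Gen.w g) * γ (Gen.x x) = γ (Gen.x x') * γ (Gen.w g))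
    (hyx : ∀ y x, γ (Gen.y y) * γ (Gen.x x) - γ (Gen.x x) * γ (Gen.y y) ∈
      Submodule.span ℂ (Set.range fun g : W => γ (Gen.w g)))
    (hx : ∀ x, γ (Gen.x x) ∈ Submodule.span ℂ
      (Set.range fun j : Fin 4 => γ (Gen.x (LinearMap.proj j))))
    (hxx : ∀ x x', γ (Gen.x x) * γ (Gen.x x') = γ (Gen.x x') * γ (Gen.x x))
    (hnil : ∀ j : Fin 4, IsNilpotent (γ (Gen.x (LinearMap.proj j)))) (i : ℤ) :
    headDim γ ρ0 i = finrank ℂ (Lg i) := by
  let _ : Module H M := Module.compHom M φ.toRingHom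
  have hs : ∀ (a : H) (m : M), a • m = φ a m := fun _ _ => rfl
  have : IsScalarTower ℂ H M := ⟨fun t a m => by rw [hs, hs, map_smul]; rfl⟩
  have hXs : ∀ j m, γ (Gen.x (LinearMap.proj j)) • m = Xo j m := by
    intro j m; rw [hs, hφx, XL_proj]
  have : IsSimpleModule H M := by
    have : Nontrivial M := ⟨⟨bs 0, 0, bs_ne 0⟩⟩
    rw [isSimpleModule_iff]
    refine ⟨fun N => ?_⟩
    by_cases h : N = ⊥
    · exact Or.inl h
    · right
      obtain ⟨m, hm, hne⟩ := (Submodule.ne_bot_iff _).1 h
      have := simple_aux (N.restrictScalars ℂ)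
        (fun w m hm => by rw [← hφw, ← hs]; exact N.smul_mem _ hm)
        (fun j m hm => by rw [← hXs]; exact N.smul_mem _ hm)
        (fun j m hm => by
          have h1 : γ (Gen.y (Pi.single j 1)) • m ∈ N.restrictScalars ℂ := N.smul_mem _ hm
          rw [hs, hφy, YL_single, LinearMap.smul_apply] at h1
          exact ((N.restrictScalars ℂ).smul_mem_iff hκ).1 h1) m hm hne
      rw [eq_top_iff]
      intro x _
      have h2 : x ∈ N.restrictScalars ℂ := by rw [this]; trivial
      exact h2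
  have hgen : ∀ (z : Gen W) (d : ℤ), ∀ m ∈ Lg d, γ z • m ∈ Lg (genDeg z + d) := by
    rintro (y | x | w) d m hm
    · rw [hs, hφy, YL_apply, LinearMap.sum_apply]
      refine Submodule.sum_mem _ fun j _ => Submodule.smul_mem _ _ (Submodule.smul_mem _ _ ?_)
      have := Y_Lg j d m hm
      rwa [sub_eq_neg_add] at this
    · rw [hs, hφx, XL_apply, LinearMap.sum_apply]
      refine Submodule.sum_mem _ fun j _ => Submodule.smul_mem _ _ ?_
      have := X_Lg j d m hm
      rwa [add_comm] at this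
    · rw [hs, hφw]
      have := g_Lg w d m hm
      rwa [← zero_add d] at this
  rw [headDim_eq γ ρ0 (M := M) (fun j : Fin 4 => (LinearMap.proj j : Dual ℂ V)) hind hwx hyx hx hxx
    hnil (Lg 0).subtype ?_ ?_ (LinearMap.codRestrict (Lg 0) P0 P0_mem) ?_ ?_ i]
  · set S : ℤ → Submodule ℂ M := fun i => Submodule.span ℂ {m : M | ∃ (l : List (Gen W)) (v : Lg 0),
      (l.map genDeg).sum = i ∧ m = (l.map γ).prod • (Lg 0).subtype v} with hS
    have h1 : S i = Lg i := by
      apply le_antisymm
      · rw [Submodule.span_le]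
        rintro _ ⟨l, v, rfl, rfl⟩
        induction l with
        | nil => simp
        | cons z l ih =>
          rw [List.map_cons, List.map_cons, List.prod_cons, List.sum_cons, mul_smul]
          exact hgen z _ _ ih
      · have hXS : ∀ (j : Fin 4) (d : ℤ), ∀ m ∈ S d, Xo j m ∈ S (1 + d) := by
          intro j d
          have : S d ≤ (S (1 + d)).comap (Xo j) := by
            rw [Submodule.span_le]
            rintro _ ⟨l, v, rfl, rfl⟩
            refine Submodule.subset_span ⟨Gen.x (LinearMap.proj j) :: l, v, by simp [genDeg], ?_⟩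
            rw [List.map_cons, List.prod_cons, mul_smul, hXs]
          exact fun m hm => this hm
        have hall : ∀ n : ℕ, ∀ u, deg u = n → bs u ∈ S n := by
          intro n
          induction n with
          | zero =>
            intro u hu
            exact Submodule.subset_span ⟨[], ⟨bs u, bs_mem (by exact_mod_cast hu)⟩, rfl, by simp⟩
          | succ n ih =>
            intro u hu
            obtain ⟨h1, h2⟩ := pre_eq (u := u) (by omega)
            rw [h1, Nat.cast_succ, add_comm]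
            exact Submodule.smul_mem _ _ (hXS _ _ _ (ih _ (by omega)))
        rw [Lg, Submodule.span_le]
        rintro _ ⟨⟨u, rfl⟩, rfl⟩
        exact hall _ u rfl
    rw [← h1]
  · intro y v
    have := hgen (Gen.y y) 0 _ v.2
    rwa [Lg_bot (by simp [genDeg])] at this
  · intro g v
    rw [hs, hφw]; rfl
  · intro v
    apply Subtype.ext
    have := P0_eq 1 (by simp) _ v.2
    simpa using this
  · intro j m
    apply Subtype.ext
    rw [hXs]
    exact DFunLike.congr_fun (P0_X j) m

theorem poincare_eq {c : W → ℂ} (hc : IsParam W c) (h0 : c (rf 0 1 0) ≠ 0) (i : ℤ) :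
    poincare W c ρ0 i = finrank ℂ (Lg i) := by
  have hR := isRep_self W c
  refine main_generic (H := RRCA W c) (gen W c) (5 * c (rf 0 1 0)) (mul_ne_zero (by norm_num) h0)
    (isRep hc).lift (isRep hc).lift_ry (isRep hc).lift_rx (isRep hc).lift_rw ?_ ?_ ?_ ?_ hR.xx
    (fun j => nilp hR j) i
  · intro p h1 h2 h3 h4
    exact RRCA_induction p h1 (fun y => h2 (Gen.y y)) (fun y => h2 (Gen.x y))
      (fun y => h2 (Gen.w y)) h3 h4
  · exact fun g x => ⟨_, hR.wx g x⟩
  · intro y x
    have := hR.yx y x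
    change ry W c y * rx W c x - rx W c x * ry W c y ∈ _
    rw [this, finsum_mem_eq_finite_toFinset_sum _ (Set.toFinite _)]
    exact Submodule.neg_mem _ (Submodule.sum_mem _ fun s _ =>
      Submodule.smul_mem _ _ (Submodule.subset_span ⟨s, rfl⟩))
  · intro x
    change rx W c x ∈ _
    rw [dual_eq x, map_sum]
    refine Submodule.sum_mem _ fun j _ => ?_
    rw [map_smul]
    exact Submodule.smul_mem _ _ (Submodule.subset_span ⟨j, rfl⟩)

theorem not_pal {c : W → ℂ} (hc : IsParam W c) (h0 : c (rf 0 1 0) ≠ 0) :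
    ¬ Palindromic (poincare W c ρ0) := by
  rintro ⟨d, hd⟩
  simp only [poincare_eq hc h0] at hd
  have e0 : finrank ℂ (Lg 0) = 12 := (finrank_Lg 0).trans ck_c0
  have e1 : finrank ℂ (Lg 1) = 24 := (finrank_Lg 1).trans ck_c1
  have e3 : finrank ℂ (Lg 3) = 36 := (finrank_Lg 3).trans ck_c3
  have e4 : finrank ℂ (Lg 4) = 12 := (finrank_Lg 4).trans ck_c4
  have hz : ∀ i : ℤ, i < 0 ∨ 4 < i → finrank ℂ (Lg i) = 0 := by
    intro i hi; rw [Lg_bot hi]; simp
  have h1 : ¬ (d - 0 < 0 ∨ 4 < d - 0) := by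
    intro h; have := hd 0; rw [hz _ h, e0] at this; omega
  have h2 : ¬ (d - 4 < 0 ∨ 4 < d - 4) := by
    intro h; have := hd 4; rw [hz _ h, e4] at this; omega
  have h3 : d = 4 := by omega
  subst h3
  have := hd 1
  rw [e1, show (4 : ℤ) - 1 = 3 by norm_num, e3] at this
  omega

theorem not_generic : ¬ Generically W (fun c => Palindromic (poincare W c ρ0)) := by
  rintro ⟨F, ⟨c, hc, hF⟩, hall⟩
  let q : Polynomial ℂ := MvPolynomial.aeval (fun _ => Polynomial.X) F
  have hq : ∀ t : ℂ, q.eval t = MvPolynomial.eval (fun _ => t) F := by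
    intro t
    have : (Polynomial.aeval t).comp (MvPolynomial.aeval fun _ : Refl W => (Polynomial.X : Polynomial ℂ)) =
        MvPolynomial.aeval (fun _ : Refl W => t) := by
      ext s; simp
    have h := DFunLike.congr_fun this F
    simpa [q] using h
  have hc' : (fun s : Refl W => c s.1) = fun _ => c (rf 0 1 0) := by
    funext s
    obtain ⟨a, b, k, hab, hs⟩ := refl_class s.1 s.2
    rw [hs, param_const hc hab.ne]
  rw [hc', ← hq] at hF
  have hq0 : q * Polynomial.X ≠ 0 := by
    refine mul_ne_zero ?_ Polynomial.X_ne_zero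
    rintro h
    rw [h] at hF
    simp at hF
  obtain ⟨t, ht⟩ : ∃ t : ℂ, (q * Polynomial.X).eval t ≠ 0 := by
    by_contra hn
    push Not at hn
    exact hq0 (Polynomial.funext (by simpa using hn))
  rw [Polynomial.eval_mul, Polynomial.eval_X] at ht
  refine not_pal (c := fun _ => t) (fun _ _ => rfl) (right_ne_zero_of_mul ht)
    (hall _ ⟨fun _ _ => rfl, ?_⟩)
  rw [← hq]
  exact left_ne_zero_of_mul ht

end Pool.Agent.H150Z.Cher.G
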