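import Pool.Agent.H150Z.Cher.PGroup
import Pool.Agent.H150Z.Cher.PData

/-!
The operators on the 120-dimensional module.
-/

set_option autoImplicit false
set_option linter.unusedSimpArgs false

namespace Pool.Agent.H150Z.Cher.G

open Module Pool.Agent.H150Z.Cher Equiv

abbrev M : Type := I → ℂ

noncomputable def bs (u : I) : M := Pi.single u 1

noncomputable def vec (l : L) : M := (l.map fun p => (p.2 : ℂ) • bs p.1).sum

@[simp] lemma vec_nil : vec [] = 0 := rfl
lemma vec_cons (p : I × ℤ) (l : L) : vec (p :: l) = (p.2 : ℂ) • bs p.1 + vec l := by simp [vec]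
lemma vec_append (l l' : L) : vec (l ++ l') = vec l + vec l' := by simp [vec]
lemma vec_scal (t : ℤ) (l : L) : vec (scal t l) = (t : ℂ) • vec l := by
  induction l with
  | nil => simp [scal]
  | cons p l ih =>
    have : scal t (p :: l) = (p.1, t * p.2) :: scal t l := rfl
    rw [this, vec_cons, vec_cons, ih, smul_add, smul_smul]; simp

lemma vec_apply (l : L) (i : I) : vec l i = (coef l i : ℂ) := by
  induction l with
  | nil => simp [coef]
  | cons p l ih =>
    have : coef (p :: l) i = (if p.1 = i then p.2 else 0) + coef l i := by simp [coef]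
    rw [this, vec_cons, Pi.add_apply, ih]
    by_cases h : p.1 = i
    · simp [bs, h]
    · simp [bs, h, Pi.single_apply, Ne.symm h]

lemma vec_of_isZero {l : L} (h : isZero l = true) : vec l = 0 := by
  ext i
  rw [vec_apply]
  by_cases hi : ∃ p ∈ l, p.1 = i
  · obtain ⟨p, hp, rfl⟩ := hi
    have := List.all_eq_true.1 h p hp
    simp at this
    simp [this]
  · push Not at hi
    have : coef l i = 0 := by
      apply List.sum_eq_zero
      intro x hx
      obtain ⟨p, hp, rfl⟩ := List.mem_map.1 hx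
      simp [hi p hp]
    simp [this]

noncomputable def mk (f : I → M) : End ℂ M := (Pi.basisFun ℂ I).constr ℂ f

lemma mk_bs (f : I → M) (u : I) : mk f (bs u) = f u := by
  have := (Pi.basisFun ℂ I).constr_basis ℂ f u
  rwa [Pi.basisFun_apply] at this

lemma end_ext {f g : End ℂ M} (h : ∀ u, f (bs u) = g (bs u)) : f = g := by
  refine (Pi.basisFun ℂ I).ext fun u => ?_
  rw [Pi.basisFun_apply]; exact h u

noncomputable def op (T : I → L) : End ℂ M := mk fun u => vec (T u)

lemma op_bs (T : I → L) (u : I) : op T (bs u) = vec (T u) := mk_bs _ u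

lemma op_vec (T : I → L) (l : L) : op T (vec l) = vec (bind T l) := by
  induction l with
  | nil => simp [bind]
  | cons p l ih =>
    have : bind T (p :: l) = scal p.2 (T p.1) ++ bind T l := by simp [bind]
    rw [this, vec_cons, vec_append, map_add, ih, map_smul, op_bs, vec_scal]

lemma op_comm {T T' U U' : I → L}
    (h : ∀ u, isZero (bind T (T' u) ++ scal (-1) (bind U (U' u))) = true) :
    op T * op T' = op U * op U' := by
  refine end_ext fun u => ?_
  have := vec_of_isZero (h u)
  rw [vec_append, vec_scal] at this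
  rw [End.mul_apply, End.mul_apply, op_bs, op_bs, op_vec, op_vec, ← sub_eq_zero]
  simpa [sub_eq_add_neg] using this

def act (σ : Perm (Fin 4)) (u : I) : I := actF σ u

lemma act_lab (σ : Perm (Fin 4)) (u : I) : orb (act σ u) = orb u ∧ lp (act σ u) = σ (lp u) ∧
    lq (act σ u) = σ (lq u) ∧ lr (act σ u) = σ (lr u) :=
  ck_lab u _ _ _ σ.injective.eq_iff σ.injective.eq_iff σ.injective.eq_iff

lemma act_one (u : I) : act 1 u = u := ck_idx u

lemma act_mul (σ τ : Perm (Fin 4)) (u : I) : act (σ * τ) u = act σ (act τ u) := by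
  obtain ⟨h1, h2, h3, h4⟩ := act_lab τ u
  conv_rhs => rw [act, actF, h1, h2, h3, h4]
  rfl

lemma chi_act (σ : Perm (Fin 4)) (u : I) : chi (act σ u) = chi u := by
  rw [chi, (act_lab σ u).1, chi]

lemma deg_act (σ : Perm (Fin 4)) (u : I) : deg (act σ u) = deg u := by
  rw [deg, (act_lab σ u).1, deg]

lemma swap_eq (a b : Fin 4) : (swap a b : Fin 4 → Fin 4) = sw a b := by
  funext k; rw [swap_apply_def]; rfl

lemma act_swap (a b : Fin 4) (u : I) : act (swap a b) u = actF (sw a b) u := by
  rw [act, swap_eq]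

lemma wt_act (σ : Perm (Fin 4)) (u : I) (k : Fin 4) : wt (act σ u) (σ k) = wt u k := by
  induction σ using Perm.swap_induction_on with
  | one => rw [act_one]; rfl
  | swap_mul f x y _ ih =>
    rw [act_mul, act_swap, Perm.mul_apply, swap_eq, ck_swwt, ih]

noncomputable def sgn (σ : Perm (Fin 4)) (u : I) : ℂ :=
  if chi u then ((Perm.sign σ : ℤ) : ℂ) else 1

lemma sgn_ne (σ : Perm (Fin 4)) (u : I) : sgn σ u ≠ 0 := by
  unfold sgn; split_ifs <;> simp

noncomputable def permOp (σ : Perm (Fin 4)) : End ℂ M := mk fun u => sgn σ u • bs (act σ u)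

noncomputable def torOp (a : Fin 4 → ZMod 5) : End ℂ M :=
  mk fun u => e (∑ i, a i * wt u i) • bs u

lemma permOp_bs (σ : Perm (Fin 4)) (u : I) : permOp σ (bs u) = sgn σ u • bs (act σ u) := mk_bs _ u
lemma torOp_bs (a : Fin 4 → ZMod 5) (u : I) :
    torOp a (bs u) = e (∑ i, a i * wt u i) • bs u := mk_bs _ u

lemma permOp_one : permOp 1 = 1 := end_ext fun u => by simp [permOp_bs, act_one, sgn]

lemma permOp_mul (σ τ : Perm (Fin 4)) : permOp (σ * τ) = permOp σ * permOp τ := by
  refine end_ext fun u => ?_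
  rw [End.mul_apply, permOp_bs, permOp_bs, map_smul, permOp_bs, act_mul, smul_smul]
  congr 1
  simp only [sgn, chi_act]
  split_ifs <;> simp [mul_comm]

lemma torOp_zero : torOp 0 = 1 := end_ext fun u => by simp [torOp_bs]

lemma torOp_mul (a b : Fin 4 → ZMod 5) : torOp a * torOp b = torOp fun i => b i + a i := by
  refine end_ext fun u => ?_
  rw [End.mul_apply, torOp_bs, torOp_bs, map_smul, torOp_bs, smul_smul, ← e_add,
    ← Finset.sum_add_distrib]
  simp only [add_mul]

lemma tor_perm (a : Fin 4 → ZMod 5) (τ : Perm (Fin 4)) :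
    torOp a * permOp τ = permOp τ * torOp fun i => a (τ i) := by
  refine end_ext fun u => ?_
  rw [End.mul_apply, End.mul_apply, torOp_bs, permOp_bs, map_smul, map_smul, torOp_bs, permOp_bs,
    smul_comm, ← Equiv.sum_comp τ]
  simp only [wt_act]

noncomputable def gOp (w : W) : End ℂ M := permOp (pr w) * torOp (vc w)

lemma gOp_one : gOp 1 = 1 := by rw [gOp, pr_one, vc_one, permOp_one, torOp_zero, one_mul]

lemma gOp_mul (w w' : W) : gOp w * gOp w' = gOp (w * w') := by
  rw [gOp, gOp, gOp, (prvc_mul w w').1, (prvc_mul w w').2, permOp_mul, mul_assoc,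
    ← mul_assoc (torOp _), tor_perm, mul_assoc, torOp_mul, mul_assoc]

lemma permOp_swap {a b : Fin 4} (h : a ≠ b) : permOp (swap a b) = op (ST a b) := by
  refine end_ext fun u => ?_
  rw [permOp_bs, op_bs, ST, vec_cons, act_swap, sgn, Perm.sign_swap h]
  split_ifs <;> simp

noncomputable def Xo (j : Fin 4) : End ℂ M := op (XT j)
noncomputable def Yo (j : Fin 4) : End ℂ M := op (YT j)

lemma perm_X (σ : Perm (Fin 4)) (j : Fin 4) : permOp σ * Xo j = Xo (σ j) * permOp σ := by
  induction σ using Perm.swap_induction_on with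
  | one => simp [permOp_one]
  | swap_mul f x y h ih =>
    rw [permOp_mul, mul_assoc, ih, ← mul_assoc, ← mul_assoc, permOp_swap h, Perm.mul_apply,
      swap_eq, Xo, Xo, op_comm (ck_SX x y h (f j))]

lemma perm_Y (σ : Perm (Fin 4)) (j : Fin 4) : permOp σ * Yo j = Yo (σ j) * permOp σ := by
  induction σ using Perm.swap_induction_on with
  | one => simp [permOp_one]
  | swap_mul f x y h ih =>
    rw [permOp_mul, mul_assoc, ih, ← mul_assoc, ← mul_assoc, permOp_swap h, Perm.mul_apply,
      swap_eq, Yo, Yo, op_comm (ck_SY x y h (f j))]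

lemma tor_vec (a : Fin 4 → ZMod 5) (t : ℂ) (l : L)
    (h : ∀ p ∈ l, e (∑ i, a i * wt p.1 i) = t) : torOp a (vec l) = t • vec l := by
  induction l with
  | nil => simp
  | cons p l ih =>
    rw [vec_cons, map_add, ih (fun q hq => h q (List.mem_cons_of_mem _ hq)), map_smul, torOp_bs,
      h p List.mem_cons_self, smul_add, smul_comm]

lemma tor_X (a : Fin 4 → ZMod 5) (j : Fin 4) : torOp a * Xo j = e (-a j) • (Xo j * torOp a) := by
  refine end_ext fun u => ?_
  rw [LinearMap.smul_apply, End.mul_apply, End.mul_apply, torOp_bs, map_smul, Xo, op_bs,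
    smul_smul, ← e_add]
  apply tor_vec
  intro p hp
  congr 1
  simp only [(ck_X j u p hp).2, mul_sub, Finset.sum_sub_distrib]
  simp; ring

lemma tor_Y (a : Fin 4 → ZMod 5) (j : Fin 4) : torOp a * Yo j = e (a j) • (Yo j * torOp a) := by
  refine end_ext fun u => ?_
  rw [LinearMap.smul_apply, End.mul_apply, End.mul_apply, torOp_bs, map_smul, Yo, op_bs,
    smul_smul, ← e_add]
  apply tor_vec
  intro p hp
  congr 1
  simp only [(ck_Y j u p hp).2, mul_add, Finset.sum_add_distrib]
  simp; ring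

lemma g_X (w : W) (j : Fin 4) : gOp w * Xo j = e (-vc w j) • (Xo (pr w j) * gOp w) := by
  rw [gOp, mul_assoc, tor_X, mul_smul_comm, ← mul_assoc, perm_X, mul_assoc]

lemma g_Y (w : W) (j : Fin 4) : gOp w * Yo j = e (vc w j) • (Yo (pr w j) * gOp w) := by
  rw [gOp, mul_assoc, tor_Y, mul_smul_comm, ← mul_assoc, perm_Y, mul_assoc]

lemma X_comm (i j : Fin 4) : Xo i * Xo j = Xo j * Xo i := op_comm (ck_XX i j)
lemma Y_comm (i j : Fin 4) : Yo i * Yo j = Yo j * Yo i := op_comm (ck_YY i j)

lemma X4 : Xo 0 * Xo 1 * Xo 2 * Xo 3 = 0 := by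
  refine end_ext fun u => ?_
  simp only [End.mul_apply, Xo, op_bs, op_vec]
  exact vec_of_isZero (ck_X4 u)

lemma Y4 : Yo 0 * Yo 1 * Yo 2 * Yo 3 = 0 := by
  refine end_ext fun u => ?_
  simp only [End.mul_apply, Yo, op_bs, op_vec]
  exact vec_of_isZero (ck_Y4 u)

/-- the graded pieces -/
noncomputable def Lg (d : ℤ) : Submodule ℂ M :=
  Submodule.span ℂ (Set.range fun u : {u : I // (deg u : ℤ) = d} => bs u.1)

lemma bs_mem {d : ℤ} {u : I} (h : (deg u : ℤ) = d) : bs u ∈ Lg d :=
  Submodule.subset_span ⟨⟨u, h⟩, rfl⟩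

lemma vec_mem {d : ℤ} {l : L} (h : ∀ p ∈ l, (deg p.1 : ℤ) = d) : vec l ∈ Lg d := by
  induction l with
  | nil => simp
  | cons p l ih =>
    rw [vec_cons]
    exact Submodule.add_mem _ (Submodule.smul_mem _ _ (bs_mem (h p List.mem_cons_self)))
      (ih fun q hq => h q (List.mem_cons_of_mem _ hq))

lemma map_Lg {f : End ℂ M} {d : ℤ} {N : Submodule ℂ M}
    (h : ∀ u : I, (deg u : ℤ) = d → f (bs u) ∈ N) : ∀ m ∈ Lg d, f m ∈ N := by
  have : Lg d ≤ N.comap f := by
    rw [Lg, Submodule.span_le]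
    rintro _ ⟨u, rfl⟩
    exact h u.1 u.2
  exact fun m hm => this hm

lemma X_Lg (j : Fin 4) (d : ℤ) : ∀ m ∈ Lg d, Xo j m ∈ Lg (d + 1) :=
  map_Lg fun u hu => by
    rw [Xo, op_bs]
    exact vec_mem fun p hp => by rw [(ck_X j u p hp).1, ← hu]; simp

lemma Y_Lg (j : Fin 4) (d : ℤ) : ∀ m ∈ Lg d, Yo j m ∈ Lg (d - 1) :=
  map_Lg fun u hu => by
    rw [Yo, op_bs]
    exact vec_mem fun p hp => by rw [← hu, ← (ck_Y j u p hp).1]; simp

lemma g_Lg (w : W) (d : ℤ) : ∀ m ∈ Lg d, gOp w m ∈ Lg d :=
  map_Lg fun u hu => by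
    rw [gOp, End.mul_apply, torOp_bs, map_smul, permOp_bs]
    exact Submodule.smul_mem _ _ (Submodule.smul_mem _ _ (bs_mem (by rw [deg_act, hu])))

lemma Lg_bot {d : ℤ} (h : d < 0 ∨ 4 < d) : Lg d = ⊥ := by
  rw [Lg, Submodule.span_eq_bot]
  rintro _ ⟨⟨u, hu⟩, rfl⟩
  have := ck_deg u
  omega

lemma finrank_Lg (d : ℕ) : finrank ℂ (Lg d) = (Finset.univ.filter fun u : I => deg u = d).card := by
  have hli : LinearIndependent ℂ fun u : {u : I // (deg u : ℤ) = d} => bs u.1 := by
    have := (Pi.basisFun ℂ I).linearIndependent.comp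
      (fun u : {u : I // (deg u : ℤ) = d} => u.1) Subtype.val_injective
    convert this using 1
    funext u; simp [bs]
  rw [Lg, finrank_span_eq_card hli, Fintype.card_subtype]
  simp

lemma X_pow (j : Fin 4) : Xo j ^ 5 = 0 := by
  refine end_ext fun u => ?_
  have h := X_Lg j _ _ (X_Lg j _ _ (X_Lg j _ _ (X_Lg j _ _ (X_Lg j _ _ (bs_mem (u := u) rfl)))))
  rw [Lg_bot (by omega)] at h
  simpa [pow_succ] using h

lemma Y_pow (j : Fin 4) : Yo j ^ 5 = 0 := by
  refine end_ext fun u => ?_
  have h := Y_Lg j _ _ (Y_Lg j _ _ (Y_Lg j _ _ (Y_Lg j _ _ (Y_Lg j _ _ (bs_mem (u := u) rfl)))))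
  have := ck_deg u
  rw [Lg_bot (by omega)] at h
  simpa [pow_succ] using h

lemma vec_flatMap {α : Type} (f : α → L) (l : List α) :
    vec (l.flatMap f) = (l.map fun a => vec (f a)).sum := by
  induction l with
  | nil => simp
  | cons a l ih => simp [vec_append, ih]

lemma YX_bs (p q : Fin 4) (u : I) : (Yo p * Xo q - Xo q * Yo p) (bs u) =
    -∑ ab ∈ (Finset.univ.filter fun ab : Fin 4 × Fin 4 => ab.1 < ab.2),
      (gco ab.1 ab.2 p q u : ℂ) • permOp (swap ab.1 ab.2) (bs u) := by
  have h := vec_of_isZero (ck_YX p q u)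
  rw [vec_append, vec_append, vec_scal, vec_flatMap] at h
  have h1 : (Finset.univ.filter fun ab : Fin 4 × Fin 4 => ab.1 < ab.2) = pairs.toFinset := by
    decide
  have h2 : pairs.Nodup := by decide
  have h3 : ∀ ab ∈ pairs, ab.1 ≠ ab.2 := by decide
  rw [h1, List.sum_toFinset _ h2, LinearMap.sub_apply, End.mul_apply, End.mul_apply, Xo, Yo, op_bs,
    op_bs, op_vec, op_vec]
  have h4 : (pairs.map fun ab => (gco ab.1 ab.2 p q u : ℂ) • permOp (swap ab.1 ab.2) (bs u)) =
      pairs.map fun ab => vec (scal (gco ab.1 ab.2 p q u) (ST ab.1 ab.2 u)) := by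
    refine List.map_congr_left fun ab hab => ?_
    rw [vec_scal, permOp_swap (h3 ab hab), op_bs]
  rw [h4, eq_neg_iff_add_eq_zero, ← h]
  simp [sub_eq_add_neg, add_assoc]

lemma ksum {a b : Fin 4} (hab : a ≠ b) (p q : Fin 4) (u : I) :
    ∑ k : ZMod 5, ((Pi.single p 1 : V) q -
      (mono (swap a b) (rv a b k)).symm (Pi.single p 1) q) * e (∑ i, rv a b k i * wt u i) =
      5 * (gco a b p q u : ℂ) := by
  have h1 : ∀ k, ∑ i, rv a b k i * wt u i = k * (wt u a - wt u b) := by
    intro k
    simp [rv, sub_mul, Finset.sum_sub_distrib, mul_sub]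
  simp only [h1, mono_symm_apply]
  set δ := wt u a - wt u b with hδ
  unfold gco
  rw [← hδ]
  by_cases hpq : p = q
  · subst hpq
    by_cases hp : p = a ∨ p = b
    · have : swap a b p ≠ p := by
        rcases hp with rfl | rfl
        · simpa using hab.symm
        · simpa using hab
      simp only [Pi.single_eq_same, Pi.single_eq_of_ne this, mul_zero, sub_zero, one_mul, e_sum,
        hp, true_and, if_true]
      split_ifs <;> simp
    · have hp' := not_or.1 hp
      simp [swap_apply_of_ne_of_ne hp'.1 hp'.2, rv, hp'.1, hp'.2]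
  · rw [if_neg hpq]
    by_cases h2 : p = a ∧ q = b
    · obtain ⟨rfl, rfl⟩ := h2
      have h3 : ∀ k : ZMod 5, ((Pi.single p 1 : V) q - e (-rv p q k q) *
          (Pi.single p 1 : V) (swap p q q)) * e (k * δ) = -e (k * (1 + δ)) := by
        intro k
        simp [rv, hab, hab.symm, mul_add, e_add]
      simp only [h3, Finset.sum_neg_distrib, e_sum, and_self, if_true]
      split_ifs <;> simp
    · rw [if_neg h2]
      by_cases h3 : p = b ∧ q = a
      · obtain ⟨rfl, rfl⟩ := h3
        have h4 : ∀ k : ZMod 5, ((Pi.single p 1 : V) q - e (-rv q p k q) *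
            (Pi.single p 1 : V) (swap q p q)) * e (k * δ) = -e (k * (-1 + δ)) := by
          intro k
          simp [rv, hab, hab.symm, mul_add, e_add]
        simp only [h4, Finset.sum_neg_distrib, e_sum, and_self, if_true]
        split_ifs <;> simp
      · rw [if_neg h3]
        have h4 : swap a b q ≠ p := by
          rw [swap_apply_def]
          split_ifs with h5 h6
          · rintro rfl; exact h3 ⟨rfl, h5⟩
          · rintro rfl; exact h2 ⟨rfl, h6⟩
          · exact Ne.symm hpq
        simp [Pi.single_eq_of_ne h4, Pi.single_eq_of_ne (Ne.symm hpq)]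

end Pool.Agent.H150Z.Cher.G
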