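import Pool.Agent.H150Z.Cher.PMod

/-!
The operators define a representation of the restricted rational Cherednik algebra.
-/

set_option autoImplicit false
set_option linter.unusedSimpArgs false
set_option linter.deprecated false

namespace Pool.Agent.H150Z.Cher.G

open Module Pool.Agent.H150Z.Cher Equiv

lemma exists_hom {B : Type} [Ring B] [Algebra ℂ B] (a : Fin 4 → B)
    (h : ∀ i j, a i * a j = a j * a i) :
    ∃ φ : MvPolynomial (Fin 4) ℂ →ₐ[ℂ] B, ∀ j, φ (MvPolynomial.X j) = a j := by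
  let _ : CommRing (Algebra.adjoin ℂ (Set.range a)) := Algebra.adjoinCommRingOfComm ℂ (by
    rintro _ ⟨i, rfl⟩ _ ⟨j, rfl⟩; exact h i j)
  refine ⟨(Algebra.adjoin ℂ (Set.range a)).val.comp
    (MvPolynomial.aeval fun j => ⟨a j, Algebra.subset_adjoin ⟨j, rfl⟩⟩), fun j => ?_⟩
  simp

open MvPolynomial in
lemma kill {B : Type} [Ring B] [Algebra ℂ B] (φ : MvPolynomial (Fin 4) ℂ →ₐ[ℂ] B)
    (h4 : φ (X 0) * φ (X 1) * φ (X 2) * φ (X 3) = 0) (h5 : ∀ j, φ (X j) ^ 5 = 0)
    (p : MvPolynomial (Fin 4) ℂ)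
    (hinv : ∀ a : Fin 4 → ZMod 5, ∑ i, a i = 0 → ∀ v : Fin 4 → ℂ,
      eval (fun i => e (a i) * v i) p = eval v p) (h0 : eval 0 p = 0) : φ p = 0 := by
  have hco : ∀ a : Fin 4 → ZMod 5, ∑ i, a i = 0 → ∀ α ∈ p.support,
      ∑ i, (α i : ZMod 5) * a i = 0 := by
    intro a ha α hα
    have h1 : ∑ β ∈ p.support, monomial β (coeff β p * ∏ i, e (a i) ^ β i) = p := by
      apply MvPolynomial.funext
      intro v
      rw [← hinv a ha v, eval_eq' _ p, map_sum]
      refine Finset.sum_congr rfl fun β _ => ?_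
      rw [eval_monomial, Finsupp.prod_fintype _ _ (by simp), mul_assoc, ← Finset.prod_mul_distrib]
      simp only [mul_pow]
    have h2 := congrArg (coeff α) h1
    rw [coeff_sum, Finset.sum_eq_single α] at h2
    · rw [coeff_monomial, if_pos rfl] at h2
      have h3 : ∏ i, e (a i) ^ α i = 1 :=
        mul_left_cancel₀ (mem_support_iff.1 hα) (by rw [h2, mul_one])
      apply e_eq_one
      rw [← h3, Fin.sum_univ_four, Fin.prod_univ_four, e_add, e_add, e_add]
      simp only [e_nsmul]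
    · intro b _ hb; rw [coeff_monomial, if_neg hb]
    · intro h; exact absurd hα h
  rw [p.as_sum, map_sum]
  refine Finset.sum_eq_zero fun α hα => ?_
  have hα0 : α ≠ 0 := by
    rintro rfl
    apply mem_support_iff.1 hα
    rw [← constantCoeff_eq, ← eval_zero]
    simpa using h0
  have hcong : ∀ i j, (α i : ZMod 5) = α j := by
    intro i j
    have := hco (rv i j 1) (rv_sum i j 1) α hα
    simp [rv, mul_sub, Finset.sum_sub_distrib] at this
    exact sub_eq_zero.1 this
  have key : ∀ β : Fin 4 →₀ ℕ, β ≤ α → φ (monomial β 1) = 0 → φ (monomial α (coeff α p)) = 0 := by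
    intro β hβ h
    obtain ⟨γ, rfl⟩ := exists_add_of_le hβ
    rw [← one_mul (coeff (β + γ) p), ← monomial_mul, map_mul, h, zero_mul]
  by_cases hall : ∀ i, α i ≠ 0
  · apply key (Finsupp.single 0 1 + Finsupp.single 1 1 + Finsupp.single 2 1 + Finsupp.single 3 1)
    · intro i
      have := hall i
      fin_cases i <;> simp at this ⊢ <;> omega
    · rw [← h4, ← map_mul, ← map_mul, ← map_mul]
      simp only [X, monomial_mul, one_mul]
  · push Not at hall
    obtain ⟨j, hj⟩ := hall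
    obtain ⟨i, hi⟩ : ∃ i, α i ≠ 0 := by
      by_contra hn
      push Not at hn
      exact hα0 (Finsupp.ext hn)
    have h1 := hcong i j
    rw [hj, Nat.cast_zero, ZMod.natCast_eq_zero_iff] at h1
    apply key (Finsupp.single i 5)
    · rw [Finsupp.single_le_iff]
      exact Nat.le_of_dvd (Nat.pos_of_ne_zero hi) h1
    · rw [← X_pow_eq_monomial, map_pow, h5]

noncomputable def ψX : FreeAlgebra ℂ (Dual ℂ V) →ₐ[ℂ] MvPolynomial (Fin 4) ℂ :=
  FreeAlgebra.lift ℂ fun ξ => ∑ j, ξ (Pi.single j 1) • MvPolynomial.X j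

noncomputable def ψY : FreeAlgebra ℂ V →ₐ[ℂ] MvPolynomial (Fin 4) ℂ :=
  FreeAlgebra.lift ℂ fun v => ∑ j, v j • MvPolynomial.X j

lemma dual_expand (ξ : Dual ℂ V) (v : V) : ξ v = ∑ j, v j * ξ (Pi.single j 1) := by
  rw [LinearMap.pi_apply_eq_sum_univ]
  refine Finset.sum_congr rfl fun j _ => ?_
  rw [smul_eq_mul]; congr 2
  funext i; simp [Pi.single_apply, eq_comm]

lemma evX_eq (v : V) (t : FreeAlgebra ℂ (Dual ℂ V)) : evX v t = MvPolynomial.eval v (ψX t) := by
  have : FreeAlgebra.lift ℂ (fun ξ : Dual ℂ V => ξ v) = (MvPolynomial.aeval v).comp ψX := by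
    apply FreeAlgebra.hom_ext
    refine funext fun x => ?_
    simp [ψX, dual_expand x v, mul_comm]
  rw [evX, this]; simp

lemma evY_eq (ξ : Dual ℂ V) (t : FreeAlgebra ℂ V) :
    evY ξ t = MvPolynomial.eval (fun j => ξ (Pi.single j 1)) (ψY t) := by
  have : FreeAlgebra.lift ℂ (fun v : V => ξ v) =
      (MvPolynomial.aeval fun j => ξ (Pi.single j 1)).comp ψY := by
    apply FreeAlgebra.hom_ext
    refine funext fun x => ?_
    simp [ψY, ← dual_expand ξ x]
  rw [evY, this]; simp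

noncomputable def XL : Dual ℂ V →ₗ[ℂ] End ℂ M where
  toFun ξ := ∑ j, ξ (Pi.single j 1) • Xo j
  map_add' ξ η := by simp [add_smul, Finset.sum_add_distrib]
  map_smul' t ξ := by simp [Finset.smul_sum, mul_smul]

noncomputable def YL (κ : ℂ) : V →ₗ[ℂ] End ℂ M where
  toFun v := ∑ j, v j • κ • Yo j
  map_add' ξ η := by simp [add_smul, Finset.sum_add_distrib]
  map_smul' t ξ := by simp [Finset.smul_sum, mul_smul]

lemma XL_apply (ξ : Dual ℂ V) : XL ξ = ∑ j, ξ (Pi.single j 1) • Xo j := rfl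
lemma YL_apply (κ : ℂ) (v : V) : YL κ v = ∑ j, v j • κ • Yo j := rfl

lemma XL_proj (j : Fin 4) : XL (LinearMap.proj j) = Xo j := by
  simp [XL_apply, Pi.single_apply]

lemma YL_single (κ : ℂ) (j : Fin 4) : YL κ (Pi.single j 1) = κ • Yo j := by
  simp [YL_apply, Pi.single_apply]

lemma dual_eq (ξ : Dual ℂ V) : ξ = ∑ j, ξ (Pi.single j 1) • (LinearMap.proj j : Dual ℂ V) := by
  refine LinearMap.ext fun v => ?_
  rw [dual_expand ξ v]
  simp [mul_comm]

lemma vec_eq (v : V) : v = ∑ j, v j • (Pi.single j 1 : V) := by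
  funext i; simp [Pi.single_apply]

lemma yx_basic {c : W → ℂ} (hc : IsParam W c) (p q : Fin 4) :
    (5 * c (rf 0 1 0)) • (Yo p * Xo q - Xo q * Yo p) =
      -∑ᶠ s ∈ {s : W | IsRefl (s : V ≃ₗ[ℂ] V)}, (c s * ((Pi.single p 1 : V) q -
        (s : V ≃ₗ[ℂ] V).symm (Pi.single p 1) q)) • gOp s := by
  rw [finsum_refl]
  refine end_ext fun u => ?_
  rw [LinearMap.smul_apply, YX_bs, smul_neg, LinearMap.neg_apply, Finset.smul_sum,
    LinearMap.sum_apply]
  congr 1
  refine Finset.sum_congr rfl fun ab hab => ?_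
  have h : ab.1 ≠ ab.2 := (Finset.mem_filter.1 hab).2.ne
  rw [LinearMap.sum_apply, smul_smul, mul_comm 5, mul_assoc, ← ksum h, Finset.mul_sum,
    Finset.sum_smul]
  refine Finset.sum_congr rfl fun k _ => ?_
  have e1 : pr (rf ab.1 ab.2 k) = swap ab.1 ab.2 := pr_mw _ _ _
  have e2 : vc (rf ab.1 ab.2 k) = rv ab.1 ab.2 k := vc_mw _ _ _
  rw [LinearMap.smul_apply, param_const hc h, gOp, e1, e2, End.mul_apply, torOp_bs,
    map_smul, smul_smul, mul_assoc]
  rfl

lemma isRep {c : W → ℂ} (hc : IsParam W c) : IsRep c (YL (5 * c (rf 0 1 0))) XL gOp where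
  one := gOp_one
  mul := gOp_mul
  wy w y := by
    rw [YL_apply, YL_apply, Finset.mul_sum, Finset.sum_mul, ← Equiv.sum_comp (pr w)
      (fun j => ((w : V ≃ₗ[ℂ] V) y j • (5 * c (rf 0 1 0)) • Yo j) * gOp w)]
    refine Finset.sum_congr rfl fun j _ => ?_
    rw [w_eq, mono_apply]
    simp only [mul_smul_comm, smul_mul_assoc, g_Y, smul_smul, Perm.coe_inv, symm_apply_apply]
    congr 1; ring
  wx w x := by
    rw [XL_apply, XL_apply, Finset.mul_sum, Finset.sum_mul, ← Equiv.sum_comp (pr w)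
      (fun j => (actDual (w : V ≃ₗ[ℂ] V) x (Pi.single j 1) • Xo j) * gOp w)]
    refine Finset.sum_congr rfl fun j _ => ?_
    have : actDual (w : V ≃ₗ[ℂ] V) x (Pi.single (pr w j) 1) =
        e (-vc w j) * x (Pi.single j 1) := by
      change x ((w : V ≃ₗ[ℂ] V).symm _) = _
      rw [w_eq, mono_symm_single, map_smul, smul_eq_mul]
    rw [this]
    simp only [mul_smul_comm, smul_mul_assoc, g_X, smul_smul]
    congr 1; ring
  xx x x' := by
    simp only [XL_apply, Finset.sum_mul_sum, mul_smul_comm, smul_mul_assoc, smul_smul]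
    rw [Finset.sum_comm]
    refine Finset.sum_congr rfl fun i _ => Finset.sum_congr rfl fun j _ => ?_
    rw [X_comm, mul_comm]
  yy x x' := by
    simp only [YL_apply, Finset.sum_mul_sum, mul_smul_comm, smul_mul_assoc, smul_smul]
    rw [Finset.sum_comm]
    refine Finset.sum_congr rfl fun i _ => Finset.sum_congr rfl fun j _ => ?_
    rw [Y_comm, mul_comm]
  yx y x := by
    have hfin := Set.toFinite {s : W | IsRefl (s : V ≃ₗ[ℂ] V)}
    have hb := fun p q => yx_basic hc p q
    simp only [finsum_mem_eq_finite_toFinset_sum _ hfin] at hb ⊢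
    have h1 : YL (5 * c (rf 0 1 0)) y * XL x - XL x * YL (5 * c (rf 0 1 0)) y =
        ∑ p, ∑ q, (y p * x (Pi.single q 1)) • ((5 * c (rf 0 1 0)) • (Yo p * Xo q - Xo q * Yo p)) := by
      simp only [YL_apply, XL_apply, Finset.sum_mul_sum, mul_smul_comm, smul_mul_assoc, smul_smul,
        smul_sub, Finset.sum_sub_distrib]
      congr 1
      · refine Finset.sum_congr rfl fun i _ => Finset.sum_congr rfl fun j _ => ?_
        congr 1; ring
      · rw [Finset.sum_comm]
        refine Finset.sum_congr rfl fun i _ => Finset.sum_congr rfl fun j _ => ?_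
        congr 1; ring
    rw [h1]
    simp only [hb, smul_neg, Finset.sum_neg_distrib, Finset.smul_sum, smul_smul]
    congr 1
    simp_rw [Finset.sum_comm (s := Finset.univ) (t := hfin.toFinset)]
    refine Finset.sum_congr rfl fun s _ => ?_
    simp only [← Finset.sum_smul]
    congr 1
    have h2 : ∀ (f : V →ₗ[ℂ] V), x (f y) = ∑ p, ∑ q, y p * x (Pi.single q 1) *
        f (Pi.single p 1) q := by
      intro f
      change (x.comp f) y = _
      rw [dual_expand (x.comp f) y]
      refine Finset.sum_congr rfl fun p _ => ?_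
      rw [LinearMap.comp_apply, dual_expand x, Finset.mul_sum]
      refine Finset.sum_congr rfl fun q _ => ?_
      ring
    have h3 := h2 LinearMap.id
    have h4 := h2 ((s : V ≃ₗ[ℂ] V).symm : V →ₗ[ℂ] V)
    change _ = c s * (x (LinearMap.id (R := ℂ) y) -
      x (((s : V ≃ₗ[ℂ] V).symm : V →ₗ[ℂ] V) y))
    rw [h3, h4, ← Finset.sum_sub_distrib, Finset.mul_sum]
    refine Finset.sum_congr rfl fun p _ => ?_
    rw [← Finset.sum_sub_distrib, Finset.mul_sum]
    refine Finset.sum_congr rfl fun q _ => ?_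
    simp only [LinearMap.id_apply, LinearEquiv.coe_coe]
    ring
  invX t h1 h0 := by
    obtain ⟨φ, hφ⟩ := exists_hom Xo X_comm
    have h : FreeAlgebra.lift ℂ (fun x => XL x) = φ.comp ψX := by
      apply FreeAlgebra.hom_ext
      refine funext fun x => ?_
      simp [ψX, hφ, XL_apply]
    rw [h]
    refine kill φ (by simp only [hφ, X4]) (by simp only [hφ, X_pow, implies_true]) _ ?_ ?_
    · intro a ha v
      have := h1 (mw 1 a ha) v
      rw [evX_eq, evX_eq] at this
      exact this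
    · rwa [evX_eq] at h0
  invY t h1 h0 := by
    obtain ⟨φ, hφ⟩ := exists_hom (fun j => (5 * c (rf 0 1 0)) • Yo j) (by
      intro i j
      simp only [mul_smul_comm, smul_mul_assoc, Y_comm i j])
    have h : FreeAlgebra.lift ℂ (fun x => YL (5 * c (rf 0 1 0)) x) = φ.comp ψY := by
      apply FreeAlgebra.hom_ext
      refine funext fun x => ?_
      simp [ψY, hφ, YL_apply]
    rw [h]
    refine kill φ (by simp only [hφ, mul_smul_comm, smul_mul_assoc, Y4, smul_zero])
      (by simp only [hφ, smul_pow, Y_pow, smul_zero, implies_true]) _ ?_ ?_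
    · intro a ha v
      have := h1 (mw 1 (fun i => -a i) (by rw [Finset.sum_neg_distrib, ha, neg_zero]))
        (∑ j, v j • (LinearMap.proj j : Dual ℂ V))
      rw [evY_eq, evY_eq] at this
      have e1 : ∀ u : V, (∑ j, v j • (LinearMap.proj j : Dual ℂ V)) u = ∑ j, v j * u j := by
        intro u; simp
      have e2 : (fun j => (∑ j, v j • (LinearMap.proj j : Dual ℂ V)) (Pi.single j 1)) = v := by
        funext j; rw [e1]; simp [Pi.single_apply]
      have e3 : (fun j => actDual ((mw 1 (fun i => -a i)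
          (by rw [Finset.sum_neg_distrib, ha, neg_zero]) : W) : V ≃ₗ[ℂ] V)
          (∑ j, v j • (LinearMap.proj j : Dual ℂ V)) (Pi.single j 1)) =
          fun i => e (a i) * v i := by
        funext j
        have h5 := mono_symm_single 1 (fun i => -a i) j
        rw [Perm.one_apply] at h5
        rw [actDual, LinearMap.comp_apply, e1, LinearEquiv.coe_coe, mw, h5]
        simp [Pi.single_apply, mul_comm]
      rw [e2, e3] at this
      exact this
    · rw [evY_eq] at h0
      exact h0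

lemma newton {R : Type} [CommRing R] (z : Fin 4 → R) (j : Fin 4) :
    ∃ a b c d : R, 24 * z j ^ 4 = (∑ i, z i ^ 1) * a + (∑ i, z i ^ 2) * b + (∑ i, z i ^ 3) * c +
      (∑ i, z i ^ 4) * d := by
  refine ⟨24 * z j ^ 3 - 12 * (∑ i, z i ^ 1) * z j ^ 2 +
      4 * ((∑ i, z i ^ 1) ^ 2 - 3 * (∑ i, z i ^ 2)) * z j -
      ((∑ i, z i ^ 1) ^ 3 - 6 * (∑ i, z i ^ 1) * (∑ i, z i ^ 2) + 8 * (∑ i, z i ^ 3)),
    12 * z j ^ 2 - 3 * (∑ i, z i ^ 2), 8 * z j, 6, ?_⟩
  simp only [Fin.sum_univ_four]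
  fin_cases j <;> simp only [Fin.zero_eta, Fin.mk_one, Fin.reduceFinMk, Fin.isValue] <;> ring

lemma nilp {B : Type} [Ring B] [Algebra ℂ B] {c : W → ℂ} {Y : V →ₗ[ℂ] B}
    {X : Dual ℂ V →ₗ[ℂ] B} {g : W → B} (h : IsRep c Y X g) (j : Fin 4) :
    IsNilpotent (X (LinearMap.proj j)) := by
  obtain ⟨φ, hφ⟩ := exists_hom (fun j => X (LinearMap.proj j)) (fun i j => h.xx _ _)
  have hp : ∀ r : ℕ, r ≠ 0 → φ (∑ i, (MvPolynomial.X i ^ 5) ^ r) = 0 := by
    intro r hr
    have := h.invX (∑ i : Fin 4, (FreeAlgebra.ι ℂ (LinearMap.proj i : Dual ℂ V) ^ 5) ^ r) (by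
      intro w v
      simp only [evX, map_sum, map_pow, FreeAlgebra.lift_ι_apply, LinearMap.proj_apply]
      rw [w_eq]
      simp only [mono_apply, mul_pow, e_pow5, one_pow, one_mul]
      exact Equiv.sum_comp (pr w)⁻¹ (fun i => (v i ^ 5) ^ r)) (by simp [evX, hr])
    simpa [hφ] using this
  obtain ⟨a, b, c, d, he⟩ := newton (fun i => (MvPolynomial.X i ^ 5 : MvPolynomial (Fin 4) ℂ)) j
  have h1 := congrArg φ he
  rw [map_add, map_add, map_add, map_mul φ _ a, map_mul φ _ b, map_mul φ _ c, map_mul φ _ d,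
    hp 1 (by norm_num), hp 2 (by norm_num), hp 3 (by norm_num), hp 4 (by norm_num)] at h1
  have h2 : (24 : MvPolynomial (Fin 4) ℂ) * (MvPolynomial.X j ^ 5) ^ 4 =
      (24 : ℂ) • MvPolynomial.X j ^ 20 := by
    rw [MvPolynomial.smul_eq_C_mul, ← pow_mul]; rfl
  rw [h2, map_smul, map_pow, hφ] at h1
  simp only [zero_mul, add_zero] at h1
  exact ⟨20, (smul_eq_zero.1 h1).resolve_left (by norm_num)⟩

end Pool.Agent.H150Z.Cher.G
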